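import Mathlib

/-!
Topological generation of unitary groups, abstract part, I.
A `GNSMap` is a linear map `Λ : A → K` from a unital C*-algebra to an inner product space with
`‖Λ (star x)‖ = ‖Λ x‖`, `‖Λ (a x)‖ ≤ ‖a‖ ‖Λ x‖` and `⟪Λ (a x), Λ y⟫ = ⟪Λ x, Λ (a* y)⟫`
(the GNS map of a trace).  `‖Λ x‖` is the 2-norm of `x`.
-/

namespace Pool.Agent.MPcb31e3

open NormedSpace Filter Topology

/-- GNS map of a trace. -/
structure GNSMap (A K : Type*) [CStarAlgebra A] [NormedAddCommGroup K]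
    [InnerProductSpace ℂ K] where
  /-- the linear map -/
  toLin : A →ₗ[ℂ] K
  norm_star' : ∀ x, ‖toLin (star x)‖ = ‖toLin x‖
  norm_mul_le' : ∀ a x, ‖toLin (a * x)‖ ≤ ‖a‖ * ‖toLin x‖
  inner_mul' : ∀ a x y, inner ℂ (toLin (a * x)) (toLin y) = inner ℂ (toLin x) (toLin (star a * y))

section

variable {A K : Type*} [CStarAlgebra A] [NormedAddCommGroup K] [InnerProductSpace ℂ K]

/-- the 2-norm -/
noncomputable def n2 (Λ : GNSMap A K) (x : A) : ℝ := ‖Λ.toLin x‖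

variable (Λ : GNSMap A K)

theorem n2_nonneg (x : A) : 0 ≤ n2 Λ x := norm_nonneg _

@[simp] theorem n2_zero : n2 Λ 0 = 0 := by simp [n2]

theorem n2_star (x : A) : n2 Λ (star x) = n2 Λ x := Λ.norm_star' x

theorem n2_neg (x : A) : n2 Λ (-x) = n2 Λ x := by simp [n2]

theorem n2_add (x y : A) : n2 Λ (x + y) ≤ n2 Λ x + n2 Λ y := by
  simp only [n2, map_add]; exact norm_add_le _ _

theorem n2_sub (x y : A) : n2 Λ (x - y) ≤ n2 Λ x + n2 Λ y := by
  simp only [n2, map_sub]; exact norm_sub_le _ _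

theorem n2_comm (x y : A) : n2 Λ (x - y) = n2 Λ (y - x) := by
  rw [← n2_neg, neg_sub]

theorem n2_smul (c : ℂ) (x : A) : n2 Λ (c • x) = ‖c‖ * n2 Λ x := by
  simp only [n2, map_smul, norm_smul]

theorem n2_mul_left (a x : A) : n2 Λ (a * x) ≤ ‖a‖ * n2 Λ x := Λ.norm_mul_le' a x

theorem n2_mul_right (x a : A) : n2 Λ (x * a) ≤ ‖a‖ * n2 Λ x := by
  rw [← n2_star, star_mul]
  refine (n2_mul_left Λ _ _).trans ?_
  rw [norm_star, n2_star]

theorem n2_le (x : A) : n2 Λ x ≤ ‖x‖ * n2 Λ 1 := by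
  have := n2_mul_left Λ x 1
  rwa [mul_one] at this

theorem norm_unitary_le (u : A) (hu : u ∈ unitary A) : ‖u‖ ≤ 1 := by
  rcases subsingleton_or_nontrivial A with h | h
  · rw [Subsingleton.elim u 0, norm_zero]; exact zero_le_one
  · exact (CStarRing.norm_of_mem_unitary hu).le

theorem n2_unitary_mul {u : A} (hu : u ∈ unitary A) (x : A) : n2 Λ (u * x) = n2 Λ x := by
  apply le_antisymm
  · refine (n2_mul_left Λ u x).trans ?_
    have := norm_unitary_le u hu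
    nlinarith [n2_nonneg Λ x]
  · have h1 : n2 Λ (star u * (u * x)) ≤ ‖star u‖ * n2 Λ (u * x) := n2_mul_left Λ _ _
    rw [← mul_assoc, (Unitary.mem_iff.1 hu).1, one_mul] at h1
    have := norm_unitary_le (star u) (Unitary.star_mem hu)
    nlinarith [n2_nonneg Λ (u * x)]

theorem n2_mul_unitary {u : A} (hu : u ∈ unitary A) (x : A) : n2 Λ (x * u) = n2 Λ x := by
  rw [← n2_star, star_mul, n2_unitary_mul Λ (Unitary.star_mem hu), n2_star]

/-- `n • (exp (a/n) - 1) → a` -/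
theorem tendsto_smul_exp_sub_one (a : A) :
    Tendsto (fun n : ℕ => (n : ℂ) • (exp (((n : ℂ)⁻¹) • a) - 1)) atTop (𝓝 a) := by
  have h : HasDerivAt (fun t : ℂ => exp (t • a)) (exp ((0:ℂ) • a) * a) 0 :=
    hasDerivAt_exp_smul_const a (0 : ℂ)
  rw [zero_smul, exp_zero, one_mul, hasDerivAt_iff_tendsto_slope_zero] at h
  have h2 : Tendsto (fun n : ℕ => ((n : ℂ)⁻¹)) atTop (𝓝[≠] 0) := by
    rw [tendsto_nhdsWithin_iff]
    refine ⟨tendsto_inv_atTop_nhds_zero_nat, ?_⟩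
    filter_upwards [eventually_gt_atTop 0] with n hn
    simp only [Set.mem_compl_iff, Set.mem_singleton_iff, inv_eq_zero, Nat.cast_eq_zero]
    exact hn.ne'
  have h3 := h.comp h2
  refine h3.congr fun n => ?_
  simp only [Function.comp, zero_add, zero_smul, exp_zero, inv_inv]

theorem exp_eq_pow (a : A) {n : ℕ} (hn : n ≠ 0) : exp a = exp (((n : ℂ)⁻¹) • a) ^ n := by
  let +nondep : NormedAlgebra ℚ A := .restrictScalars ℚ ℂ A
  rw [← exp_nsmul, ← Nat.cast_smul_eq_nsmul ℂ, smul_smul, mul_inv_cancel₀, one_smul]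
  exact_mod_cast hn

/-- telescoping for the 2-norm -/
theorem n2_pow_sub_pow {X Y : A} (hX : X ∈ unitary A) (hY : Y ∈ unitary A) (n : ℕ) :
    n2 Λ (X ^ n - Y ^ n) ≤ n * n2 Λ (X - Y) := by
  induction n with
  | zero => simp
  | succ n ih =>
    have h : X ^ (n + 1) - Y ^ (n + 1) = X * (X ^ n - Y ^ n) + (X - Y) * Y ^ n := by
      rw [pow_succ' X, pow_succ' Y, mul_sub, sub_mul]; abel
    rw [h]
    refine (n2_add Λ _ _).trans ?_
    rw [n2_unitary_mul Λ hX, n2_mul_unitary Λ (pow_mem hY n)]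
    push_cast
    linarith

/-- telescoping for the norm -/
theorem norm_pow_sub_pow {X Y : A} (hX : ‖X‖ ≤ 1) (hY : ‖Y‖ ≤ 1) (n : ℕ) :
    ‖X ^ n - Y ^ n‖ ≤ n * ‖X - Y‖ := by
  induction n with
  | zero => simp
  | succ n ih =>
    rcases subsingleton_or_nontrivial A with hs | hs
    · rw [Subsingleton.elim (X ^ (n+1) - Y ^ (n+1)) 0, norm_zero]; positivity
    have h : X ^ (n + 1) - Y ^ (n + 1) = X * (X ^ n - Y ^ n) + (X - Y) * Y ^ n := by
      rw [pow_succ' X, pow_succ' Y, mul_sub, sub_mul]; abel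
    rw [h]
    refine (norm_add_le _ _).trans ?_
    have h1 : ‖X * (X ^ n - Y ^ n)‖ ≤ ‖X ^ n - Y ^ n‖ := by
      refine (norm_mul_le _ _).trans ?_
      nlinarith [norm_nonneg (X ^ n - Y ^ n)]
    have h2 : ‖(X - Y) * Y ^ n‖ ≤ ‖X - Y‖ := by
      refine (norm_mul_le _ _).trans ?_
      have : ‖Y ^ n‖ ≤ 1 := by
        refine (norm_pow_le Y n).trans ?_
        exact pow_le_one₀ (norm_nonneg _) hY
      nlinarith [norm_nonneg (X - Y)]
    push_cast
    linarith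

theorem exp_mem_unitary {h : A} (hh : IsSelfAdjoint h) : exp (Complex.I • h) ∈ unitary A :=
  (selfAdjoint.expUnitary ⟨h, hh⟩).2

theorem exp_inv_mem_unitary {h : A} (hh : IsSelfAdjoint h) (n : ℕ) :
    exp (((n : ℂ)⁻¹) • (Complex.I • h)) ∈ unitary A := by
  rw [smul_comm]
  apply exp_mem_unitary
  have : ((n : ℂ)⁻¹) • h = ((n : ℝ)⁻¹) • h := by
    rw [← Complex.coe_smul]; push_cast; rfl
  rw [this]
  exact IsSelfAdjoint.smul (IsSelfAdjoint.all ((n : ℝ)⁻¹)) hh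

/-- the exponential is 2-norm Lipschitz on selfadjoint elements -/
theorem n2_exp_sub_exp {h k : A} (hh : IsSelfAdjoint h) (hk : IsSelfAdjoint k) :
    n2 Λ (exp (Complex.I • h) - exp (Complex.I • k)) ≤ n2 Λ (h - k) := by
  have key : ∀ n : ℕ, 0 < n → n2 Λ (exp (Complex.I • h) - exp (Complex.I • k)) ≤
      n2 Λ ((n : ℂ) • (exp (((n : ℂ)⁻¹) • (Complex.I • h)) - 1)
        - (n : ℂ) • (exp (((n : ℂ)⁻¹) • (Complex.I • k)) - 1)) := by
    intro n hn
    rw [exp_eq_pow (Complex.I • h) hn.ne', exp_eq_pow (Complex.I • k) hn.ne']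
    refine (n2_pow_sub_pow Λ (exp_inv_mem_unitary hh n) (exp_inv_mem_unitary hk n) n).trans ?_
    rw [← smul_sub, sub_sub_sub_cancel_right, n2_smul]
    simp
  have lim : Tendsto (fun n : ℕ => n2 Λ ((n : ℂ) • (exp (((n : ℂ)⁻¹) • (Complex.I • h)) - 1)
        - (n : ℂ) • (exp (((n : ℂ)⁻¹) • (Complex.I • k)) - 1))) atTop
        (𝓝 (n2 Λ (Complex.I • h - Complex.I • k))) := by
    have h1 := (tendsto_smul_exp_sub_one (Complex.I • h)).sub
      (tendsto_smul_exp_sub_one (Complex.I • k))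
    have hc : Continuous (n2 Λ) := by
      have hl : Continuous Λ.toLin := by
        refine (Λ.toLin.mkContinuous (n2 Λ 1) fun x => ?_).continuous
        rw [mul_comm]; exact n2_le Λ x
      exact hl.norm
    exact (hc.tendsto _).comp h1
  have := ge_of_tendsto lim (eventually_gt_atTop 0 |>.mono fun n hn => key n hn)
  rwa [← smul_sub, n2_smul, Complex.norm_I, one_mul] at this

theorem continuous_toLin : Continuous Λ.toLin := by
  refine (Λ.toLin.mkContinuous (n2 Λ 1) fun x => ?_).continuous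
  rw [mul_comm]; exact n2_le Λ x

end

section Trotter
variable {A : Type*} [CStarAlgebra A]

/-- Lie–Trotter product formula for skew-adjoint elements. -/
theorem trotter {h k : A} (hh : IsSelfAdjoint h) (hk : IsSelfAdjoint k) :
    Tendsto (fun n : ℕ => (exp (((n : ℂ)⁻¹) • (Complex.I • h)) *
      exp (((n : ℂ)⁻¹) • (Complex.I • k))) ^ n) atTop (𝓝 (exp (Complex.I • (h + k)))) := by
  set a := Complex.I • h
  set b := Complex.I • k
  have hab : Complex.I • (h + k) = a + b := smul_add _ _ _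
  rw [tendsto_iff_norm_sub_tendsto_zero]
  have lim : Tendsto (fun n : ℕ => ‖((n : ℂ) • (exp (((n : ℂ)⁻¹) • a) - 1)) *
      exp (((n : ℂ)⁻¹) • b) + (n : ℂ) • (exp (((n : ℂ)⁻¹) • b) - 1)
        - (n : ℂ) • (exp (((n : ℂ)⁻¹) • (a + b)) - 1)‖) atTop (𝓝 ‖a * 1 + b - (a + b)‖) := by
    refine Tendsto.norm (((Tendsto.mul (tendsto_smul_exp_sub_one a) ?_).add
      (tendsto_smul_exp_sub_one b)).sub (tendsto_smul_exp_sub_one (a + b)))
    let +nondep : NormedAlgebra ℚ A := .restrictScalars ℚ ℂ A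
    have h1 : Tendsto (fun n : ℕ => ((n : ℂ)⁻¹) • b) atTop (𝓝 ((0:ℂ) • b)) :=
      (tendsto_inv_atTop_nhds_zero_nat (𝕜 := ℂ)).smul_const b
    have h2 := (exp_continuous.tendsto _).comp h1
    rwa [zero_smul, exp_zero] at h2
  rw [mul_one, sub_self, norm_zero] at lim
  refine squeeze_zero' (Eventually.of_forall fun n => norm_nonneg _) ?_ lim
  filter_upwards [eventually_gt_atTop 0] with n hn
  rw [hab, exp_eq_pow (a + b) hn.ne']
  have hX : ‖exp (((n : ℂ)⁻¹) • a) * exp (((n : ℂ)⁻¹) • b)‖ ≤ 1 :=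
    norm_unitary_le _ (mul_mem (exp_inv_mem_unitary hh n) (exp_inv_mem_unitary hk n))
  have hY : ‖exp (((n : ℂ)⁻¹) • (a + b))‖ ≤ 1 := by
    rw [← hab]
    exact norm_unitary_le _ (exp_inv_mem_unitary (hh.add hk) n)
  refine (norm_pow_sub_pow hX hY n).trans ?_
  have e : ((n : ℂ) • (exp (((n : ℂ)⁻¹) • a) - 1)) *
      exp (((n : ℂ)⁻¹) • b) + (n : ℂ) • (exp (((n : ℂ)⁻¹) • b) - 1)
        - (n : ℂ) • (exp (((n : ℂ)⁻¹) • (a + b)) - 1) =
      (n : ℂ) • (exp (((n : ℂ)⁻¹) • a) * exp (((n : ℂ)⁻¹) • b) -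
        exp (((n : ℂ)⁻¹) • (a + b))) := by
    rw [smul_mul_assoc, ← smul_add, ← smul_sub, sub_mul, one_mul]
    congr 1
    abel
  rw [e, norm_smul]
  simp

end Trotter

end Pool.Agent.MPcb31e3
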