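import Mathlib

/-!
Topological generation of unitary groups of finite von Neumann algebras: definitions used in the
statement.
-/

namespace Pool.Agent.MPcb31e3

open scoped Cardinal

variable {H : Type*} [NormedAddCommGroup H] [InnerProductSpace ℂ H] [CompleteSpace H]

/-- `S` generates `M` as a von Neumann algebra: `S ⊆ M` and every von Neumann algebra on `H`
which contains `S` contains `M`. -/
def Generates (M : VonNeumannAlgebra H) (S : Set (H →L[ℂ] H)) : Prop :=
  S ⊆ (M : Set (H →L[ℂ] H)) ∧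
    ∀ N : VonNeumannAlgebra H, S ⊆ (N : Set (H →L[ℂ] H)) →
      (M : Set (H →L[ℂ] H)) ⊆ (N : Set (H →L[ℂ] H))

/-- The unitary group `U(M)`, as a set of unitary operators on `H`. -/
def UM (M : VonNeumannAlgebra H) : Set (unitary (H →L[ℂ] H)) :=
  {u | (u : H →L[ℂ] H) ∈ (M : Set (H →L[ℂ] H))}

/-- `G` is dense in `T` for the strong operator topology: every basic strong neighbourhood
`{g : ‖u η - g η‖ < ε for η ∈ F}` (`F` finite) of every `u ∈ T` meets `G`. -/
def StronglyDense (G T : Set (unitary (H →L[ℂ] H))) : Prop :=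
  ∀ u ∈ T, ∀ F : Finset H, ∀ ε : ℝ, 0 < ε →
    ∃ g ∈ G, ∀ η ∈ F, ‖(u : H →L[ℂ] H) η - (g : H →L[ℂ] H) η‖ < ε

/-- `S` topologically generates `U(M)`: `S ⊆ U(M)` and the group generated by `S` is strongly
dense in `U(M)`. -/
def TopGenerates (M : VonNeumannAlgebra H) (S : Set (unitary (H →L[ℂ] H))) : Prop :=
  S ⊆ UM M ∧ StronglyDense (Subgroup.closure S : Set (unitary (H →L[ℂ] H))) (UM M)

/-- `d(M)`: the least cardinality of a set of unitaries of `M` which topologically generates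
`U(M)`. -/
noncomputable def topRank (M : VonNeumannAlgebra H) : Cardinal :=
  sInf {c | ∃ S : Set (unitary (H →L[ℂ] H)), TopGenerates M S ∧ c = #S}

/-- The least cardinality of a set of unitaries of `M` which generates `M` as a von Neumann
algebra. -/
noncomputable def unitaryGenRank (M : VonNeumannAlgebra H) : Cardinal :=
  sInf {c | ∃ S : Set (unitary (H →L[ℂ] H)),
    S ⊆ UM M ∧ Generates M ((fun u : unitary (H →L[ℂ] H) => (u : H →L[ℂ] H)) '' S) ∧ c = #S}

/-- The normal functional `x ↦ ∑ₖ ⟪ξₖ, x ξₖ⟫` on `B(H)`. -/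
noncomputable def vecFun (ξ : ℕ → H) (x : H →L[ℂ] H) : ℂ := ∑' k, inner ℂ (ξ k) (x (ξ k))

/-- The functional `x ↦ ∑ₖ ⟪ξₖ, x ξₖ⟫` (with `∑ₖ ‖ξₖ‖² = 1`) is a faithful (normal) tracial state of
`M`.  Every faithful normal tracial state of a von Neumann algebra is of this form. -/
structure IsTracialState (M : VonNeumannAlgebra H) (ξ : ℕ → H) : Prop where
  summable : Summable fun k => ‖ξ k‖ ^ 2
  norm_one : ∑' k, ‖ξ k‖ ^ 2 = 1
  trace : ∀ x ∈ (M : Set (H →L[ℂ] H)), ∀ y ∈ (M : Set (H →L[ℂ] H)),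
    vecFun ξ (x * y) = vecFun ξ (y * x)
  faithful : ∀ x ∈ (M : Set (H →L[ℂ] H)), vecFun ξ (star x * x) = 0 → x = 0

/-- `M` is a factor of type II₁: trivial centre, infinite-dimensional, with a faithful normal
tracial state. -/
structure IsII1Factor (M : VonNeumannAlgebra H) : Prop where
  factor : ∀ x ∈ (M : Set (H →L[ℂ] H)), (∀ y ∈ (M : Set (H →L[ℂ] H)), x * y = y * x) →
    ∃ c : ℂ, x = c • (1 : H →L[ℂ] H)
  infinite : ¬ FiniteDimensional ℂ M.toStarSubalgebra
  trace : ∃ ξ : ℕ → H, IsTracialState M ξ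

end Pool.Agent.MPcb31e3
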