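import Pool.Agent.MPcb31e3.Top
import Pool.Agent.MPcb31e3.Defs

/-!
Topological generation of unitary groups: the GNS map of a concrete von Neumann algebra with a
faithful normal tracial state.
-/

namespace Pool.Agent.MPcb31e3

open NormedSpace Filter Topology ComplexStarModule
open scoped Real ENNReal

variable {H : Type*} [NormedAddCommGroup H] [InnerProductSpace ℂ H]

/-- the Hilbert space `ℓ²(ℕ; H)` -/
abbrev L2 (H : Type*) [NormedAddCommGroup H] : Type _ := lp (fun _ : ℕ => H) 2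

theorem memL2 {f : ℕ → H} (h : Summable fun k => ‖f k‖ ^ 2) : Memℓp f 2 := by
  apply memℓp_gen
  simpa using h

theorem summable_L2 (f : L2 H) : Summable fun k => ‖f k‖ ^ 2 := by
  have := (lp.memℓp f).summable (by simp)
  simpa using this

theorem norm_sq_L2 (f : L2 H) : ‖f‖ ^ 2 = ∑' k, ‖f k‖ ^ 2 := by
  have := lp.norm_rpow_eq_tsum (p := 2) (by simp) f
  simpa using this

theorem norm_L2_le {f : L2 H} {C : ℝ} (hC : 0 ≤ C) (g : L2 H) (h : ∀ k, ‖f k‖ ≤ C * ‖g k‖) :
    ‖f‖ ≤ C * ‖g‖ := by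
  have h1 : ‖f‖ ^ 2 ≤ (C * ‖g‖) ^ 2 := by
    rw [mul_pow, norm_sq_L2, norm_sq_L2, ← tsum_mul_left]
    refine Summable.tsum_le_tsum (fun k => ?_) (summable_L2 f) ((summable_L2 g).mul_left _)
    rw [← mul_pow]
    exact pow_le_pow_left₀ (norm_nonneg _) (h k) 2
  exact le_of_sq_le_sq h1 (by positivity)

/-- the amplification `x ↦ x ⊗ 1` on `ℓ²(ℕ; H)` -/
noncomputable def ampl (x : H →L[ℂ] H) : L2 H →L[ℂ] L2 H :=
  LinearMap.mkContinuous
    { toFun := fun f => ⟨fun k => x (f k), memL2 (by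
        refine Summable.of_nonneg_of_le (fun k => by positivity) (fun k => ?_)
          ((summable_L2 f).mul_left (‖x‖ ^ 2))
        rw [← mul_pow]
        exact pow_le_pow_left₀ (norm_nonneg _) (x.le_opNorm _) 2)⟩
      map_add' := fun f g => by
        apply lp.ext; funext k; simp
      map_smul' := fun c f => by
        apply lp.ext; funext k; simp } ‖x‖ (fun f => by
        apply norm_L2_le (norm_nonneg _)
        intro k
        exact x.le_opNorm _)

@[simp] theorem ampl_apply (x : H →L[ℂ] H) (f : L2 H) (k : ℕ) : ampl x f k = x (f k) := rfl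

theorem norm_ampl_apply_le (x : H →L[ℂ] H) (f : L2 H) : ‖ampl x f‖ ≤ ‖x‖ * ‖f‖ :=
  norm_L2_le (norm_nonneg _) _ fun k => x.le_opNorm _

/-- the vector `(ξ k)` of `ℓ²(ℕ; H)` -/
noncomputable def vec (ξ : ℕ → H) (hξ : Summable fun k => ‖ξ k‖ ^ 2) : L2 H := ⟨ξ, memL2 hξ⟩

/-- `x ↦ (x ξ k)ₖ` -/
noncomputable def vecMap (ξ : ℕ → H) (hξ : Summable fun k => ‖ξ k‖ ^ 2) :
    (H →L[ℂ] H) →ₗ[ℂ] L2 H where
  toFun x := ampl x (vec ξ hξ)
  map_add' x y := by apply lp.ext; funext k; simp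
  map_smul' c x := by apply lp.ext; funext k; simp

@[simp] theorem vecMap_apply (ξ : ℕ → H) (hξ : Summable fun k => ‖ξ k‖ ^ 2) (x : H →L[ℂ] H)
    (k : ℕ) : vecMap ξ hξ x k = x (ξ k) := rfl

theorem vecMap_mul (ξ : ℕ → H) (hξ : Summable fun k => ‖ξ k‖ ^ 2) (x y : H →L[ℂ] H) :
    vecMap ξ hξ (x * y) = ampl x (vecMap ξ hξ y) := by
  apply lp.ext; funext k; rfl

variable [CompleteSpace H]

theorem inner_vecMap (ξ : ℕ → H) (hξ : Summable fun k => ‖ξ k‖ ^ 2) (x y : H →L[ℂ] H) :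
    inner ℂ (vecMap ξ hξ x) (vecMap ξ hξ y) = vecFun ξ (star x * y) := by
  rw [lp.inner_eq_tsum]
  unfold vecFun
  refine tsum_congr fun k => ?_
  rw [vecMap_apply, vecMap_apply, ContinuousLinearMap.star_eq_adjoint,
    ContinuousLinearMap.mul_apply, ContinuousLinearMap.adjoint_inner_right]

/-- commutant -/
def comm' (M : VonNeumannAlgebra H) : Set (H →L[ℂ] H) := Set.centralizer (M : Set (H →L[ℂ] H))

theorem mem_of_commute (M : VonNeumannAlgebra H) {x : H →L[ℂ] H}
    (hx : ∀ y ∈ comm' M, y * x = x * y) : x ∈ (M : Set (H →L[ℂ] H)) := by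
  rw [← M.centralizer_centralizer]
  exact fun y hy => hx y hy

instance isClosedM (M : VonNeumannAlgebra H) :
    IsClosed (M.toStarSubalgebra : Set (H →L[ℂ] H)) := by
  rw [VonNeumannAlgebra.coe_toStarSubalgebra, ← M.centralizer_centralizer]
  exact Set.isClosed_centralizer _

/-- the GNS map of the trace -/
noncomputable def gns (M : VonNeumannAlgebra H) {ξ : ℕ → H} (hξ : IsTracialState M ξ) :
    GNSMap M.toStarSubalgebra (L2 H) where
  toLin := (vecMap ξ hξ.summable).comp M.toStarSubalgebra.subtype.toLinearMap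
  norm_star' := by
    intro x
    have h1 : ∀ y : H →L[ℂ] H, ((‖vecMap ξ hξ.summable y‖ : ℝ) : ℂ) ^ 2 =
        vecFun ξ (star y * y) := by
      intro y
      rw [← inner_vecMap ξ hξ.summable]
      exact (inner_self_eq_norm_sq_to_K (𝕜 := ℂ) (vecMap ξ hξ.summable y)).symm
    have h2 := h1 (star (x : H →L[ℂ] H))
    have h3 := h1 (x : H →L[ℂ] H)
    rw [star_star, hξ.trace _ x.2 _ (star_mem x.2)] at h2
    rw [← h3] at h2
    have h4 : ‖vecMap ξ hξ.summable (star (x : H →L[ℂ] H))‖ ^ 2 =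
        ‖vecMap ξ hξ.summable (x : H →L[ℂ] H)‖ ^ 2 := by exact_mod_cast h2
    exact (sq_eq_sq₀ (norm_nonneg _) (norm_nonneg _)).1 h4
  norm_mul_le' := by
    intro a x
    change ‖vecMap ξ hξ.summable ((a : H →L[ℂ] H) * x)‖ ≤ ‖(a : H →L[ℂ] H)‖ * _
    rw [vecMap_mul]
    exact norm_ampl_apply_le _ _
  inner_mul' := by
    intro a x y
    change inner ℂ (vecMap ξ hξ.summable ((a : H →L[ℂ] H) * x)) (vecMap ξ hξ.summable y) =
      inner ℂ (vecMap ξ hξ.summable x) (vecMap ξ hξ.summable (star (a : H →L[ℂ] H) * y))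
    rw [inner_vecMap, inner_vecMap, star_mul, mul_assoc]

theorem gns_apply (M : VonNeumannAlgebra H) {ξ : ℕ → H} (hξ : IsTracialState M ξ)
    (x : M.toStarSubalgebra) : (gns M hξ).toLin x = vecMap ξ hξ.summable (x : H →L[ℂ] H) := rfl

theorem gns_inj (M : VonNeumannAlgebra H) {ξ : ℕ → H} (hξ : IsTracialState M ξ)
    (x : M.toStarSubalgebra) (hx : (gns M hξ).toLin x = 0) : x = 0 := by
  apply Subtype.ext
  apply hξ.faithful _ x.2
  rw [← inner_vecMap ξ hξ.summable]
  rw [gns_apply] at hx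
  rw [hx, inner_zero_left]

end Pool.Agent.MPcb31e3
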