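import Pool.Agent.MPcb31e3.Concrete

/-!
Topological generation of unitary groups: completeness, separability and density for the GNS map
of a concrete von Neumann algebra with a faithful normal tracial state.
-/

namespace Pool.Agent.MPcb31e3

open NormedSpace Filter Topology ComplexStarModule
open scoped Real ENNReal

variable {H : Type*} [NormedAddCommGroup H] [InnerProductSpace ℂ H] [CompleteSpace H]

/-- the projection onto a closed subspace invariant under `y` and `y*` commutes with `y` -/
theorem starProjection_comm {E : Type*} [NormedAddCommGroup E] [InnerProductSpace ℂ E]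
    [CompleteSpace E] (L : Submodule ℂ E) [L.HasOrthogonalProjection] (y y' : E →L[ℂ] E)
    (hadj : ∀ v w, inner ℂ v (y w) = inner ℂ (y' v) w)
    (hy : ∀ v ∈ L, y v ∈ L) (hy' : ∀ v ∈ L, y' v ∈ L) (v : E) :
    L.starProjection (y v) = y (L.starProjection v) := by
  apply Submodule.eq_starProjection_of_mem_orthogonal
  · exact hy _ (Submodule.starProjection_apply_mem L v)
  · rw [← map_sub, Submodule.mem_orthogonal]
    intro u hu
    rw [hadj]
    exact (Submodule.mem_orthogonal L _).1 (Submodule.sub_starProjection_mem_orthogonal v) _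
      (hy' u hu)

theorem star_mem_comm' (M : VonNeumannAlgebra H) {y : H →L[ℂ] H} (hy : y ∈ comm' M) :
    star y ∈ comm' M := by
  intro m hm
  have := congrArg star (hy (star m) (star_mem (S := VonNeumannAlgebra H) (s := M) hm))
  rw [star_mul, star_mul, star_star] at this
  exact this.symm

/-- `M' ξ` is total -/
theorem total_comm (M : VonNeumannAlgebra H) {ξ : ℕ → H} (hξ : IsTracialState M ξ) :
    (Submodule.span ℂ {v : H | ∃ y ∈ comm' M, ∃ k, v = y (ξ k)}).topologicalClosure = ⊤ := by
  set L₀ := Submodule.span ℂ {v : H | ∃ y ∈ comm' M, ∃ k, v = y (ξ k)} with hL₀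
  set L := L₀.topologicalClosure with hL
  have hinv : ∀ z ∈ comm' M, ∀ v ∈ L, z v ∈ L := by
    intro z hz v hv
    have h0 : L₀ ≤ L.comap (z : H →ₗ[ℂ] H) := by
      rw [hL₀]
      apply Submodule.span_le.2
      rintro _ ⟨y, hy, k, rfl⟩
      apply L₀.le_topologicalClosure
      apply Submodule.subset_span
      exact ⟨z * y, Set.mul_mem_centralizer hz hy, k, rfl⟩
    have hcl : IsClosed ((L.comap (z : H →ₗ[ℂ] H) : Submodule ℂ H) : Set H) :=
      L₀.isClosed_topologicalClosure.preimage z.continuous
    exact L₀.topologicalClosure_minimal h0 hcl hv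
  have hcomplete : CompleteSpace L := L₀.isClosed_topologicalClosure.completeSpace_coe
  set P := L.starProjection with hP
  have hPM : P ∈ (M : Set (H →L[ℂ] H)) := by
    apply mem_of_commute
    intro y hy
    ext v
    change y (P v) = P (y v)
    symm
    apply starProjection_comm L y (star y)
    · intro v w
      rw [ContinuousLinearMap.star_eq_adjoint, ContinuousLinearMap.adjoint_inner_left]
    · exact hinv y hy
    · exact hinv _ (star_mem_comm' M hy)
  have hQM : (1 - P) ∈ (M : Set (H →L[ℂ] H)) :=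
    sub_mem (S := VonNeumannAlgebra H) (H := M) (one_mem M) hPM
  have hQ0 : ∀ k, (1 - P) (ξ k) = 0 := by
    intro k
    have h1 : ξ k ∈ L := by
      apply L₀.le_topologicalClosure
      apply Submodule.subset_span
      exact ⟨1, Set.one_mem_centralizer, k, rfl⟩
    have h2 : P (ξ k) = ξ k := Submodule.starProjection_eq_self_iff.2 h1
    change ξ k - P (ξ k) = 0
    rw [h2, sub_self]
  have hQ : (1 - P) = 0 := by
    apply hξ.faithful _ hQM
    unfold vecFun
    have : ∀ k, inner ℂ (ξ k) ((star (1 - P) * (1 - P)) (ξ k)) = 0 := by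
      intro k
      have : (star (1 - P) * (1 - P)) (ξ k) = star (1 - P) ((1 - P) (ξ k)) := rfl
      rw [this, hQ0 k, map_zero, inner_zero_right]
    simp only [this, tsum_zero]
  rw [Submodule.eq_top_iff']
  intro v
  have h3 : P = 1 := (sub_eq_zero.1 hQ).symm
  rw [← Submodule.starProjection_eq_self_iff (K := L), ← hP, h3]
  rfl

/-- 2-norm convergence of a bounded sequence implies strong Cauchy-ness -/
theorem cauchySeq_apply (M : VonNeumannAlgebra H) {ξ : ℕ → H} (hξ : IsTracialState M ξ)
    {x : ℕ → H →L[ℂ] H} (hx : ∀ n, x n ∈ (M : Set (H →L[ℂ] H))) {r : ℝ} (hr : ∀ n, ‖x n‖ ≤ r)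
    (hc : CauchySeq fun n => vecMap ξ hξ.summable (x n)) (v : H) : CauchySeq fun n => x n v := by
  have hr0 : 0 ≤ r := (norm_nonneg _).trans (hr 0)
  -- on the total set
  have h1 : ∀ v ∈ Submodule.span ℂ {v : H | ∃ y ∈ comm' M, ∃ k, v = y (ξ k)},
      CauchySeq fun n => x n v := by
    intro v hv
    induction hv using Submodule.span_induction with
    | mem v hv =>
      obtain ⟨y, hy, k, rfl⟩ := hv
      have e : ∀ n, x n (y (ξ k)) = y (x n (ξ k)) := by
        intro n
        have := hy (x n) (hx n)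
        exact DFunLike.congr_fun this (ξ k)
      simp only [e]
      have h2 : CauchySeq fun n => x n (ξ k) := by
        rw [Metric.cauchySeq_iff'] at hc ⊢
        intro ε hε
        obtain ⟨N, hN⟩ := hc ε hε
        refine ⟨N, fun n hn => lt_of_le_of_lt ?_ (hN n hn)⟩
        rw [dist_eq_norm, dist_eq_norm, ← map_sub]
        have h3 := lp.norm_apply_le_norm (p := 2) (by simp) (vecMap ξ hξ.summable (x n - x N)) k
        simpa using h3
      exact h2.map y.uniformContinuous
    | zero => simpa using cauchySeq_const (0 : H)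
    | add v w _ _ hv hw =>
      have : CauchySeq fun n => x n v + x n w := hv.add hw
      simpa using this
    | smul c v _ hv =>
      have : CauchySeq fun n => (c • (1 : H →L[ℂ] H)) (x n v) :=
        hv.map (c • (1 : H →L[ℂ] H)).uniformContinuous
      simpa using this
  have hv : v ∈ (Submodule.span ℂ {v : H | ∃ y ∈ comm' M, ∃ k, v = y (ξ k)}).topologicalClosure := by
    rw [total_comm M hξ]; trivial
  rw [← SetLike.mem_coe, Submodule.topologicalClosure_coe, Metric.mem_closure_iff] at hv
  rw [Metric.cauchySeq_iff']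
  intro ε hε
  obtain ⟨w, hw, hvw⟩ := hv (ε / (4 * (r + 1))) (by positivity)
  have h2 := h1 w hw
  rw [Metric.cauchySeq_iff'] at h2
  obtain ⟨N, hN⟩ := h2 (ε / 2) (half_pos hε)
  refine ⟨N, fun n hn => ?_⟩
  have h3 := hN n hn
  rw [dist_eq_norm] at h3 hvw ⊢
  have e : x n v - x N v = x n (v - w) + (x n w - x N w) - x N (v - w) := by
    rw [map_sub, map_sub]; abel
  rw [e]
  have h4 : ∀ m, ‖x m (v - w)‖ ≤ ε / 4 := by
    intro m
    refine ((x m).le_opNorm _).trans ?_
    have h5 : ‖x m‖ * ‖v - w‖ ≤ r * (ε / (4 * (r + 1))) :=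
      mul_le_mul (hr m) hvw.le (norm_nonneg _) hr0
    refine h5.trans ?_
    rw [mul_div_assoc', div_le_iff₀ (by positivity)]
    nlinarith
  have h6 := norm_sub_le (x n (v - w) + (x n w - x N w)) (x N (v - w))
  have h7 := norm_add_le (x n (v - w)) (x n w - x N w)
  have h8 := h4 n
  have h9 := h4 N
  linarith

/-- completeness of the balls -/
theorem gns_complete (M : VonNeumannAlgebra H) {ξ : ℕ → H} (hξ : IsTracialState M ξ) (r : ℝ) :
    IsComplete ((gns M hξ).toLin '' {x | ‖x‖ ≤ r}) := by
  rw [← completeSpace_coe_iff_isComplete]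
  apply Metric.complete_of_cauchySeq_tendsto
  intro u hu
  have hch : ∀ n, ∃ x : M.toStarSubalgebra, ‖x‖ ≤ r ∧ (gns M hξ).toLin x = u n := by
    intro n
    obtain ⟨x, hx, hx2⟩ := (u n).2
    exact ⟨x, hx, hx2⟩
  choose x hxr hxu using hch
  have huc : CauchySeq fun n => ((u n : L2 H)) := hu.map uniformContinuous_subtype_val
  have huc' : CauchySeq fun n => vecMap ξ hξ.summable ((x n : H →L[ℂ] H)) := by
    simpa only [← hxu, gns_apply] using huc
  have hcau := cauchySeq_apply M hξ (x := fun n => (x n : H →L[ℂ] H)) (fun n => (x n).2)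
    (r := r) hxr huc'
  have hlim : ∀ v, ∃ w, Tendsto (fun n => (x n : H →L[ℂ] H) v) atTop (𝓝 w) := fun v =>
    cauchySeq_tendsto_of_complete (hcau v)
  choose f hf using hlim
  set y : H →L[ℂ] H := continuousLinearMapOfTendsto (l := atTop)
    (fun n => (x n : H →L[ℂ] H)) (f := f) (tendsto_pi_nhds.2 hf) with hy
  have hyf : ∀ v, y v = f v := fun v => rfl
  have hr0 : 0 ≤ r := (norm_nonneg _).trans (hxr 0)
  have hyr : ‖y‖ ≤ r := by
    refine ContinuousLinearMap.opNorm_le_bound _ hr0 fun v => ?_
    rw [hyf]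
    refine le_of_tendsto (hf v).norm (Eventually.of_forall fun n => ?_)
    refine ((x n : H →L[ℂ] H).le_opNorm v).trans ?_
    exact mul_le_mul_of_nonneg_right (hxr n) (norm_nonneg v)
  have hyM : y ∈ (M : Set (H →L[ℂ] H)) := by
    apply mem_of_commute
    intro z hz
    ext v
    change z (y v) = y (z v)
    rw [hyf, hyf]
    have h1 : Tendsto (fun n => z ((x n : H →L[ℂ] H) v)) atTop (𝓝 (z (f v))) :=
      (z.continuous.tendsto _).comp (hf v)
    have h2 : ∀ n, z ((x n : H →L[ℂ] H) v) = (x n : H →L[ℂ] H) (z v) := by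
      intro n
      have := hz (x n : H →L[ℂ] H) (x n).2
      exact (DFunLike.congr_fun this v).symm
    simp only [h2] at h1
    exact tendsto_nhds_unique h1 (hf (z v))
  refine ⟨⟨(gns M hξ).toLin ⟨y, hyM⟩, ⟨y, hyM⟩, hyr, rfl⟩, ?_⟩
  rw [tendsto_subtype_rng]
  change Tendsto (fun n => (u n : L2 H)) atTop (𝓝 (vecMap ξ hξ.summable y))
  obtain ⟨ζ, hζ⟩ := cauchySeq_tendsto_of_complete huc
  have hζy : ζ = vecMap ξ hξ.summable y := by
    apply lp.ext
    funext k
    have h1 : Tendsto (fun n => (u n : L2 H) k) atTop (𝓝 (ζ k)) := by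
      have := (lp.uniformContinuous_coe (p := 2) (E := fun _ : ℕ => H)).continuous.tendsto ζ
      have h2 := this.comp hζ
      rw [tendsto_pi_nhds] at h2
      exact h2 k
    have h2 : ∀ n, (u n : L2 H) k = (x n : H →L[ℂ] H) (ξ k) := by
      intro n
      rw [← hxu n]
      rfl
    simp only [h2] at h1
    exact tendsto_nhds_unique h1 (hf (ξ k))
  rwa [hζy] at hζ

/-- separability -/
theorem gns_separable [TopologicalSpace.SeparableSpace H] (M : VonNeumannAlgebra H) {ξ : ℕ → H}
    (hξ : IsTracialState M ξ) : TopologicalSpace.IsSeparable (Set.range (gns M hξ).toLin) := by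
  have h1 : TopologicalSpace.IsSeparable (Set.univ : Set (L2 H)) := by
    set T : Set (L2 H) := ⋃ k : ℕ, Set.range fun v : H => lp.single 2 k v with hT
    have hTs : TopologicalSpace.IsSeparable T := by
      apply TopologicalSpace.IsSeparable.iUnion
      intro k
      apply TopologicalSpace.isSeparable_range
      exact (lp.singleContinuousLinearMap ℂ (fun _ : ℕ => H) 2 k).continuous
    have h2 := (hTs.span (R := ℂ)).closure
    refine h2.mono fun f _ => ?_
    have h3 := lp.hasSum_single (p := 2) (by simp) f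
    refine mem_closure_of_tendsto h3 (Eventually.of_forall fun s => ?_)
    apply Submodule.sum_mem
    intro k _
    apply Submodule.subset_span
    exact Set.mem_iUnion.2 ⟨k, f k, rfl⟩
  exact h1.mono (Set.subset_univ _)

/-- density: a star subalgebra of `M` whose bicommutant contains `M` is 2-norm dense. -/
theorem dense_of_bicommutant (M : VonNeumannAlgebra H) {ξ : ℕ → H} (hξ : IsTracialState M ξ)
    (B : StarSubalgebra ℂ (H →L[ℂ] H))
    (hB : ∀ x ∈ (M : Set (H →L[ℂ] H)), ∀ y : H →L[ℂ] H, (∀ b ∈ B, b * y = y * b) → y * x = x * y)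
    {x : H →L[ℂ] H} (hx : x ∈ (M : Set (H →L[ℂ] H))) {ε : ℝ} (hε : 0 < ε) :
    ∃ b ∈ B, ‖vecMap ξ hξ.summable (x - b)‖ < ε := by
  set L₀ : Submodule ℂ (L2 H) := (B.toSubalgebra.toSubmodule).map (vecMap ξ hξ.summable) with hL₀
  set L := L₀.topologicalClosure with hL
  have hcomplete : CompleteSpace L := L₀.isClosed_topologicalClosure.completeSpace_coe
  set P := L.starProjection with hP
  have hinv : ∀ b ∈ B, ∀ f ∈ L, ampl b f ∈ L := by
    intro b hb f hf
    have h0 : L₀ ≤ L.comap (ampl b : L2 H →ₗ[ℂ] L2 H) := by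
      rintro _ ⟨a, ha, rfl⟩
      apply L₀.le_topologicalClosure
      have hab : b * a ∈ B := mul_mem hb ha
      refine ⟨b * a, hab, ?_⟩
      exact vecMap_mul ξ hξ.summable b a
    have hcl : IsClosed ((L.comap (ampl b : L2 H →ₗ[ℂ] L2 H) : Submodule ℂ (L2 H)) : Set (L2 H)) :=
      L₀.isClosed_topologicalClosure.preimage (ampl b).continuous
    exact L₀.topologicalClosure_minimal h0 hcl hf
  have hadj : ∀ b : H →L[ℂ] H, ∀ f g : L2 H, inner ℂ f (ampl b g) = inner ℂ (ampl (star b) f) g := by
    intro b f g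
    rw [lp.inner_eq_tsum, lp.inner_eq_tsum]
    refine tsum_congr fun k => ?_
    rw [ampl_apply, ampl_apply, ContinuousLinearMap.star_eq_adjoint,
      ContinuousLinearMap.adjoint_inner_left]
  have hPcomm : ∀ b ∈ B, ∀ f, P (ampl b f) = ampl b (P f) := by
    intro b hb f
    exact starProjection_comm L (ampl b) (ampl (star b)) (hadj b) (hinv b hb)
      (hinv _ (star_mem hb)) f
  -- matrix entries
  let E : ℕ → ℕ → (H →L[ℂ] H) := fun i j =>
    (lp.evalCLM ℂ (fun _ : ℕ => H) 2 i).comp
      (P.comp (lp.singleContinuousLinearMap ℂ (fun _ : ℕ => H) 2 j))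
  have hEapp : ∀ i j v, E i j v = P (lp.single 2 j v) i := fun i j v => rfl
  have hsingle : ∀ (b : H →L[ℂ] H) (j : ℕ) (v : H),
      ampl b (lp.single 2 j v) = lp.single 2 j (b v) := by
    intro b j v
    apply lp.ext
    funext k
    rw [ampl_apply]
    by_cases h : k = j
    · subst h
      rw [lp.single_apply_self, lp.single_apply_self]
    · rw [lp.single_apply_ne _ _ _ h, lp.single_apply_ne _ _ _ h, map_zero]
  have hEcomm : ∀ i j, ∀ b ∈ B, b * E i j = E i j * b := by
    intro i j b hb
    ext v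
    change b (E i j v) = E i j (b v)
    rw [hEapp, hEapp, ← hsingle, hPcomm b hb]
    rfl
  have hPx : ∀ f, P (ampl x f) = ampl x (P f) := by
    have : P.comp (ampl x) = (ampl x).comp P := by
      apply lp.ext_continuousLinearMap (by simp)
      intro j
      ext v i
      change P (ampl x (lp.single 2 j v)) i = x (P (lp.single 2 j v) i)
      rw [hsingle, ← hEapp, ← hEapp]
      exact DFunLike.congr_fun (hB x hx (E i j) (hEcomm i j)) v
    exact fun f => DFunLike.congr_fun this f
  have hvec : vec ξ hξ.summable ∈ L := by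
    apply L₀.le_topologicalClosure
    refine ⟨1, one_mem B, ?_⟩
    apply lp.ext
    funext k
    rfl
  have hxL : ampl x (vec ξ hξ.summable) ∈ L := by
    rw [← Submodule.starProjection_eq_self_iff (K := L), ← hP, hPx,
      Submodule.starProjection_eq_self_iff.2 hvec]
  rw [hL, ← SetLike.mem_coe, Submodule.topologicalClosure_coe, Metric.mem_closure_iff] at hxL
  obtain ⟨_, ⟨b, hb, rfl⟩, hb2⟩ := hxL ε hε
  refine ⟨b, hb, ?_⟩
  rw [map_sub, ← dist_eq_norm]
  exact hb2

end Pool.Agent.MPcb31e3
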