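import Pool.Agent.MPcb31e3.Masa

/-!
Topological generation of unitary groups, abstract part, IV: every unitary is a 2-norm limit of
exponentials of selfadjoint elements of norm at most `2π` (functions of the unitary).
-/

namespace Pool.Agent.MPcb31e3

open NormedSpace Filter Topology ComplexStarModule
open scoped Real

variable {A K : Type*} [CStarAlgebra A] [NormedAddCommGroup K] [InnerProductSpace ℂ K]

/-- bump function at `c` of radius `2δ` -/
noncomputable def bump (c : ℂ) (δ : ℝ) (w : ℂ) : ℂ :=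
  ((max 0 (min 1 (2 - ‖w - c‖ / δ)) : ℝ) : ℂ)

theorem continuous_bump (c : ℂ) (δ : ℝ) : Continuous (bump c δ) := by
  unfold bump
  fun_prop

theorem bump_eq_zero {c w : ℂ} {δ : ℝ} (hδ : 0 < δ) (h : 2 * δ ≤ ‖w - c‖) : bump c δ w = 0 := by
  unfold bump
  have h1 : 2 - ‖w - c‖ / δ ≤ 0 := by
    rw [sub_nonpos, le_div_iff₀ hδ]; exact h
  have h2 : max 0 (min 1 (2 - ‖w - c‖ / δ)) = 0 := by
    apply max_eq_left
    exact (min_le_right _ _).trans h1
  rw [h2]; simp

theorem bump_eq_one {c w : ℂ} {δ : ℝ} (hδ : 0 < δ) (h : ‖w - c‖ ≤ δ) : bump c δ w = 1 := by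
  unfold bump
  have h1 : 1 ≤ 2 - ‖w - c‖ / δ := by
    have : ‖w - c‖ / δ ≤ 1 := by rw [div_le_one hδ]; exact h
    linarith
  have h2 : max 0 (min 1 (2 - ‖w - c‖ / δ)) = 1 := by
    rw [min_eq_left h1]
    exact max_eq_right zero_le_one
  rw [h2]; simp

theorem norm_bump_le (c w : ℂ) (δ : ℝ) : ‖bump c δ w‖ ≤ 1 := by
  unfold bump
  rw [Complex.norm_real, Real.norm_eq_abs, abs_of_nonneg (le_max_left _ _)]
  exact max_le zero_le_one (min_le_left _ _)

theorem exists_separated_points (N : ℕ) : ∃ (T : Finset ℂ) (δ : ℝ), T.card = N ∧ 0 < δ ∧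
    (∀ c ∈ T, ‖c‖ = 1) ∧ (∀ c ∈ T, ∀ c' ∈ T, c ≠ c' → 4 * δ ≤ ‖c - c'‖) := by
  classical
  have hinj : Function.Injective (fun n : ℕ => ((Circle.exp (1 / ((n : ℝ) + 1)) : Circle) : ℂ)) := by
    intro m n hmn
    have hpi : (1 : ℝ) ≤ π := by linarith [Real.pi_gt_three]
    have h1 : ∀ k : ℕ, Complex.arg ((Circle.exp (1 / ((k : ℝ) + 1)) : Circle) : ℂ) =
        1 / ((k : ℝ) + 1) := by
      intro k
      have hk : 0 < 1 / ((k : ℝ) + 1) := by positivity
      have hk1 : 1 / ((k : ℝ) + 1) ≤ 1 := by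
        rw [div_le_one (by positivity)]
        have : (0:ℝ) ≤ k := Nat.cast_nonneg k
        linarith
      exact Circle.arg_exp (by linarith [Real.pi_pos]) (hk1.trans hpi)
    have h2 := congrArg Complex.arg hmn
    simp only [h1] at h2
    have h3 : ((m : ℝ) + 1) = ((n : ℝ) + 1) := by
      have := congrArg (fun x : ℝ => x⁻¹) h2
      simpa using this
    have h4 : (m : ℝ) = n := by linarith
    exact_mod_cast h4
  set T : Finset ℂ := (Finset.range N).map ⟨_, hinj⟩ with hT
  have hcard : T.card = N := by rw [hT, Finset.card_map, Finset.card_range]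
  obtain ⟨C, hC, hC2⟩ := Set.einfsep_pos.1 (T.finite_toSet.einfsep_pos)
  -- real separation
  obtain ⟨δ, hδ, hδC⟩ : ∃ δ : ℝ, 0 < δ ∧ ENNReal.ofReal (4 * δ) ≤ C := by
    rcases eq_or_ne C ⊤ with h | h
    · exact ⟨1, one_pos, by rw [h]; exact le_top⟩
    · refine ⟨C.toReal / 4, by have := ENNReal.toReal_pos hC.ne' h; positivity, ?_⟩
      have : 4 * (C.toReal / 4) = C.toReal := by ring
      rw [this, ENNReal.ofReal_toReal h]
  refine ⟨T, δ, hcard, hδ, ?_, ?_⟩
  · intro c hc
    rw [hT, Finset.mem_map] at hc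
    obtain ⟨n, -, rfl⟩ := hc
    exact Circle.norm_coe _
  · intro c hc c' hc' hne
    have h1 := hδC.trans (hC2 c (by exact_mod_cast hc) c' (by exact_mod_cast hc') hne)
    rw [edist_dist, dist_eq_norm] at h1
    exact (ENNReal.ofReal_le_ofReal_iff (norm_nonneg _)).1 h1

/-- pigeonhole: some bump function of `z` has small 2-norm -/
theorem exists_small_bump (Λ : GNSMap A K) {z : A} (hz : z ∈ unitary A) {ε : ℝ} (hε : 0 < ε) :
    ∃ (c : ℂ) (δ : ℝ), ‖c‖ = 1 ∧ 0 < δ ∧ n2 Λ (cfc (bump c δ) z) < ε := by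
  classical
  have hzn : IsStarNormal z := by
    rw [isStarNormal_iff]
    rw [Unitary.mem_iff] at hz
    exact hz.1.trans hz.2.symm
  obtain ⟨N, hN⟩ := exists_nat_gt ((n2 Λ 1) ^ 2 / ε ^ 2)
  obtain ⟨T, δ, hcard, hδ, hT1, hT2⟩ := exists_separated_points N
  by_contra hcon
  push Not at hcon
  have hbig : ∀ c ∈ T, ε ≤ n2 Λ (cfc (bump c δ) z) := fun c hc => hcon c δ (hT1 c hc) hδ
  have hdisj : ∀ c ∈ T, ∀ c' ∈ T, c ≠ c' → ∀ w, bump c δ w = 0 ∨ bump c' δ w = 0 := by
    intro c hc c' hc' hne w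
    by_contra h
    push Not at h
    have h1 : ‖w - c‖ < 2 * δ := by
      by_contra h1; exact h.1 (bump_eq_zero hδ (not_lt.1 h1))
    have h2 : ‖w - c'‖ < 2 * δ := by
      by_contra h2; exact h.2 (bump_eq_zero hδ (not_lt.1 h2))
    have h3 := hT2 c hc c' hc' hne
    have h4 : ‖c - c'‖ ≤ ‖w - c‖ + ‖w - c'‖ := by
      have : c - c' = (w - c') - (w - c) := by ring
      rw [this]
      refine (norm_sub_le _ _).trans ?_
      linarith
    linarith
  have hortho : ∀ c ∈ T, ∀ c' ∈ T, c ≠ c' →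
      inner ℂ (Λ.toLin (cfc (bump c δ) z)) (Λ.toLin (cfc (bump c' δ) z)) = 0 := by
    intro c hc c' hc' hne
    have h1 := Λ.inner_mul' (cfc (bump c δ) z) 1 (cfc (bump c' δ) z)
    rw [mul_one] at h1
    rw [h1]
    have h2 : star (cfc (bump c δ) z) * cfc (bump c' δ) z = 0 := by
      rw [← cfc_star, ← cfc_mul (fun x => star (bump c δ x)) _ z
        ((continuous_star.comp (continuous_bump c δ)).continuousOn)
        (continuous_bump c' δ).continuousOn]
      have : (fun x => star (bump c δ x) * bump c' δ x) = fun _ => (0 : ℂ) := by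
        funext w
        rcases hdisj c hc c' hc' hne w with h | h
        · rw [h]; simp
        · rw [h]; simp
      rw [this, cfc_const_zero]
    rw [h2, map_zero, inner_zero_right]
  set F : ℂ → ℂ := ∑ c ∈ T, bump c δ with hF
  have hsumcfc : cfc F z = ∑ c ∈ T, cfc (bump c δ) z := by
    rw [hF]
    exact cfc_sum (fun c => bump c δ) z T (fun c _ => (continuous_bump c δ).continuousOn)
  have hFnorm : ∀ w, ‖F w‖ ≤ 1 := by
    intro w
    rw [hF, Finset.sum_apply]
    by_cases h : ∀ c ∈ T, bump c δ w = 0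
    · rw [Finset.sum_eq_zero h]; simp
    · push Not at h
      obtain ⟨c, hc, hcw⟩ := h
      rw [Finset.sum_eq_single_of_mem c hc]
      · exact norm_bump_le _ _ _
      · intro c' hc' hne
        rcases hdisj c' hc' c hc hne w with h1 | h1
        · exact h1
        · exact absurd h1 hcw
  have hnormF : ‖cfc F z‖ ≤ 1 := norm_cfc_le zero_le_one fun w _ => hFnorm w
  have h1 : n2 Λ (cfc F z) ≤ n2 Λ 1 := by
    refine (n2_le Λ _).trans ?_
    nlinarith [n2_nonneg Λ (1 : A)]
  have h2 : (n2 Λ (cfc F z)) ^ 2 = ∑ c ∈ T, (n2 Λ (cfc (bump c δ) z)) ^ 2 := by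
    have e1 : ((n2 Λ (cfc F z) : ℝ) : ℂ) ^ 2 = ∑ c ∈ T, ((n2 Λ (cfc (bump c δ) z) : ℝ) : ℂ) ^ 2 := by
      have hsq : ∀ v : K, ((‖v‖ : ℝ) : ℂ) ^ 2 = inner ℂ v v := fun v =>
        (inner_self_eq_norm_sq_to_K (𝕜 := ℂ) v).symm
      unfold n2
      rw [hsumcfc, map_sum, hsq, sum_inner]
      refine Finset.sum_congr rfl fun c hc => ?_
      rw [inner_sum, Finset.sum_eq_single_of_mem c hc, hsq]
      intro c' hc' hne
      exact hortho c hc c' hc' hne.symm
    exact_mod_cast e1
  have h3 : (N : ℝ) * ε ^ 2 ≤ ∑ c ∈ T, (n2 Λ (cfc (bump c δ) z)) ^ 2 := by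
    rw [← hcard, ← nsmul_eq_mul]
    refine Finset.card_nsmul_le_sum T _ _ fun c hc => ?_
    exact pow_le_pow_left₀ hε.le (hbig c hc) 2
  rw [← h2] at h3
  have h4 : (n2 Λ (cfc F z)) ^ 2 ≤ (n2 Λ 1) ^ 2 := pow_le_pow_left₀ (n2_nonneg Λ _) h1 2
  rw [div_lt_iff₀ (by positivity)] at hN
  linarith

/-- the cut argument function: continuous on the circle, `exp (i g)` is the identity outside the
`δ`-neighbourhood of `c` -/
noncomputable def cutArg (c : ℂ) (δ : ℝ) (w : ℂ) : ℝ :=
  Complex.arg (-c) + min 1 (‖w - c‖ / δ) * Complex.arg (-(w / c))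

theorem abs_cutArg_le {c : ℂ} {δ : ℝ} (hδ : 0 < δ) (w : ℂ) : |cutArg c δ w| ≤ 2 * π := by
  unfold cutArg
  have h1 : |min 1 (‖w - c‖ / δ)| ≤ 1 := by
    rw [abs_of_nonneg (le_min zero_le_one (by positivity))]
    exact min_le_left _ _
  refine (abs_add_le _ _).trans ?_
  rw [abs_mul]
  have h2 := Complex.abs_arg_le_pi (-c)
  have h3 := Complex.abs_arg_le_pi (-(w / c))
  have h4 : |min 1 (‖w - c‖ / δ)| * |Complex.arg (-(w / c))| ≤ 1 * π :=
    mul_le_mul h1 h3 (abs_nonneg _) zero_le_one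
  linarith

theorem continuousOn_cutArg {c : ℂ} (hc : ‖c‖ = 1) {δ : ℝ} (hδ : 0 < δ) :
    ContinuousOn (cutArg c δ) (Metric.sphere (0 : ℂ) 1) := by
  have hc0 : c ≠ 0 := by
    intro h; rw [h, norm_zero] at hc; exact zero_ne_one hc
  intro w hw
  rw [mem_sphere_zero_iff_norm] at hw
  apply ContinuousAt.continuousWithinAt
  unfold cutArg
  apply ContinuousAt.add continuousAt_const
  by_cases hwc : w = c
  · subst hwc
    -- squeeze
    have h0 : min 1 (‖w - w‖ / δ) * Complex.arg (-(w / w)) = 0 := by simp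
    rw [ContinuousAt, h0]
    apply squeeze_zero_norm (a := fun x => ‖x - w‖ / δ * π)
    · intro x
      rw [norm_mul]
      refine mul_le_mul ?_ (Complex.abs_arg_le_pi _) (norm_nonneg _) (by positivity)
      rw [Real.norm_eq_abs, abs_of_nonneg (le_min zero_le_one (by positivity))]
      exact min_le_right _ _
    · have : Tendsto (fun x => ‖x - w‖ / δ * π) (𝓝 w) (𝓝 (‖w - w‖ / δ * π)) :=
        Continuous.tendsto (by fun_prop) w
      simpa using this
  · apply ContinuousAt.mul (Continuous.continuousAt (by fun_prop))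
    have hslit : -(w / c) ∈ Complex.slitPlane := by
      rw [Complex.mem_slitPlane_iff]
      by_contra hcon
      push Not at hcon
      obtain ⟨h1, h2⟩ := hcon
      -- then `w / c` is a nonnegative real of norm 1
      have h3 : ‖w / c‖ = 1 := by rw [norm_div, hw, hc, div_one]
      have him : (w / c).im = 0 := by
        have := h2; rwa [Complex.neg_im, neg_eq_zero] at this
      have hre : 0 ≤ (w / c).re := by
        rw [Complex.neg_re] at h1; linarith
      have h4 : w / c = ((w / c).re : ℂ) := Complex.ext (by simp) (by simp [him])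
      have h5 : (w / c).re = 1 := by
        rw [h4, Complex.norm_real, Real.norm_eq_abs, abs_of_nonneg hre] at h3
        exact h3
      rw [h5] at h4
      apply hwc
      field_simp at h4
      simpa using h4
    have hcont : ContinuousAt (fun x : ℂ => -(x / c)) w := by fun_prop
    exact ContinuousAt.comp (f := fun x : ℂ => -(x / c)) (g := Complex.arg)
      (Complex.continuousAt_arg hslit) hcont

theorem exp_cutArg {c w : ℂ} (hc : ‖c‖ = 1) (hw : ‖w‖ = 1) {δ : ℝ} (hδ : 0 < δ)
    (h : δ ≤ ‖w - c‖) : Complex.exp (Complex.I * cutArg c δ w) = w := by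
  have hc0 : c ≠ 0 := by
    intro h; rw [h, norm_zero] at hc; exact zero_ne_one hc
  have h1 : min 1 (‖w - c‖ / δ) = 1 := by
    apply min_eq_left
    rwa [one_le_div hδ]
  unfold cutArg
  rw [h1, one_mul]
  push_cast
  rw [mul_add, Complex.exp_add, mul_comm Complex.I, mul_comm Complex.I]
  have e1 := Complex.norm_mul_exp_arg_mul_I (-c)
  have e2 := Complex.norm_mul_exp_arg_mul_I (-(w / c))
  rw [norm_neg, hc, Complex.ofReal_one, one_mul] at e1
  rw [norm_neg, norm_div, hc, hw, div_one, Complex.ofReal_one, one_mul] at e2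
  rw [e1, e2]
  field_simp

/-- every unitary is a 2-norm limit of exponentials of bounded selfadjoint elements, which are
functions of the unitary -/
theorem exists_exp_approx (Λ : GNSMap A K) {z : A} (hz : z ∈ unitary A) {ε : ℝ} (hε : 0 < ε) :
    ∃ θ : selfAdjoint A, ‖(θ : A)‖ ≤ 2 * π ∧ n2 Λ (z - exp (Complex.I • (θ : A))) < ε ∧
      ∀ b, Commute z b → Commute (star z) b → Commute (θ : A) b := by
  have hzn : IsStarNormal z := by
    rw [isStarNormal_iff]
    rw [Unitary.mem_iff] at hz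
    exact hz.1.trans hz.2.symm
  obtain ⟨c, δ, hc, hδ, hsmall⟩ := exists_small_bump Λ hz (half_pos hε)
  have hsp : ∀ w ∈ spectrum ℂ z, ‖w‖ = 1 := fun w hw => spectrum.norm_eq_one_of_unitary hz hw
  have hsub : spectrum ℂ z ⊆ Metric.sphere (0 : ℂ) 1 := fun w hw => by
    rw [mem_sphere_zero_iff_norm]; exact hsp w hw
  have hcont : ContinuousOn (fun w => (cutArg c δ w : ℂ)) (spectrum ℂ z) :=
    Complex.continuous_ofReal.comp_continuousOn ((continuousOn_cutArg hc hδ).mono hsub)
  set θ : A := cfc (fun w => (cutArg c δ w : ℂ)) z with hθ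
  have hθsa : IsSelfAdjoint θ := by
    rw [isSelfAdjoint_iff, hθ, ← cfc_star]
    congr 1
    funext w
    exact Complex.conj_ofReal _
  have hexp : exp (Complex.I • θ) = cfc (fun w => Complex.exp (Complex.I * cutArg c δ w)) z := by
    rw [hθ, ← cfc_smul (R := ℂ) (S := ℂ) Complex.I (fun w => (cutArg c δ w : ℂ)) z hcont]
    rw [← CFC.exp_eq_normedSpace_exp (𝕜 := ℂ)]
    rw [← cfc_comp' (fun w => exp w) (fun w => Complex.I • (cutArg c δ w : ℂ)) z]
    simp only [smul_eq_mul, ← Complex.exp_eq_exp_ℂ]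
  refine ⟨⟨θ, hθsa⟩, ?_, ?_, ?_⟩
  · refine norm_cfc_le (by positivity) fun w _ => ?_
    rw [Complex.norm_real, Real.norm_eq_abs]
    exact abs_cutArg_le hδ w
  · have hcont2 : ContinuousOn (fun w => Complex.exp (Complex.I * cutArg c δ w)) (spectrum ℂ z) :=
      Complex.continuous_exp.comp_continuousOn (continuousOn_const.mul hcont)
    have e1 : z - exp (Complex.I • θ) =
        cfc (fun w => w - Complex.exp (Complex.I * cutArg c δ w)) z := by
      rw [hexp]
      rw [cfc_sub (fun w => w) _ z continuousOn_id hcont2, cfc_id' ℂ z]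
    have e2 : cfc (fun w => w - Complex.exp (Complex.I * cutArg c δ w)) z =
        cfc (fun w => w - Complex.exp (Complex.I * cutArg c δ w)) z * cfc (bump c δ) z := by
      rw [← cfc_mul (fun w => w - Complex.exp (Complex.I * cutArg c δ w)) _ z
        (continuousOn_id.sub hcont2) (continuous_bump c δ).continuousOn]
      refine cfc_congr fun w hw => ?_
      rcases le_total δ ‖w - c‖ with h | h
      · rw [exp_cutArg hc (hsp w hw) hδ h]; simp
      · rw [bump_eq_one hδ h, mul_one]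
    simp only
    rw [e1, e2]
    refine (n2_mul_left Λ _ _).trans_lt ?_
    have h1 : ‖cfc (fun w => w - Complex.exp (Complex.I * cutArg c δ w)) z‖ ≤ 2 := by
      refine norm_cfc_le zero_le_two fun w hw => ?_
      refine (norm_sub_le _ _).trans ?_
      rw [hsp w hw, mul_comm Complex.I, Complex.norm_exp_ofReal_mul_I]
      norm_num
    have h2 := n2_nonneg Λ (cfc (bump c δ) z)
    nlinarith
  · intro b hb1 hb2
    exact Commute.cfc hb1 hb2 _

end Pool.Agent.MPcb31e3
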