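import Pool.Agent.MPcb31e3.GroupVN

/-!
A two-generated ICC group: the group of permutations of `ℤ` generated by the shift and the
transposition `(0 1)`; and generation by abelian subsets.
-/

namespace Pool.Agent.MPcb31e3

open scoped Cardinal

/-- the shift of `ℤ` -/
def sh : Equiv.Perm ℤ := Equiv.addRight 1

theorem sh_apply (n : ℤ) : sh n = n + 1 := rfl

/-- the group generated by the shift and `(0 1)` -/
def Gam : Subgroup (Equiv.Perm ℤ) := Subgroup.closure {sh, Equiv.swap 0 1}

theorem sh_mem : sh ∈ Gam := Subgroup.subset_closure (Or.inl rfl)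

theorem swap_succ_mem (k : ℤ) : Equiv.swap k (k + 1) ∈ Gam := by
  induction k using Int.induction_on with
  | zero => exact Subgroup.subset_closure (Or.inr rfl)
  | succ i hi =>
    have h := Equiv.swap_apply_apply sh (i : ℤ) (i + 1)
    rw [sh_apply, sh_apply] at h
    rw [h]
    exact mul_mem (mul_mem sh_mem hi) (inv_mem sh_mem)
  | pred i hi =>
    have h := Equiv.swap_apply_apply sh⁻¹ (-(i : ℤ)) (-(i : ℤ) + 1)
    have h1 : ∀ n : ℤ, sh⁻¹ n = n - 1 := fun n => by
      rw [Equiv.Perm.inv_eq_iff_eq, sh_apply]; ring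
    rw [h1, h1] at h
    have h2 : (-(i : ℤ) - 1 + 1) = -(i : ℤ) + 1 - 1 := by ring
    rw [h2, h]
    exact mul_mem (mul_mem (inv_mem sh_mem) hi) (inv_mem (inv_mem sh_mem))

theorem swap_mem_aux (m : ℤ) (d : ℕ) : Equiv.swap m (m + d + 1) ∈ Gam := by
  induction d with
  | zero => simpa using swap_succ_mem m
  | succ d ih =>
    have h := Equiv.swap_apply_apply (Equiv.swap (m + d + 1) (m + d + 1 + 1)) m (m + d + 1)
    have h1 : Equiv.swap (m + d + 1) (m + d + 1 + 1) m = m :=
      Equiv.swap_apply_of_ne_of_ne (by omega) (by omega)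
    rw [h1, Equiv.swap_apply_left] at h
    have h2 : m + ((d + 1 : ℕ) : ℤ) + 1 = m + d + 1 + 1 := by push_cast; ring
    rw [h2, h]
    exact mul_mem (mul_mem (swap_succ_mem _) ih) (inv_mem (swap_succ_mem _))

theorem swap_mem (m n : ℤ) : Equiv.swap m n ∈ Gam := by
  rcases lt_trichotomy m n with h | h | h
  · have := swap_mem_aux m (n - m - 1).toNat
    have e : m + ((n - m - 1).toNat : ℤ) + 1 = n := by omega
    rwa [e] at this
  · rw [h, Equiv.swap_self]; exact one_mem _
  · have := swap_mem_aux n (m - n - 1).toNat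
    have e : n + ((m - n - 1).toNat : ℤ) + 1 = m := by omega
    rw [e] at this
    rwa [Equiv.swap_comm]

theorem icc_Gam : ICC Gam := by
  intro g hg
  -- `g` moves some integer
  obtain ⟨n, hn⟩ : ∃ n : ℤ, (g : Equiv.Perm ℤ) n ≠ n := by
    by_contra hcon
    push Not at hcon
    apply hg
    apply Subtype.ext
    ext n
    exact hcon n
  set m := (g : Equiv.Perm ℤ) n with hm
  set F : ℤ → Gam := fun j => ⟨Equiv.swap n j, swap_mem n j⟩ * g * ⟨Equiv.swap n j, swap_mem n j⟩⁻¹
    with hF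
  have hinf : ({n, m}ᶜ : Set ℤ).Infinite := (Set.toFinite {n, m}).infinite_compl
  have hval : ∀ j ∈ ({n, m}ᶜ : Set ℤ), ((F j : Gam) : Equiv.Perm ℤ) j = m := by
    intro j hj
    simp only [Set.mem_compl_iff, Set.mem_insert_iff, Set.mem_singleton_iff, not_or] at hj
    change (Equiv.swap n j) ((g : Equiv.Perm ℤ) ((Equiv.swap n j)⁻¹ j)) = m
    rw [Equiv.swap_inv, Equiv.swap_apply_right, ← hm]
    exact Equiv.swap_apply_of_ne_of_ne hn (Ne.symm hj.2)
  have hinj : Set.InjOn F ({n, m}ᶜ : Set ℤ) := by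
    intro j hj k hk hjk
    have h1 := hval j hj
    have h2 := hval k hk
    rw [← hjk] at h2
    exact ((F j : Gam) : Equiv.Perm ℤ).injective (h1.trans h2.symm)
  refine (hinf.image hinj).mono ?_
  rintro _ ⟨j, -, rfl⟩
  exact ⟨⟨Equiv.swap n j, swap_mem n j⟩, rfl⟩

instance : Nontrivial Gam := by
  refine ⟨⟨1, ⟨sh, sh_mem⟩, ?_⟩⟩
  intro h
  have h1 := congrArg (fun x : Gam => (x : Equiv.Perm ℤ) 0) h
  simp [sh_apply] at h1

theorem closure_Gam : Subgroup.closure
    ({⟨sh, sh_mem⟩, ⟨Equiv.swap 0 1, swap_mem 0 1⟩} : Set Gam) = ⊤ := by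
  have h := Subgroup.closure_closure_coe_preimage (k := ({sh, Equiv.swap 0 1} : Set (Equiv.Perm ℤ)))
  refine Eq.trans ?_ h
  congr 1
  ext x
  simp only [Set.mem_insert_iff, Set.mem_singleton_iff, Set.mem_preimage]
  constructor
  · rintro (rfl | rfl)
    · left; rfl
    · right; rfl
  · rintro (h1 | h1)
    · left; exact Subtype.ext h1
    · right; exact Subtype.ext h1

theorem topRank_example : topRank (groupVN Gam) = 2 := topRank_groupVN icc_Gam closure_Gam

end Pool.Agent.MPcb31e3
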