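import Pool.Agent.MPcb31e3.Concrete2

/-!
Topological generation of unitary groups: assembly.
-/

namespace Pool.Agent.MPcb31e3

open NormedSpace Filter Topology ComplexStarModule
open scoped Real ENNReal Cardinal

variable {H : Type*} [NormedAddCommGroup H] [InnerProductSpace ℂ H] [CompleteSpace H]

/-- 2-norm convergence to zero of a bounded sequence of elements of `M` implies strong convergence
to zero -/
theorem tendsto_apply_zero (M : VonNeumannAlgebra H) {ξ : ℕ → H} (hξ : IsTracialState M ξ)
    {x : ℕ → H →L[ℂ] H} (hx : ∀ n, x n ∈ (M : Set (H →L[ℂ] H))) {r : ℝ} (hr : ∀ n, ‖x n‖ ≤ r)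
    (hc : Tendsto (fun n => vecMap ξ hξ.summable (x n)) atTop (𝓝 0)) (v : H) :
    Tendsto (fun n => x n v) atTop (𝓝 0) := by
  have hr0 : 0 ≤ r := (norm_nonneg _).trans (hr 0)
  have h1 : ∀ v ∈ Submodule.span ℂ {v : H | ∃ y ∈ comm' M, ∃ k, v = y (ξ k)},
      Tendsto (fun n => x n v) atTop (𝓝 0) := by
    intro v hv
    induction hv using Submodule.span_induction with
    | mem v hv =>
      obtain ⟨y, hy, k, rfl⟩ := hv
      have e : ∀ n, x n (y (ξ k)) = y (x n (ξ k)) := by
        intro n
        have := hy (x n) (hx n)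
        exact DFunLike.congr_fun this (ξ k)
      simp only [e]
      have h2 : Tendsto (fun n => x n (ξ k)) atTop (𝓝 0) := by
        rw [tendsto_zero_iff_norm_tendsto_zero] at hc ⊢
        refine squeeze_zero (fun _ => norm_nonneg _) (fun n => ?_) hc
        have h3 := lp.norm_apply_le_norm (p := 2) (by simp) (vecMap ξ hξ.summable (x n)) k
        simpa using h3
      have h3 := (y.continuous.tendsto 0).comp h2
      rwa [map_zero] at h3
    | zero => simp
    | add v w _ _ hv hw =>
      have := hv.add hw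
      simpa using this
    | smul c v _ hv =>
      have := hv.const_smul c
      simpa using this
  have hv : v ∈ (Submodule.span ℂ {v : H | ∃ y ∈ comm' M, ∃ k, v = y (ξ k)}).topologicalClosure := by
    rw [total_comm M hξ]; trivial
  rw [← SetLike.mem_coe, Submodule.topologicalClosure_coe, Metric.mem_closure_iff] at hv
  rw [Metric.tendsto_atTop]
  intro ε hε
  obtain ⟨w, hw, hvw⟩ := hv (ε / (2 * (r + 1))) (by positivity)
  have h2 := h1 w hw
  rw [Metric.tendsto_atTop] at h2
  obtain ⟨N, hN⟩ := h2 (ε / 2) (half_pos hε)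
  refine ⟨N, fun n hn => ?_⟩
  have h3 := hN n hn
  rw [dist_zero_right] at h3 ⊢
  rw [dist_eq_norm] at hvw
  have e : x n v = x n (v - w) + x n w := by rw [map_sub]; abel
  rw [e]
  have h4 : ‖x n (v - w)‖ ≤ ε / 2 := by
    refine ((x n).le_opNorm _).trans ?_
    have h5 : ‖x n‖ * ‖v - w‖ ≤ r * (ε / (2 * (r + 1))) :=
      mul_le_mul (hr n) hvw.le (norm_nonneg _) hr0
    refine h5.trans ?_
    rw [mul_div_assoc', div_le_iff₀ (by positivity)]
    nlinarith
  have h6 := norm_add_le (x n (v - w)) (x n w)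
  linarith

/-- the inclusion `U(M) → U(B(H))` -/
noncomputable def phi (M : VonNeumannAlgebra H) :
    unitary M.toStarSubalgebra →* unitary (H →L[ℂ] H) where
  toFun u := ⟨((u : M.toStarSubalgebra) : H →L[ℂ] H), by
    have h := Unitary.mem_iff.1 u.2
    rw [Unitary.mem_iff]
    exact ⟨congrArg Subtype.val h.1, congrArg Subtype.val h.2⟩⟩
  map_one' := rfl
  map_mul' _ _ := rfl

theorem phi_coe (M : VonNeumannAlgebra H) (u : unitary M.toStarSubalgebra) :
    (phi M u : H →L[ℂ] H) = ((u : M.toStarSubalgebra) : H →L[ℂ] H) := rfl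

theorem phi_mem (M : VonNeumannAlgebra H) (u : unitary M.toStarSubalgebra) : phi M u ∈ UM M :=
  (u : M.toStarSubalgebra).2

theorem exists_phi (M : VonNeumannAlgebra H) {w : unitary (H →L[ℂ] H)} (hw : w ∈ UM M) :
    ∃ u, phi M u = w := by
  refine ⟨⟨⟨(w : H →L[ℂ] H), hw⟩, ?_⟩, ?_⟩
  · have h := Unitary.mem_iff.1 w.2
    rw [Unitary.mem_iff]
    exact ⟨Subtype.ext h.1, Subtype.ext h.2⟩
  · rfl

/-- strong approximation from 2-norm approximation -/
theorem strong_of_two (M : VonNeumannAlgebra H) {ξ : ℕ → H} (hξ : IsTracialState M ξ)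
    (T : Set (unitary M.toStarSubalgebra)) (u : unitary M.toStarSubalgebra)
    (hd : ∀ ε : ℝ, 0 < ε → ∃ g ∈ T, n2 (gns M hξ) ((u : M.toStarSubalgebra) - g) < ε)
    (F : Finset H) (ε : ℝ) (hε : 0 < ε) :
    ∃ g ∈ phi M '' T, ∀ η ∈ F, ‖(phi M u : H →L[ℂ] H) η - (g : H →L[ℂ] H) η‖ < ε := by
  have hch : ∀ n : ℕ, ∃ g ∈ T, n2 (gns M hξ) ((u : M.toStarSubalgebra) - g) < 1 / ((n : ℝ) + 1) :=
    fun n => hd _ (by positivity)
  choose g hgT hg using hch
  set x : ℕ → H →L[ℂ] H := fun n =>
    ((u : M.toStarSubalgebra) : H →L[ℂ] H) - ((g n : M.toStarSubalgebra) : H →L[ℂ] H) with hx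
  have hxM : ∀ n, x n ∈ (M : Set (H →L[ℂ] H)) := fun n =>
    sub_mem (S := VonNeumannAlgebra H) (H := M) (u : M.toStarSubalgebra).2
      (g n : M.toStarSubalgebra).2
  have hxr : ∀ n, ‖x n‖ ≤ 2 := by
    intro n
    refine (norm_sub_le _ _).trans ?_
    have h1 := norm_unitary_le _ (phi M u).2
    have h2 := norm_unitary_le _ (phi M (g n)).2
    rw [phi_coe] at h1 h2
    linarith
  have hx0 : Tendsto (fun n => vecMap ξ hξ.summable (x n)) atTop (𝓝 0) := by
    rw [tendsto_zero_iff_norm_tendsto_zero]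
    refine squeeze_zero (fun _ => norm_nonneg _) (fun n => (hg n).le) ?_
    exact tendsto_one_div_add_atTop_nhds_zero_nat
  have hlim := tendsto_apply_zero M hξ hxM hxr hx0
  have hev : ∀ᶠ n in atTop, ∀ η ∈ F, ‖x n η‖ < ε := by
    rw [Filter.eventually_all_finset]
    intro η _
    have h1 := (hlim η).norm
    rw [norm_zero] at h1
    exact h1.eventually (gt_mem_nhds hε)
  obtain ⟨n, hn⟩ := hev.exists
  refine ⟨phi M (g n), ⟨g n, hgT n, rfl⟩, fun η hη => ?_⟩
  exact hn η hη

/-- strong density from 2-norm density -/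
theorem stronglyDense_of_two (M : VonNeumannAlgebra H) {ξ : ℕ → H} (hξ : IsTracialState M ξ)
    (T : Set (unitary M.toStarSubalgebra))
    (hd : ∀ u : unitary M.toStarSubalgebra, ∀ ε : ℝ, 0 < ε → ∃ g ∈ T,
      n2 (gns M hξ) ((u : M.toStarSubalgebra) - g) < ε) :
    StronglyDense (phi M '' T) (UM M) := by
  intro w hw F ε hε
  obtain ⟨u, rfl⟩ := exists_phi M hw
  exact strong_of_two M hξ T u (hd u) F ε hε

/-- strong limits of unitaries of a von Neumann algebra `N` stay in `N` -/
theorem mem_of_strong (N : VonNeumannAlgebra H) {G : Set (unitary (H →L[ℂ] H))}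
    (hG : G ⊆ UM N) {u : unitary (H →L[ℂ] H)}
    (hu : ∀ F : Finset H, ∀ ε : ℝ, 0 < ε → ∃ g ∈ G, ∀ η ∈ F,
      ‖(u : H →L[ℂ] H) η - (g : H →L[ℂ] H) η‖ < ε) : u ∈ UM N := by
  classical
  apply mem_of_commute
  intro y hy
  ext v
  change y ((u : H →L[ℂ] H) v) = (u : H →L[ℂ] H) (y v)
  rw [← sub_eq_zero, ← norm_le_zero_iff]
  apply le_of_forall_pos_le_add
  intro ε hε
  rw [zero_add]
  obtain ⟨g, hg, hgF⟩ := hu {v, y v} (ε / (‖y‖ + 1)) (by positivity)
  have h1 := hgF v (by simp)
  have h2 := hgF (y v) (by simp)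
  have hgy : y ((g : H →L[ℂ] H) v) = (g : H →L[ℂ] H) (y v) := by
    have := hy (g : H →L[ℂ] H) (hG hg)
    exact (DFunLike.congr_fun this v).symm
  have e : y ((u : H →L[ℂ] H) v) - (u : H →L[ℂ] H) (y v) =
      y ((u : H →L[ℂ] H) v - (g : H →L[ℂ] H) v) -
      ((u : H →L[ℂ] H) (y v) - (g : H →L[ℂ] H) (y v)) := by
    rw [map_sub, hgy]; abel
  rw [e]
  refine (norm_sub_le _ _).trans ?_
  have h3 := y.le_opNorm ((u : H →L[ℂ] H) v - (g : H →L[ℂ] H) v)
  have h4 : ‖y‖ * ‖(u : H →L[ℂ] H) v - (g : H →L[ℂ] H) v‖ ≤ ‖y‖ * (ε / (‖y‖ + 1)) :=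
    mul_le_mul_of_nonneg_left h1.le (norm_nonneg _)
  have h5 : ‖y‖ * (ε / (‖y‖ + 1)) + ε / (‖y‖ + 1) = ε := by
    field_simp
  linarith

/-- if `N` contains all unitaries of `M` then it contains `M` -/
theorem subset_of_unitaries (M N : VonNeumannAlgebra H) (h : UM M ⊆ UM N) :
    (M : Set (H →L[ℂ] H)) ⊆ (N : Set (H →L[ℂ] H)) := by
  intro x hx
  obtain ⟨u, c, hxu, -⟩ := CStarAlgebra.exists_sum_four_unitary
    (⟨x, hx⟩ : M.toStarSubalgebra)
  have h1 : x = ∑ i, c i • ((u i : M.toStarSubalgebra) : H →L[ℂ] H) := by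
    have := congrArg Subtype.val hxu
    rw [AddSubmonoidClass.coe_finsetSum] at this
    exact this
  rw [h1]
  have h2 : ∀ i, ((u i : M.toStarSubalgebra) : H →L[ℂ] H) ∈ N.toStarSubalgebra := fun i =>
    h (phi_mem M (u i))
  have h3 : ∑ i, c i • ((u i : M.toStarSubalgebra) : H →L[ℂ] H) ∈ N.toStarSubalgebra :=
    sum_mem fun i _ => N.toStarSubalgebra.smul_mem (h2 i) (c i)
  exact h3

theorem closure_subset_UM (N : VonNeumannAlgebra H) {S : Set (unitary (H →L[ℂ] H))}
    (hS : S ⊆ UM N) : (Subgroup.closure S : Set (unitary (H →L[ℂ] H))) ⊆ UM N := by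
  let G : Subgroup (unitary (H →L[ℂ] H)) :=
    { carrier := UM N
      mul_mem' := fun {a b} ha hb => mul_mem (S := VonNeumannAlgebra H) (s := N) ha hb
      one_mem' := one_mem (S := VonNeumannAlgebra H) (s := N)
      inv_mem' := fun {a} ha => star_mem (S := VonNeumannAlgebra H) (s := N) ha }
  exact (Subgroup.closure_le G).2 hS

/-- a topologically generating set generates the von Neumann algebra -/
theorem generates_of_topGenerates (M : VonNeumannAlgebra H) {S : Set (unitary (H →L[ℂ] H))}
    (hS : TopGenerates M S) :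
    Generates M ((fun u : unitary (H →L[ℂ] H) => (u : H →L[ℂ] H)) '' S) := by
  refine ⟨?_, ?_⟩
  · rintro _ ⟨u, hu, rfl⟩
    exact hS.1 hu
  · intro N hN
    have h1 : S ⊆ UM N := fun u hu => hN ⟨u, hu, rfl⟩
    apply subset_of_unitaries
    intro u hu
    exact mem_of_strong N (closure_subset_UM N h1) (fun F ε hε => hS.2 u hu F ε hε)

theorem mem_exp (N : VonNeumannAlgebra H) {x : H →L[ℂ] H} (hx : x ∈ (N : Set (H →L[ℂ] H))) :
    exp x ∈ (N : Set (H →L[ℂ] H)) := by
  apply mem_of_commute
  intro y hy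
  have h : Commute y x := (hy x hx).symm
  exact h.exp_right

theorem coe_exp (M : VonNeumannAlgebra H) (x : M.toStarSubalgebra) :
    ((exp x : M.toStarSubalgebra) : H →L[ℂ] H) = exp (x : H →L[ℂ] H) := by
  let +nondep : NormedAlgebra ℚ M.toStarSubalgebra := .restrictScalars ℚ ℂ M.toStarSubalgebra
  let +nondep : NormedAlgebra ℚ (H →L[ℂ] H) := .restrictScalars ℚ ℂ (H →L[ℂ] H)
  exact map_exp M.toStarSubalgebra.subtype continuous_subtype_val x

/-- the commutant of `Y ∪ Y*` as a von Neumann algebra -/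
noncomputable def vnCent (Y : Set (H →L[ℂ] H)) : VonNeumannAlgebra H :=
  { StarSubalgebra.centralizer ℂ Y with
    centralizer_centralizer' := Set.centralizer_centralizer_centralizer _ }

theorem mem_vnCent {Y : Set (H →L[ℂ] H)} {x : H →L[ℂ] H} :
    x ∈ (vnCent Y : Set (H →L[ℂ] H)) ↔ ∀ g ∈ Y, g * x = x * g ∧ star g * x = x * star g :=
  StarSubalgebra.mem_centralizer_iff ℂ

/-- **Core theorem.** Masas of `M` which together generate `M` yield, one per masa, selfadjoint
contractions `h i` with `exp (i h i)` topologically generating `U(M)`, and `h i` generates the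
masa. -/
theorem core [TopologicalSpace.SeparableSpace H] (M : VonNeumannAlgebra H) {ξ : ℕ → H}
    (hξ : IsTracialState M ξ) {ι : Type*} [Nonempty ι] {S : ι → Set M.toStarSubalgebra}
    (hS : ∀ i, IsMasa (S i))
    (hgen : ∀ N : VonNeumannAlgebra H, (∀ i, ∀ a ∈ S i, (a : H →L[ℂ] H) ∈ (N : Set (H →L[ℂ] H))) →
      (M : Set (H →L[ℂ] H)) ⊆ (N : Set (H →L[ℂ] H))) :
    ∃ h : ι → selfAdjoint M.toStarSubalgebra,
      TopGenerates M (Set.range fun i => phi M (selfAdjoint.expUnitary (h i))) := by
  have hmono := fun i => exists_monothetic (gns M hξ) (gns_inj M hξ) (gns_complete M hξ)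
    (gns_separable M hξ) (hS i)
  choose h hh hpow using hmono
  set k : ι → selfAdjoint M.toStarSubalgebra := fun i => ⟨h i, (hh i).1⟩ with hk
  refine ⟨k, ?_, ?_⟩
  · rintro _ ⟨i, rfl⟩
    exact phi_mem M _
  · -- the star subalgebra generated by the masas
    let B₀ : StarSubalgebra ℂ M.toStarSubalgebra :=
      { Algebra.adjoin ℂ (⋃ i, S i) with
        star_mem' := by
          intro a ha
          change star a ∈ Algebra.adjoin ℂ (⋃ i, S i)
          have ha' : a ∈ Algebra.adjoin ℂ (⋃ i, S i) := ha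
          induction ha' using Algebra.adjoin_induction with
          | mem x hx =>
            obtain ⟨i, hi⟩ := Set.mem_iUnion.1 hx
            exact Algebra.subset_adjoin (Set.mem_iUnion.2 ⟨i, (hS i).star_mem x hi⟩)
          | algebraMap r =>
            rw [← algebraMap_star_comm]
            exact Subalgebra.algebraMap_mem _ _
          | add x y hx hy ihx ihy =>
            rw [star_add]
            exact add_mem (ihx hx) (ihy hy)
          | mul x y hx hy ihx ihy =>
            rw [star_mul]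
            exact mul_mem (ihy hy) (ihx hx) }
    let B : StarSubalgebra ℂ (H →L[ℂ] H) := B₀.map M.toStarSubalgebra.subtype
    have hmemB : ∀ i, ∀ a ∈ S i, (a : H →L[ℂ] H) ∈ B := by
      intro i a ha
      exact ⟨a, Algebra.subset_adjoin (Set.mem_iUnion.2 ⟨i, ha⟩), rfl⟩
    have hdense : ∀ x : M.toStarSubalgebra, ∀ ε : ℝ, 0 < ε →
        ∃ y ∈ Algebra.adjoin ℂ (⋃ i, S i), n2 (gns M hξ) (x - y) < ε := by
      intro x ε hε
      obtain ⟨b, hb, hb2⟩ := dense_of_bicommutant M hξ B (by
        intro x hx y hy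
        have h1 : (M : Set (H →L[ℂ] H)) ⊆ (vnCent {y} : Set (H →L[ℂ] H)) := by
          apply hgen
          intro i a ha
          rw [mem_vnCent]
          rintro g rfl
          refine ⟨(hy _ (hmemB i a ha)).symm, ?_⟩
          have h2 := hy _ (hmemB i _ ((hS i).star_mem a ha))
          have h3 := congrArg star h2
          rw [star_mul, star_mul] at h3
          have h4 : star (((star a : M.toStarSubalgebra)) : H →L[ℂ] H) = (a : H →L[ℂ] H) := by
            change star (star (a : H →L[ℂ] H)) = a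
            rw [star_star]
          rw [h4] at h3
          exact h3
        exact (mem_vnCent.1 (h1 hx) y rfl).1) x.2 hε
      obtain ⟨b', hb', rfl⟩ := hb
      exact ⟨b', hb', hb2⟩
    have hd := dense_of_masas (gns M hξ) (gns_inj M hξ) (gns_complete M hξ) hS hdense
      (fun i => selfAdjoint.expUnitary (k i)) (by
        intro i u hu huS ε hε
        exact hpow i u hu huS ε hε)
    have h1 := stronglyDense_of_two M hξ
      (Subgroup.closure (Set.range fun i => selfAdjoint.expUnitary (k i)) :
        Set (unitary M.toStarSubalgebra)) (fun u ε hε => hd u hε)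
    have h2 : phi M '' (Subgroup.closure (Set.range fun i => selfAdjoint.expUnitary (k i)) :
        Set (unitary M.toStarSubalgebra)) =
        (Subgroup.closure (Set.range fun i => phi M (selfAdjoint.expUnitary (k i))) :
          Set (unitary (H →L[ℂ] H))) := by
      rw [← Subgroup.coe_map, MonoidHom.map_closure, ← Set.range_comp]
      rfl
    rw [h2] at h1
    exact h1

/-- coordinates: a von Neumann algebra containing `exp (i h)` for all ... -/
theorem exp_mem_of_mem (M N : VonNeumannAlgebra H) (h : selfAdjoint M.toStarSubalgebra)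
    (hN : ((h : M.toStarSubalgebra) : H →L[ℂ] H) ∈ (N : Set (H →L[ℂ] H))) :
    phi M (selfAdjoint.expUnitary h) ∈ UM N := by
  change ((selfAdjoint.expUnitary h : M.toStarSubalgebra) : H →L[ℂ] H) ∈ (N : Set (H →L[ℂ] H))
  rw [selfAdjoint.expUnitary_coe, coe_exp]
  apply mem_exp
  exact N.toStarSubalgebra.smul_mem hN Complex.I

theorem isStarNormal_unitary {A : Type*} [CStarAlgebra A] (u : unitary A) :
    IsStarNormal (u : A) := by
  rw [isStarNormal_iff]
  have := Unitary.mem_iff.1 u.2
  exact this.1.trans this.2.symm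

/-- from a generating family of unitaries to a topologically generating family of exponentials -/
theorem topGenerates_of_generates [TopologicalSpace.SeparableSpace H] (M : VonNeumannAlgebra H)
    {ξ : ℕ → H} (hξ : IsTracialState M ξ) {ι : Type*} [Nonempty ι]
    (x : ι → M.toStarSubalgebra) (hx : ∀ i, IsStarNormal (x i))
    (hgen : Generates M (Set.range fun i => (x i : H →L[ℂ] H))) :
    ∃ h : ι → selfAdjoint M.toStarSubalgebra,
      TopGenerates M (Set.range fun i => phi M (selfAdjoint.expUnitary (h i))) := by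
  have hm := fun i => exists_masa (hx i)
  choose S hS hxS using hm
  apply core M hξ hS
  intro N hN
  apply hgen.2
  rintro _ ⟨i, rfl⟩
  exact hN i _ (hxS i)

/-- from a generating family of commutative selfadjoint subsets to a topologically generating
family of exponentials -/
theorem topGenerates_of_abelian [TopologicalSpace.SeparableSpace H] (M : VonNeumannAlgebra H)
    {ξ : ℕ → H} (hξ : IsTracialState M ξ) {ι : Type*} [Nonempty ι]
    (C : ι → Set (H →L[ℂ] H)) (hcomm : ∀ i, ∀ a ∈ C i, ∀ b ∈ C i, a * b = b * a)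
    (hstar : ∀ i, ∀ a ∈ C i, star a ∈ C i) (hgen : Generates M (⋃ i, C i)) :
    ∃ h : ι → selfAdjoint M.toStarSubalgebra,
      TopGenerates M (Set.range fun i => phi M (selfAdjoint.expUnitary (h i))) := by
  have hm : ∀ i, ∃ S : Set M.toStarSubalgebra, IsMasa S ∧
      (Subtype.val ⁻¹' C i : Set M.toStarSubalgebra) ⊆ S := fun i =>
    exists_masa_of_comm (fun a ha b hb => Subtype.ext (hcomm i a ha b hb))
      (fun a ha => hstar i a ha)
  choose S hS hCS using hm
  apply core M hξ hS
  intro N hN
  apply hgen.2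
  intro a ha
  obtain ⟨i, hi⟩ := Set.mem_iUnion.1 ha
  exact hN i ⟨a, hgen.1 ha⟩ (hCS i hi)

/-- `M` is generated by two unitaries iff it is singly generated, etc. -/
theorem singly_iff [TopologicalSpace.SeparableSpace H] (M : VonNeumannAlgebra H) {ξ : ℕ → H}
    (hξ : IsTracialState M ξ) :
    (∃ x : H →L[ℂ] H, Generates M {x}) ↔
      ∃ u v : unitary (H →L[ℂ] H), TopGenerates M {u, v} := by
  constructor
  · rintro ⟨x, hx⟩
    have hxM : x ∈ (M : Set (H →L[ℂ] H)) := hx.1 rfl
    set X : M.toStarSubalgebra := ⟨x, hxM⟩ with hX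
    set y : Bool → M.toStarSubalgebra := fun b => cond b (realPart X : M.toStarSubalgebra)
      (imaginaryPart X : M.toStarSubalgebra) with hy
    obtain ⟨h, hh⟩ := topGenerates_of_generates M hξ y (by
      intro b
      cases b
      · exact (imaginaryPart X).2.isStarNormal
      · exact (realPart X).2.isStarNormal) (by
      constructor
      · rintro _ ⟨b, rfl⟩
        exact (y b).2
      · intro N hN
        apply hx.2
        rintro _ rfl
        have h1 : ((realPart X : M.toStarSubalgebra) : H →L[ℂ] H) ∈ N.toStarSubalgebra :=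
          hN ⟨true, rfl⟩
        have h2 : ((imaginaryPart X : M.toStarSubalgebra) : H →L[ℂ] H) ∈ N.toStarSubalgebra :=
          hN ⟨false, rfl⟩
        have h3 : (X : H →L[ℂ] H) = ((realPart X : M.toStarSubalgebra) : H →L[ℂ] H) +
            Complex.I • ((imaginaryPart X : M.toStarSubalgebra) : H →L[ℂ] H) :=
          (congrArg Subtype.val (realPart_add_I_smul_imaginaryPart X)).symm
        have h4 : (X : H →L[ℂ] H) ∈ N.toStarSubalgebra := by
          rw [h3]
          exact add_mem h1 (N.toStarSubalgebra.smul_mem h2 Complex.I)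
        exact h4)
    refine ⟨phi M (selfAdjoint.expUnitary (h true)), phi M (selfAdjoint.expUnitary (h false)), ?_⟩
    convert hh using 1
    ext w
    simp only [Set.mem_insert_iff, Set.mem_singleton_iff, Set.mem_range, Bool.exists_bool]
    constructor
    · rintro (rfl | rfl)
      · right; rfl
      · left; rfl
    · rintro (rfl | rfl)
      · right; rfl
      · left; rfl
  · rintro ⟨u, v, huv⟩
    have hgen := generates_of_topGenerates M huv
    obtain ⟨u', hu'⟩ := exists_phi M (huv.1 (Set.mem_insert u _))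
    obtain ⟨v', hv'⟩ := exists_phi M (huv.1 (Set.mem_insert_of_mem _ (Set.mem_singleton v)))
    obtain ⟨h, hh⟩ := topGenerates_of_generates M hξ
      (fun b : Bool => cond b (u' : M.toStarSubalgebra) (v' : M.toStarSubalgebra)) (by
      intro b
      cases b
      · exact isStarNormal_unitary v'
      · exact isStarNormal_unitary u') (by
      convert hgen using 1
      ext w
      simp only [Set.mem_range, Bool.exists_bool, Set.mem_image, Set.mem_insert_iff,
        Set.mem_singleton_iff, cond_true, cond_false, exists_eq_or_imp, exists_eq_left]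
      rw [← hu', ← hv', phi_coe, phi_coe]
      exact or_comm)
    have hgen2 := generates_of_topGenerates M hh
    set a : M.toStarSubalgebra := (h true : M.toStarSubalgebra) with ha
    set b : M.toStarSubalgebra := (h false : M.toStarSubalgebra) with hb
    refine ⟨(a : H →L[ℂ] H) + Complex.I • (b : H →L[ℂ] H), ?_, ?_⟩
    · rintro _ rfl
      exact add_mem a.2 (M.toStarSubalgebra.smul_mem b.2 Complex.I)
    · intro N hN
      have hxN : (a : H →L[ℂ] H) + Complex.I • (b : H →L[ℂ] H) ∈ N.toStarSubalgebra := hN rfl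
      have hasa : star (a : H →L[ℂ] H) = a := congrArg Subtype.val (h true).2
      have hbsa : star (b : H →L[ℂ] H) = b := congrArg Subtype.val (h false).2
      have hxs : (a : H →L[ℂ] H) - Complex.I • (b : H →L[ℂ] H) ∈ N.toStarSubalgebra := by
        have h1 := star_mem hxN
        rw [star_add, star_smul, hasa, hbsa] at h1
        simpa [sub_eq_add_neg] using h1
      have haN : (a : H →L[ℂ] H) ∈ N.toStarSubalgebra := by
        have h1 := N.toStarSubalgebra.smul_mem (add_mem hxN hxs) (2⁻¹ : ℂ)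
        have e : (2⁻¹ : ℂ) • (((a : H →L[ℂ] H) + Complex.I • (b : H →L[ℂ] H)) +
            ((a : H →L[ℂ] H) - Complex.I • (b : H →L[ℂ] H))) = a := by
          rw [add_add_sub_cancel, ← two_smul ℂ, smul_smul]
          norm_num
        rwa [e] at h1
      have hbN : (b : H →L[ℂ] H) ∈ N.toStarSubalgebra := by
        have h1 := N.toStarSubalgebra.smul_mem (sub_mem hxN haN) (-Complex.I)
        rw [add_sub_cancel_left, smul_smul, neg_mul, Complex.I_mul_I, neg_neg, one_smul] at h1
        exact h1
      apply hgen2.2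
      rintro _ ⟨_, ⟨c, rfl⟩, rfl⟩
      cases c
      · exact exp_mem_of_mem M N (h false) hbN
      · exact exp_mem_of_mem M N (h true) haN

end Pool.Agent.MPcb31e3
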