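import Pool.Agent.MPcb31e3.Ranks

/-!
Group von Neumann algebras `L(Γ)` and `d(L(Γ)) = 2` for every two-generated ICC group.
-/

namespace Pool.Agent.MPcb31e3

open NormedSpace Filter Topology ComplexStarModule
open scoped Real ENNReal Cardinal

variable (Γ : Type) [Group Γ]

/-- `ℓ²(Γ)` -/
abbrev l2G : Type := lp (fun _ : Γ => ℂ) 2

variable {Γ}

theorem summable_l2G (f : l2G Γ) : Summable fun k => ‖f k‖ ^ 2 := by
  have := (lp.memℓp f).summable (by simp)
  simpa using this

theorem norm_sq_l2G (f : l2G Γ) : ‖f‖ ^ 2 = ∑' k, ‖f k‖ ^ 2 := by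
  have := lp.norm_rpow_eq_tsum (p := 2) (by simp) f
  simpa using this

theorem mem_l2G {f : Γ → ℂ} (h : Summable fun k => ‖f k‖ ^ 2) : Memℓp f 2 := by
  apply memℓp_gen
  simpa using h

/-- composition with a permutation of `Γ` -/
noncomputable def permOp (σ : Γ ≃ Γ) : l2G Γ →L[ℂ] l2G Γ :=
  LinearMap.mkContinuous
    { toFun := fun f => ⟨fun k => f (σ k), mem_l2G (by
        exact (Equiv.summable_iff σ (f := fun k => ‖f k‖ ^ 2)).2 (summable_l2G f))⟩
      map_add' := fun f g => by apply lp.ext; funext k; rfl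
      map_smul' := fun c f => by apply lp.ext; funext k; rfl } 1 (fun f => by
        rw [one_mul]
        have h1 : ∀ g : l2G Γ, (∀ k, g k = f (σ k)) → ‖g‖ ^ 2 = ‖f‖ ^ 2 := by
          intro g hg
          rw [norm_sq_l2G, norm_sq_l2G]
          simp only [hg]
          exact Equiv.tsum_eq σ (fun k => ‖f k‖ ^ 2)
        exact ((sq_eq_sq₀ (norm_nonneg _) (norm_nonneg _)).1 (h1 ⟨fun k => f (σ k), _⟩
          (fun k => rfl))).le)

@[simp] theorem permOp_apply (σ : Γ ≃ Γ) (f : l2G Γ) (k : Γ) : permOp σ f k = f (σ k) := rfl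

theorem permOp_mul (σ τ : Γ ≃ Γ) : permOp σ * permOp τ = permOp (σ.trans τ) := by
  ext f k
  rfl

theorem permOp_refl : permOp (Equiv.refl Γ) = 1 := by
  ext f k
  rfl

theorem star_permOp (σ : Γ ≃ Γ) : star (permOp σ) = permOp σ.symm := by
  rw [ContinuousLinearMap.star_eq_adjoint]
  symm
  rw [ContinuousLinearMap.eq_adjoint_iff]
  intro f g
  rw [lp.inner_eq_tsum, lp.inner_eq_tsum, ← Equiv.tsum_eq σ]
  refine tsum_congr fun k => ?_
  simp

/-- left translation `(λ_g f)(h) = f (g⁻¹ h)` -/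
noncomputable def lam (g : Γ) : l2G Γ →L[ℂ] l2G Γ := permOp (Equiv.mulLeft g⁻¹)

/-- right translation `(ρ_g f)(h) = f (h g)` -/
noncomputable def rho (g : Γ) : l2G Γ →L[ℂ] l2G Γ := permOp (Equiv.mulRight g)

theorem lam_apply (g : Γ) (f : l2G Γ) (k : Γ) : lam g f k = f (g⁻¹ * k) := rfl

theorem rho_apply (g : Γ) (f : l2G Γ) (k : Γ) : rho g f k = f (k * g) := rfl

theorem lam_mul (g h : Γ) : lam g * lam h = lam (g * h) := by
  ext f k
  change f (h⁻¹ * (g⁻¹ * k)) = f ((g * h)⁻¹ * k)
  rw [mul_inv_rev, mul_assoc]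

theorem lam_one : lam (1 : Γ) = 1 := by
  ext f k
  change f ((1 : Γ)⁻¹ * k) = f k
  rw [inv_one, one_mul]

theorem star_lam (g : Γ) : star (lam g) = lam g⁻¹ := by
  unfold lam
  rw [star_permOp]
  congr 1
  ext k
  simp

theorem star_rho (g : Γ) : star (rho g) = rho g⁻¹ := by
  unfold rho
  rw [star_permOp]
  congr 1
  ext k
  simp

theorem lam_rho (g h : Γ) : lam g * rho h = rho h * lam g := by
  ext f k
  change f (g⁻¹ * k * h) = f (g⁻¹ * (k * h))
  rw [mul_assoc]

/-- `λ_g` as a unitary -/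
noncomputable def lamU (g : Γ) : unitary (l2G Γ →L[ℂ] l2G Γ) :=
  ⟨lam g, by
    rw [Unitary.mem_iff, star_lam, lam_mul, lam_mul, inv_mul_cancel, mul_inv_cancel, lam_one]
    exact ⟨rfl, rfl⟩⟩

theorem lamU_mul (g h : Γ) : lamU g * lamU h = lamU (g * h) := Subtype.ext (lam_mul g h)

theorem lamU_inv (g : Γ) : (lamU g)⁻¹ = lamU g⁻¹ := by
  rw [inv_eq_iff_mul_eq_one, lamU_mul, mul_inv_cancel]
  exact Subtype.ext lam_one

variable (Γ) in
/-- The group von Neumann algebra `L(Γ) = λ(Γ)''`. -/
noncomputable def groupVN : VonNeumannAlgebra (l2G Γ) :=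
  vnCent (vnCent (Set.range (lam : Γ → l2G Γ →L[ℂ] l2G Γ)) : Set (l2G Γ →L[ℂ] l2G Γ))

theorem lam_mem (g : Γ) : lam g ∈ (groupVN Γ : Set (l2G Γ →L[ℂ] l2G Γ)) := by
  unfold groupVN
  rw [mem_vnCent]
  intro x hx
  have h1 := mem_vnCent.1 hx (lam g) ⟨g, rfl⟩
  refine ⟨h1.1.symm, ?_⟩
  have h2 := congrArg star h1.2
  rw [star_mul, star_mul, star_star] at h2
  exact h2

theorem rho_comm {x : l2G Γ →L[ℂ] l2G Γ} (hx : x ∈ (groupVN Γ : Set (l2G Γ →L[ℂ] l2G Γ)))
    (g : Γ) : rho g * x = x * rho g := by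
  unfold groupVN at hx
  rw [mem_vnCent] at hx
  refine (hx (rho g) ?_).1
  rw [mem_vnCent]
  rintro _ ⟨h, rfl⟩
  rw [star_lam]
  exact ⟨lam_rho h g, lam_rho h⁻¹ g⟩

open Classical in
/-- the vector `δ_g` -/
noncomputable def dl (g : Γ) : l2G Γ := lp.single 2 g (1 : ℂ)

open Classical in
theorem dl_self (g : Γ) : dl g g = 1 := lp.single_apply_self _ _ _

open Classical in
theorem dl_ne {g h : Γ} (hgh : h ≠ g) : dl g h = 0 := lp.single_apply_ne _ _ _ hgh

open Classical in
theorem norm_dl (g : Γ) : ‖dl g‖ = 1 := by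
  unfold dl
  rw [lp.norm_single (by simp)]
  simp

open Classical in
theorem inner_dl (g : Γ) (f : l2G Γ) : inner ℂ (dl g) f = f g := by
  rw [lp.inner_eq_tsum, tsum_eq_single g]
  · rw [dl_self]; simp
  · intro h hh
    rw [dl_ne hh]; simp

open Classical in
theorem rho_dl (g h : Γ) : rho g (dl h) = dl (h * g⁻¹) := by
  apply lp.ext
  funext k
  rw [rho_apply]
  by_cases hk : k = h * g⁻¹
  · subst hk
    rw [dl_self, inv_mul_cancel_right, dl_self]
  · rw [dl_ne hk, dl_ne]
    intro h1
    exact hk (eq_mul_inv_of_mul_eq h1)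

open Classical in
theorem lam_dl (g h : Γ) : lam g (dl h) = dl (g * h) := by
  apply lp.ext
  funext k
  rw [lam_apply]
  by_cases hk : k = g * h
  · subst hk
    rw [dl_self, inv_mul_cancel_left, dl_self]
  · rw [dl_ne hk, dl_ne]
    intro h1
    exact hk (inv_mul_eq_iff_eq_mul.1 h1)

/-- an operator is determined by its values on the `δ_g` -/
theorem ext_dl {x y : l2G Γ →L[ℂ] l2G Γ} (h : ∀ g, x (dl g) = y (dl g)) : x = y := by
  classical
  apply lp.ext_continuousLinearMap (by simp)
  intro g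
  ext
  simpa [dl] using congrArg (fun z : l2G Γ => z _) (h g)

/-- elements of `L(Γ)` are determined by their value at `δ_e` -/
theorem groupVN_apply {x : l2G Γ →L[ℂ] l2G Γ} (hx : x ∈ (groupVN Γ : Set (l2G Γ →L[ℂ] l2G Γ)))
    (g : Γ) : x (dl g) = rho g⁻¹ (x (dl 1)) := by
  have h1 : dl g = rho g⁻¹ (dl (1 : Γ)) := by rw [rho_dl, one_mul, inv_inv]
  rw [h1]
  exact (DFunLike.congr_fun (rho_comm hx g⁻¹) (dl 1)).symm

theorem groupVN_ext {x y : l2G Γ →L[ℂ] l2G Γ} (hx : x ∈ (groupVN Γ : Set (l2G Γ →L[ℂ] l2G Γ)))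
    (hy : y ∈ (groupVN Γ : Set (l2G Γ →L[ℂ] l2G Γ))) (h : x (dl 1) = y (dl 1)) : x = y := by
  apply ext_dl
  intro g
  rw [groupVN_apply hx, groupVN_apply hy, h]

/-- coefficients of the adjoint -/
theorem star_apply_dl {x : l2G Γ →L[ℂ] l2G Γ}
    (hx : x ∈ (groupVN Γ : Set (l2G Γ →L[ℂ] l2G Γ))) (g : Γ) :
    (star x) (dl 1) g = starRingEnd ℂ (x (dl 1) g⁻¹) := by
  rw [← inner_dl g, ContinuousLinearMap.star_eq_adjoint, ContinuousLinearMap.adjoint_inner_right,
    groupVN_apply hx, ← inner_conj_symm, inner_dl, rho_apply, one_mul]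

/-- the sequence of vectors `(δ_e, 0, 0, …)` -/
noncomputable def xiG (Γ : Type) [Group Γ] (n : ℕ) : l2G Γ := if n = 0 then dl 1 else 0

theorem vecFun_xiG (x : l2G Γ →L[ℂ] l2G Γ) : vecFun (xiG Γ) x = x (dl 1) 1 := by
  unfold vecFun
  rw [tsum_eq_single 0]
  · simp only [xiG, if_true]
    rw [inner_dl]
  · intro n hn
    simp only [xiG, if_neg hn, inner_zero_left]

theorem isTracialState_groupVN : IsTracialState (groupVN Γ) (xiG Γ) := by
  have hsum : HasSum (fun k => ‖xiG Γ k‖ ^ 2) 1 := by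
    have : (fun k => ‖xiG Γ k‖ ^ 2) = fun k => if k = 0 then (1 : ℝ) else 0 := by
      funext k
      by_cases hk : k = 0
      · have h1 : ‖dl (1 : Γ)‖ = 1 := norm_dl 1
        simp only [xiG, hk, if_true, h1, one_pow]
      · simp only [xiG, hk, if_false, norm_zero]
        norm_num
    rw [this]
    exact hasSum_ite_eq 0 1
  refine ⟨hsum.summable, hsum.tsum_eq, ?_, ?_⟩
  · intro x hx y hy
    rw [vecFun_xiG, vecFun_xiG]
    have hform : ∀ x ∈ (groupVN Γ : Set (l2G Γ →L[ℂ] l2G Γ)), ∀ y : l2G Γ →L[ℂ] l2G Γ,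
        (x * y) (dl 1) 1 = ∑' g, x (dl 1) g⁻¹ * y (dl 1) g := by
      intro x hx y
      rw [← inner_dl 1]
      change inner ℂ (dl 1) (x (y (dl 1))) = _
      have h1 : inner ℂ (dl 1) (x (y (dl 1))) = inner ℂ ((star x) (dl 1)) (y (dl 1)) := by
        rw [ContinuousLinearMap.star_eq_adjoint, ContinuousLinearMap.adjoint_inner_left]
      rw [h1, lp.inner_eq_tsum]
      refine tsum_congr fun g => ?_
      rw [star_apply_dl hx, RCLike.inner_apply, RCLike.conj_conj, mul_comm]
    rw [hform x hx y, hform y hy x, ← Equiv.tsum_eq (Equiv.inv Γ)]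
    refine tsum_congr fun g => ?_
    rw [Equiv.inv_apply, inv_inv, mul_comm]
  · intro x hx h0
    rw [vecFun_xiG, ← inner_dl 1] at h0
    change inner ℂ (dl 1) ((star x) (x (dl 1))) = 0 at h0
    rw [ContinuousLinearMap.star_eq_adjoint, ContinuousLinearMap.adjoint_inner_right,
      inner_self_eq_zero] at h0
    have hzero : (0 : l2G Γ →L[ℂ] l2G Γ) ∈ (groupVN Γ : Set (l2G Γ →L[ℂ] l2G Γ)) :=
      zero_mem (groupVN Γ)
    apply groupVN_ext hx hzero
    rw [h0]
    rfl

/-- all nontrivial conjugacy classes are infinite -/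
def ICC (Γ : Type) [Group Γ] : Prop := ∀ g : Γ, g ≠ 1 → (Set.range fun h : Γ => h * g * h⁻¹).Infinite

theorem lam_apply_dl_one (g : Γ) : lam g (dl (1 : Γ)) = dl g := by rw [lam_dl, mul_one]

theorem infinite_of_ICC [Nontrivial Γ] (h : ICC Γ) : Infinite Γ := by
  obtain ⟨g, hg⟩ := exists_ne (1 : Γ)
  exact Set.infinite_univ_iff.1 ((h g hg).mono (Set.subset_univ _))

theorem isII1Factor_groupVN [Nontrivial Γ] (hicc : ICC Γ) : IsII1Factor (groupVN Γ) := by
  classical
  have hinf := infinite_of_ICC hicc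
  refine ⟨?_, ?_, ⟨_, isTracialState_groupVN⟩⟩
  · intro x hx hcent
    set f : l2G Γ := x (dl 1) with hf
    -- `f` is constant on conjugacy classes
    have hconj : ∀ g k : Γ, f (g⁻¹ * k * g) = f k := by
      intro g k
      have h1 : lam g (rho g (x (dl (1 : Γ)))) = x (dl 1) := by
        have e1 : rho g (x (dl (1 : Γ))) = x (rho g (dl 1)) :=
          DFunLike.congr_fun (rho_comm hx g) (dl 1)
        have e2 : lam g (x (rho g (dl (1 : Γ)))) = x (lam g (rho g (dl 1))) :=
          (DFunLike.congr_fun (hcent (lam g) (lam_mem g)) _).symm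
        rw [e1, e2, rho_dl, lam_dl, one_mul, mul_inv_cancel]
      have h2 := congrArg (fun z : l2G Γ => z k) h1
      simp only [lam_apply, rho_apply] at h2
      exact h2
    have hzero : ∀ g : Γ, g ≠ 1 → f g = 0 := by
      intro g hg
      by_contra hne
      have hs := summable_l2G f
      have hpos : 0 < ‖f g‖ ^ 2 := by positivity
      have hfin : {k : Γ | ‖f g‖ ^ 2 ≤ ‖f k‖ ^ 2}.Finite := by
        have h1 := hs.tendsto_cofinite_zero
        have h2 : ∀ᶠ k in cofinite, ‖f k‖ ^ 2 < ‖f g‖ ^ 2 := h1.eventually (gt_mem_nhds hpos)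
        rw [Filter.eventually_cofinite] at h2
        simpa only [not_lt] using h2
      apply hicc g hg
      refine hfin.subset ?_
      rintro _ ⟨h, rfl⟩
      have h3 := hconj h⁻¹ g
      rw [inv_inv] at h3
      simp only [Set.mem_ofPred_eq]
      rw [h3]
    refine ⟨f 1, ?_⟩
    have hone : (f 1 • (1 : l2G Γ →L[ℂ] l2G Γ)) ∈ (groupVN Γ : Set (l2G Γ →L[ℂ] l2G Γ)) :=
      (groupVN Γ).toStarSubalgebra.smul_mem (one_mem _) _
    apply groupVN_ext hx hone
    apply lp.ext
    funext k
    change f k = f 1 * dl (1 : Γ) k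
    by_cases hk : k = 1
    · subst hk; rw [dl_self, mul_one]
    · rw [hzero k hk, dl_ne hk, mul_zero]
  · intro hfd
    -- the `λ_g` are linearly independent
    have hli : LinearIndependent ℂ
        (fun g : Γ => (⟨lam g, lam_mem g⟩ : (groupVN Γ).toStarSubalgebra)) := by
      rw [linearIndependent_iff']
      intro s c hc g hg
      have h1 := congrArg (fun z : (groupVN Γ).toStarSubalgebra =>
        ((z : l2G Γ →L[ℂ] l2G Γ) (dl 1)) g) hc
      simp only at h1
      rw [AddSubmonoidClass.coe_finsetSum] at h1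
      have h2 : ((∑ i ∈ s, ((c i • (⟨lam i, lam_mem i⟩ : (groupVN Γ).toStarSubalgebra) :
          (groupVN Γ).toStarSubalgebra) : l2G Γ →L[ℂ] l2G Γ)) (dl 1)) g =
          ∑ i ∈ s, c i * dl i g := by
        rw [ContinuousLinearMap.sum_apply]
        rw [lp.coeFn_sum, Finset.sum_apply]
        refine Finset.sum_congr rfl fun i _ => ?_
        change c i * (lam i (dl 1)) g = _
        rw [lam_apply_dl_one]
      rw [h2, Finset.sum_eq_single_of_mem g hg, dl_self, mul_one] at h1
      · exact h1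
      · intro i _ hi
        rw [dl_ne (Ne.symm hi), mul_zero]
    have hfin := hli.finite
    exact not_finite Γ

theorem separable_l2G [Countable Γ] : TopologicalSpace.SeparableSpace (l2G Γ) := by
  classical
  rw [← TopologicalSpace.isSeparable_univ_iff]
  set T : Set (l2G Γ) := ⋃ k : Γ, Set.range fun v : ℂ => lp.single 2 k v with hT
  have hTs : TopologicalSpace.IsSeparable T := by
    apply TopologicalSpace.IsSeparable.iUnion
    intro k
    apply TopologicalSpace.isSeparable_range
    exact (lp.singleContinuousLinearMap ℂ (fun _ : Γ => ℂ) 2 k).continuous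
  have h2 := (hTs.span (R := ℂ)).closure
  refine h2.mono fun f _ => ?_
  have h3 := lp.hasSum_single (p := 2) (by simp) f
  refine mem_closure_of_tendsto h3 (Eventually.of_forall fun s => ?_)
  apply Submodule.sum_mem
  intro k _
  apply Submodule.subset_span
  exact Set.mem_iUnion.2 ⟨k, f k, rfl⟩

theorem generates_lam {a b : Γ} (hab : Subgroup.closure ({a, b} : Set Γ) = ⊤) :
    Generates (groupVN Γ) {lam a, lam b} := by
  constructor
  · rintro _ (rfl | rfl)
    · exact lam_mem a
    · exact lam_mem b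
  · intro N hN x hx
    -- `N` contains all `λ_g`
    let G : Subgroup Γ :=
      { carrier := {g | lam g ∈ (N : Set (l2G Γ →L[ℂ] l2G Γ))}
        one_mem' := by
          change lam 1 ∈ (N : Set (l2G Γ →L[ℂ] l2G Γ))
          rw [lam_one]; exact one_mem N
        mul_mem' := by
          intro g h hg hh
          change lam (g * h) ∈ (N : Set (l2G Γ →L[ℂ] l2G Γ))
          rw [← lam_mul]
          exact mul_mem (S := VonNeumannAlgebra (l2G Γ)) (s := N) hg hh
        inv_mem' := by
          intro g hg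
          change lam g⁻¹ ∈ (N : Set (l2G Γ →L[ℂ] l2G Γ))
          rw [← star_lam]
          exact star_mem (S := VonNeumannAlgebra (l2G Γ)) (s := N) hg }
    have hG : ∀ g : Γ, lam g ∈ (N : Set (l2G Γ →L[ℂ] l2G Γ)) := by
      intro g
      have h1 : Subgroup.closure ({a, b} : Set Γ) ≤ G := by
        rw [Subgroup.closure_le]
        rintro _ (rfl | rfl)
        · exact hN (Or.inl rfl)
        · exact hN (Or.inr rfl)
      rw [hab] at h1
      exact h1 (Subgroup.mem_top g)
    -- hence its bicommutant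
    apply mem_of_commute
    intro y hy
    unfold groupVN at hx
    rw [mem_vnCent] at hx
    refine (hx y ?_).1
    rw [SetLike.mem_coe, ← SetLike.mem_coe, mem_vnCent]
    rintro _ ⟨g, rfl⟩
    rw [star_lam]
    exact ⟨hy _ (hG g), hy _ (hG g⁻¹)⟩

/-- **Corollary.** `d(L(Γ)) = 2` for every ICC group `Γ ≠ 1` generated by two elements. -/
theorem topRank_groupVN [Nontrivial Γ] (hicc : ICC Γ) {a b : Γ}
    (hab : Subgroup.closure ({a, b} : Set Γ) = ⊤) : topRank (groupVN Γ) = 2 := by
  have hcount : Countable Γ := by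
    have h1 : (FreeGroup.lift (fun c : Bool => cond c a b)).range = ⊤ := by
      rw [FreeGroup.range_lift_eq_closure, ← hab]
      congr 1
      ext w
      simp only [Set.mem_range, Bool.exists_bool, Set.mem_insert_iff, Set.mem_singleton_iff,
        cond_true, cond_false]
      constructor
      · rintro (rfl | rfl)
        · right; rfl
        · left; rfl
      · rintro (rfl | rfl)
        · right; rfl
        · left; rfl
    have h2 : Function.Surjective (FreeGroup.lift (fun c : Bool => cond c a b)) :=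
      MonoidHom.range_eq_top.1 h1
    have h3 : Countable (FreeGroup Bool) := inferInstanceAs (Countable (Quot _))
    exact h2.countable
  have hsep : TopologicalSpace.SeparableSpace (l2G Γ) := separable_l2G
  have hM := isII1Factor_groupVN hicc
  apply le_antisymm _ (two_le_topRank hM)
  obtain ⟨h, hh⟩ := topGenerates_of_generates (groupVN Γ) isTracialState_groupVN
    (fun c : Bool => cond c (⟨lam a, lam_mem a⟩ : (groupVN Γ).toStarSubalgebra) ⟨lam b, lam_mem b⟩)
    (by
      intro c
      rw [isStarNormal_iff]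
      cases c
      · apply Subtype.ext
        change star (lam b) * lam b = lam b * star (lam b)
        rw [star_lam, lam_mul, lam_mul, inv_mul_cancel, mul_inv_cancel]
      · apply Subtype.ext
        change star (lam a) * lam a = lam a * star (lam a)
        rw [star_lam, lam_mul, lam_mul, inv_mul_cancel, mul_inv_cancel])
    (by
      convert generates_lam hab using 1
      ext w
      simp only [Set.mem_range, Bool.exists_bool, Set.mem_insert_iff, Set.mem_singleton_iff,
        cond_true, cond_false]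
      constructor
      · rintro (rfl | rfl)
        · right; rfl
        · left; rfl
      · rintro (rfl | rfl)
        · right; rfl
        · left; rfl)
  refine (topRank_le hh).trans ?_
  refine Cardinal.mk_range_le.trans ?_
  simp

end Pool.Agent.MPcb31e3
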