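import Pool.Agent.MPcb31e3.Basic

/-!
Topological generation of unitary groups, abstract part, II: the Lie algebra of a 2-norm closed
subgroup of the unitary group.
-/

namespace Pool.Agent.MPcb31e3

open NormedSpace Filter Topology ComplexStarModule

variable {A K : Type*} [CStarAlgebra A] [NormedAddCommGroup K] [InnerProductSpace ℂ K]

/-- `G` is closed in the 2-norm. -/
def TwoClosed (Λ : GNSMap A K) (G : Subgroup (unitary A)) : Prop :=
  ∀ u : unitary A, (∀ ε : ℝ, 0 < ε → ∃ g ∈ G, n2 Λ ((u : A) - (g : A)) < ε) → u ∈ G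

/-- one-parameter groups inside `G` -/
def lieSet (G : Subgroup (unitary A)) : Set (selfAdjoint A) :=
  {h | ∀ t : ℝ, selfAdjoint.expUnitary (t • h) ∈ G}

theorem expU_coe (h : selfAdjoint A) (t : ℝ) :
    ((selfAdjoint.expUnitary (t • h) : unitary A) : A) = exp (Complex.I • (t • (h : A))) := by
  simp [selfAdjoint.expUnitary_coe]

theorem lieSet_zero (G : Subgroup (unitary A)) : (0 : selfAdjoint A) ∈ lieSet G := by
  intro t
  rw [smul_zero, selfAdjoint.expUnitary_zero]
  exact one_mem G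

theorem lieSet_smul {G : Subgroup (unitary A)} {h : selfAdjoint A} (hh : h ∈ lieSet G) (r : ℝ) :
    r • h ∈ lieSet G := by
  intro t
  rw [smul_smul]
  exact hh (t * r)

theorem lieSet_neg {G : Subgroup (unitary A)} {h : selfAdjoint A} (hh : h ∈ lieSet G) :
    -h ∈ lieSet G := by
  have := lieSet_smul hh (-1)
  rwa [neg_one_smul] at this

variable (Λ : GNSMap A K)

theorem lieSet_add {G : Subgroup (unitary A)} (hG : TwoClosed Λ G) {h k : selfAdjoint A}
    (hh : h ∈ lieSet G) (hk : k ∈ lieSet G) : h + k ∈ lieSet G := by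
  intro t
  apply hG
  intro ε hε
  have hth : IsSelfAdjoint (t • (h : A)) := (t • h).2
  have htk : IsSelfAdjoint (t • (k : A)) := (t • k).2
  have lim := trotter hth htk
  have lim2 := ((continuous_toLin Λ).tendsto _).comp lim
  rw [Metric.tendsto_atTop] at lim2
  obtain ⟨N, hN⟩ := lim2 ε hε
  have hN1 := hN (N + 1) (Nat.le_succ N)
  refine ⟨(selfAdjoint.expUnitary ((((N + 1 : ℕ) : ℝ)⁻¹ * t) • h) *
    selfAdjoint.expUnitary ((((N + 1 : ℕ) : ℝ)⁻¹ * t) • k)) ^ (N + 1),
    pow_mem (mul_mem (hh _) (hk _)) _, ?_⟩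
  have e1 : ∀ x : selfAdjoint A,
      ((selfAdjoint.expUnitary ((((N + 1 : ℕ) : ℝ)⁻¹ * t) • x) : unitary A) : A) =
      exp ((((N + 1 : ℕ) : ℂ)⁻¹) • (Complex.I • (t • (x : A)))) := by
    intro x
    rw [expU_coe, mul_smul, smul_comm]
    congr 1
    rw [← Complex.coe_smul (((N + 1 : ℕ) : ℝ)⁻¹)]
    push_cast
    rfl
  rw [n2_comm]
  rw [SubmonoidClass.coe_pow, Submonoid.coe_mul, e1, e1, expU_coe]
  rw [AddSubgroup.coe_add, smul_add t]
  rw [dist_eq_norm] at hN1
  simpa [n2, Function.comp] using hN1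

theorem lieSet_closed {G : Subgroup (unitary A)} (hG : TwoClosed Λ G) {h : selfAdjoint A}
    (hh : ∀ ε : ℝ, 0 < ε → ∃ k ∈ lieSet G, n2 Λ ((h : A) - (k : A)) < ε) : h ∈ lieSet G := by
  intro t
  apply hG
  intro ε hε
  obtain ⟨k, hk, hk2⟩ := hh (ε / (|t| + 1)) (by positivity)
  refine ⟨_, hk t, ?_⟩
  rw [expU_coe, expU_coe]
  refine (n2_exp_sub_exp Λ (t • h).2 (t • k).2).trans_lt ?_
  rw [selfAdjoint.val_smul, selfAdjoint.val_smul, ← smul_sub, ← Complex.coe_smul, n2_smul,
    Complex.norm_real, Real.norm_eq_abs]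
  have h1 : |t| * n2 Λ ((h : A) - k) ≤ |t| * (ε / (|t| + 1)) :=
    mul_le_mul_of_nonneg_left hk2.le (abs_nonneg t)
  refine h1.trans_lt ?_
  rw [mul_div_assoc', div_lt_iff₀ (by positivity)]
  nlinarith [abs_nonneg t]

theorem lieSet_conj {G : Subgroup (unitary A)} {h : selfAdjoint A} (hh : h ∈ lieSet G)
    {u : unitary A} (hu : u ∈ G) :
    (⟨(u : A) * h * star (u : A), by
      rw [selfAdjoint.mem_iff, star_mul, star_mul, star_star, h.2.star_eq, mul_assoc]⟩ :
      selfAdjoint A) ∈ lieSet G := by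
  intro t
  have key : selfAdjoint.expUnitary (t • (⟨(u : A) * h * star (u : A), by
      rw [selfAdjoint.mem_iff, star_mul, star_mul, star_star, h.2.star_eq, mul_assoc]⟩ :
      selfAdjoint A)) = u * selfAdjoint.expUnitary (t • h) * u⁻¹ := by
    apply Subtype.ext
    rw [expU_coe]
    rw [Submonoid.coe_mul, Submonoid.coe_mul, expU_coe]
    have : Complex.I • t • ((u : A) * h * star (u : A)) =
        (Unitary.toUnits u : Aˣ) * (Complex.I • t • (h : A)) * ((Unitary.toUnits u)⁻¹ : Aˣ) := by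
      simp
      rfl
    simp only
    rw [this]
    let +nondep : NormedAlgebra ℚ A := .restrictScalars ℚ ℂ A
    rw [exp_units_conj]
    simp
  rw [key]
  exact mul_mem (mul_mem hu (hh t)) (inv_mem hu)

/-- the complexified Lie algebra, a complex subspace of `A` -/
noncomputable def lieV {G : Subgroup (unitary A)} (hG : TwoClosed Λ G) : Submodule ℂ A where
  carrier := {x | realPart x ∈ lieSet G ∧ imaginaryPart x ∈ lieSet G}
  zero_mem' := by simp [lieSet_zero]
  add_mem' := by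
    rintro x y ⟨hx1, hx2⟩ ⟨hy1, hy2⟩
    refine ⟨?_, ?_⟩
    · rw [map_add]; exact lieSet_add Λ hG hx1 hy1
    · rw [map_add]; exact lieSet_add Λ hG hx2 hy2
  smul_mem' := by
    rintro c x ⟨hx1, hx2⟩
    refine ⟨?_, ?_⟩
    · rw [realPart_smul, sub_eq_add_neg]
      exact lieSet_add Λ hG (lieSet_smul hx1 _) (lieSet_neg (lieSet_smul hx2 _))
    · rw [imaginaryPart_smul]
      exact lieSet_add Λ hG (lieSet_smul hx2 _) (lieSet_smul hx1 _)

theorem mem_lieV {G : Subgroup (unitary A)} (hG : TwoClosed Λ G) {x : A} :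
    x ∈ lieV Λ hG ↔ realPart x ∈ lieSet G ∧ imaginaryPart x ∈ lieSet G := Iff.rfl

theorem mem_lieV_of_selfAdjoint {G : Subgroup (unitary A)} (hG : TwoClosed Λ G)
    (x : selfAdjoint A) : (x : A) ∈ lieV Λ hG ↔ x ∈ lieSet G := by
  rw [mem_lieV]
  constructor
  · rintro ⟨h1, -⟩
    convert h1
    simp
  · intro h
    refine ⟨?_, ?_⟩
    · convert h
      simp
    · have : imaginaryPart (x : A) = 0 := by simp
      rw [this]
      exact lieSet_zero G

theorem n2_realPart_le (x : A) : n2 Λ (realPart x : A) ≤ n2 Λ x := by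
  rw [realPart_apply_coe, ← Complex.coe_smul, n2_smul]
  have h := n2_add Λ x (star x)
  rw [n2_star] at h
  have : ‖((2⁻¹ : ℝ) : ℂ)‖ = 2⁻¹ := by simp
  rw [this]
  linarith

theorem n2_imaginaryPart_le (x : A) : n2 Λ (imaginaryPart x : A) ≤ n2 Λ x := by
  rw [imaginaryPart_apply_coe, ← Complex.coe_smul, n2_smul, n2_smul]
  have h := n2_sub Λ x (star x)
  rw [n2_star] at h
  have : ‖((2⁻¹ : ℝ) : ℂ)‖ = 2⁻¹ := by simp
  rw [this, norm_neg, Complex.norm_I]
  linarith

/-- `lieV` is closed in the 2-norm -/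
theorem lieV_closed {G : Subgroup (unitary A)} (hG : TwoClosed Λ G) {x : A}
    (hx : ∀ ε : ℝ, 0 < ε → ∃ y ∈ lieV Λ hG, n2 Λ (x - y) < ε) : x ∈ lieV Λ hG := by
  refine ⟨?_, ?_⟩
  · apply lieSet_closed Λ hG
    intro ε hε
    obtain ⟨y, hy, hy2⟩ := hx ε hε
    refine ⟨_, hy.1, lt_of_le_of_lt ?_ hy2⟩
    rw [← AddSubgroupClass.coe_sub, ← map_sub]
    exact n2_realPart_le Λ _
  · apply lieSet_closed Λ hG
    intro ε hε
    obtain ⟨y, hy, hy2⟩ := hx ε hε
    refine ⟨_, hy.2, lt_of_le_of_lt ?_ hy2⟩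
    rw [← AddSubgroupClass.coe_sub, ← map_sub]
    exact n2_imaginaryPart_le Λ _

theorem lieV_closed_norm {G : Subgroup (unitary A)} (hG : TwoClosed Λ G) :
    IsClosed (lieV Λ hG : Set A) := by
  rw [← isSeqClosed_iff_isClosed]
  intro s x hs hx
  apply lieV_closed
  intro ε hε
  have h := ((continuous_toLin Λ).tendsto _).comp hx
  rw [Metric.tendsto_atTop] at h
  obtain ⟨N, hN⟩ := h ε hε
  refine ⟨s N, hs N, ?_⟩
  have := hN N le_rfl
  rw [dist_eq_norm] at this
  rw [n2_comm]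
  simpa [n2, Function.comp] using this

theorem lieV_conj {G : Subgroup (unitary A)} (hG : TwoClosed Λ G) {x : A}
    (hx : x ∈ lieV Λ hG) {u : unitary A} (hu : u ∈ G) :
    (u : A) * x * star (u : A) ∈ lieV Λ hG := by
  refine ⟨?_, ?_⟩
  · convert lieSet_conj hx.1 hu using 1
    apply Subtype.ext
    simp only [realPart_apply_coe, star_mul, star_star]
    simp only [mul_smul_comm, smul_mul_assoc, mul_add, add_mul, mul_assoc]
  · convert lieSet_conj hx.2 hu using 1
    apply Subtype.ext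
    simp only [imaginaryPart_apply_coe, star_mul, star_star]
    simp only [mul_smul_comm, smul_mul_assoc, mul_sub, sub_mul, mul_assoc]

/-- derivations by elements of the Lie algebra -/
theorem lieV_commutator_sa {G : Subgroup (unitary A)} (hG : TwoClosed Λ G) {x : A}
    (hx : x ∈ lieV Λ hG) {h : selfAdjoint A} (hh : h ∈ lieSet G) :
    (h : A) * x - x * h ∈ lieV Λ hG := by
  -- `n (U x U* - x)` with `U = exp (i h / n)` tends to `i [h, x]`
  set a : A := Complex.I • (h : A) with ha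
  have hmem : ∀ n : ℕ, (n : ℂ) • (exp (((n : ℂ)⁻¹) • a) * x * exp (((n : ℂ)⁻¹) • (-a)) - x)
      ∈ lieV Λ hG := by
    intro n
    apply Submodule.smul_mem
    apply Submodule.sub_mem _ _ hx
    have e1 : ((selfAdjoint.expUnitary (((n : ℝ)⁻¹) • h) : unitary A) : A) =
        exp (((n : ℂ)⁻¹) • a) := by
      rw [expU_coe, ha, smul_comm]
      congr 1
      rw [← Complex.coe_smul ((n : ℝ)⁻¹)]
      push_cast
      rfl
    have e2 : star ((selfAdjoint.expUnitary (((n : ℝ)⁻¹) • h) : unitary A) : A) =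
        exp (((n : ℂ)⁻¹) • (-a)) := by
      rw [e1]
      rw [star_exp]
      congr 1
      rw [star_smul, ha, star_smul, h.2.star_eq]
      simp
    rw [← e1, ← e2]
    exact lieV_conj Λ hG hx (hh _)
  have lim : Tendsto (fun n : ℕ => (n : ℂ) • (exp (((n : ℂ)⁻¹) • a) * x *
      exp (((n : ℂ)⁻¹) • (-a)) - x)) atTop (𝓝 (a * x * 1 + x * (-a))) := by
    have h0 : Tendsto (fun n : ℕ => exp (((n : ℂ)⁻¹) • (-a))) atTop (𝓝 1) := by
      let +nondep : NormedAlgebra ℚ A := .restrictScalars ℚ ℂ A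
      have h1 : Tendsto (fun n : ℕ => ((n : ℂ)⁻¹) • (-a)) atTop (𝓝 ((0:ℂ) • (-a))) :=
        (tendsto_inv_atTop_nhds_zero_nat (𝕜 := ℂ)).smul_const (-a)
      have h2 := (exp_continuous.tendsto _).comp h1
      rwa [zero_smul, exp_zero] at h2
    have h1 := (((tendsto_smul_exp_sub_one a).mul_const x).mul h0).add
      ((tendsto_smul_exp_sub_one (-a)).const_mul x)
    refine h1.congr fun n => ?_
    simp only [smul_mul_assoc, mul_smul_comm, ← smul_add]
    congr 1
    noncomm_ring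
  have hlim := (lieV_closed_norm Λ hG).mem_of_tendsto lim (Eventually.of_forall hmem)
  have e : a * x * 1 + x * (-a) = Complex.I • ((h : A) * x - x * h) := by
    rw [ha, mul_one, smul_mul_assoc, mul_neg, mul_smul_comm, smul_sub, sub_eq_add_neg]
  rw [e] at hlim
  have := Submodule.smul_mem _ (-Complex.I) hlim
  rwa [smul_smul, neg_mul, Complex.I_mul_I, neg_neg, one_smul] at this

theorem lieV_commutator {G : Subgroup (unitary A)} (hG : TwoClosed Λ G) {a x : A}
    (ha : a ∈ lieV Λ hG) (hx : x ∈ lieV Λ hG) : a * x - x * a ∈ lieV Λ hG := by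
  have h1 := lieV_commutator_sa Λ hG hx ha.1
  have h2 := lieV_commutator_sa Λ hG hx ha.2
  have h3 := Submodule.add_mem _ h1 (Submodule.smul_mem _ Complex.I h2)
  convert h3 using 1
  conv_lhs => rw [← realPart_add_I_smul_imaginaryPart a]
  rw [add_mul, mul_add, smul_mul_assoc, mul_smul_comm, smul_sub]
  abel

end Pool.Agent.MPcb31e3
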