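import Pool.Agent.MPcb31e3.Lie

/-!
Topological generation of unitary groups, abstract part, III: the Lie algebra of a closed subgroup
containing the unitaries of a masa is a bimodule over the masa.
-/

namespace Pool.Agent.MPcb31e3

open NormedSpace Filter Topology ComplexStarModule

variable {A K : Type*} [CStarAlgebra A] [NormedAddCommGroup K] [InnerProductSpace ℂ K]

/-- maximal abelian selfadjoint subalgebra: `S' = S = S*` -/
structure IsMasa (S : Set A) : Prop where
  centralizer_eq : Set.centralizer S = S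
  star_mem : ∀ a ∈ S, star a ∈ S

namespace IsMasa

variable {S : Set A}

theorem comm (hS : IsMasa S) {a b : A} (ha : a ∈ S) (hb : b ∈ S) : a * b = b * a := by
  rw [← hS.centralizer_eq] at hb
  exact hb a ha

theorem mem_iff (hS : IsMasa S) {b : A} : b ∈ S ↔ ∀ a ∈ S, a * b = b * a := by
  conv_lhs => rw [← hS.centralizer_eq]
  exact Iff.rfl

theorem one_mem (hS : IsMasa S) : (1 : A) ∈ S := by
  rw [hS.mem_iff]; intro a _; simp

theorem zero_mem (hS : IsMasa S) : (0 : A) ∈ S := by
  rw [hS.mem_iff]; intro a _; simp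

theorem mul_mem (hS : IsMasa S) {a b : A} (ha : a ∈ S) (hb : b ∈ S) : a * b ∈ S := by
  rw [← hS.centralizer_eq] at ha hb ⊢
  exact Set.mul_mem_centralizer ha hb

theorem add_mem (hS : IsMasa S) {a b : A} (ha : a ∈ S) (hb : b ∈ S) : a + b ∈ S := by
  rw [← hS.centralizer_eq] at ha hb ⊢
  exact Set.add_mem_centralizer ha hb

theorem smul_mem (hS : IsMasa S) (c : ℂ) {a : A} (ha : a ∈ S) : c • a ∈ S := by
  rw [hS.mem_iff]; intro b hb
  rw [mul_smul_comm, smul_mul_assoc, hS.comm hb ha]

theorem sub_mem (hS : IsMasa S) {a b : A} (ha : a ∈ S) (hb : b ∈ S) : a - b ∈ S := by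
  rw [hS.mem_iff]; intro c hc
  rw [mul_sub, sub_mul, hS.comm hc ha, hS.comm hc hb]

theorem realPart_mem (hS : IsMasa S) {a : A} (ha : a ∈ S) : (realPart a : A) ∈ S := by
  rw [realPart_apply_coe, ← Complex.coe_smul]
  exact hS.smul_mem _ (hS.add_mem ha (hS.star_mem a ha))

theorem imaginaryPart_mem (hS : IsMasa S) {a : A} (ha : a ∈ S) : (imaginaryPart a : A) ∈ S := by
  rw [imaginaryPart_apply_coe, ← Complex.coe_smul]
  exact hS.smul_mem _ (hS.smul_mem _ (hS.sub_mem ha (hS.star_mem a ha)))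

theorem exp_mem (hS : IsMasa S) {a : A} (ha : a ∈ S) : exp a ∈ S := by
  rw [hS.mem_iff]
  intro b hb
  have h : Commute b a := hS.comm hb ha
  exact h.exp_right

end IsMasa

/-- the commutator -/
def adj (a x : A) : A := a * x - x * a

theorem adj_identity {a b c : A} (hab : b * a = a * b) (hac : c * a = a * c) (hbc : c * b = b * c)
    (x : A) :
    (2 : ℂ) • (a * adj b (adj c x)) = adj (a * b) (adj c x) + adj (a * c) (adj b x)
      - adj (b * c) (adj a x) + adj a (adj b (adj c x)) := by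
  have hab' : ∀ y, b * (a * y) = a * (b * y) := fun y => by rw [← mul_assoc, hab, mul_assoc]
  have hac' : ∀ y, c * (a * y) = a * (c * y) := fun y => by rw [← mul_assoc, hac, mul_assoc]
  have hbc' : ∀ y, c * (b * y) = b * (c * y) := fun y => by rw [← mul_assoc, hbc, mul_assoc]
  rw [two_smul]
  simp only [adj, mul_sub, sub_mul, mul_assoc, hab, hac, hbc, hab', hac', hbc']
  abel

section

variable (Λ : GNSMap A K) {G : Subgroup (unitary A)} (hG : TwoClosed Λ G)
  {S : Set A} (hS : IsMasa S) (hSG : ∀ u : unitary A, (u : A) ∈ S → u ∈ G)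

include hS hSG

theorem masa_sub_lieV {a : A} (ha : a ∈ S) : a ∈ lieV Λ hG := by
  have key : ∀ h : selfAdjoint A, (h : A) ∈ S → h ∈ lieSet G := by
    intro h hh t
    apply hSG
    rw [expU_coe]
    apply hS.exp_mem
    apply hS.smul_mem
    rw [← Complex.coe_smul]
    exact hS.smul_mem _ hh
  exact ⟨key _ (hS.realPart_mem ha), key _ (hS.imaginaryPart_mem ha)⟩

theorem adj_mem {a x : A} (ha : a ∈ S) (hx : x ∈ lieV Λ hG) : adj a x ∈ lieV Λ hG :=
  lieV_commutator Λ hG (masa_sub_lieV Λ hG hS hSG ha) hx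

theorem mul_adj_adj_mem {a b c x : A} (ha : a ∈ S) (hb : b ∈ S) (hc : c ∈ S)
    (hx : x ∈ lieV Λ hG) : a * adj b (adj c x) ∈ lieV Λ hG := by
  have id := adj_identity (hS.comm hb ha) (hS.comm hc ha) (hS.comm hc hb) x
  have AD := fun {a x : A} (ha : a ∈ S) (hx : x ∈ lieV Λ hG) => adj_mem Λ hG hS hSG ha hx
  have h : (2 : ℂ) • (a * adj b (adj c x)) ∈ lieV Λ hG := by
    rw [id]
    refine Submodule.add_mem _ (Submodule.sub_mem _ (Submodule.add_mem _ ?_ ?_) ?_) ?_
    · exact AD (hS.mul_mem ha hb) (AD hc hx)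
    · exact AD (hS.mul_mem ha hc) (AD hb hx)
    · exact AD (hS.mul_mem hb hc) (AD ha hx)
    · exact AD ha (AD hb (AD hc hx))
  have := Submodule.smul_mem _ ((2 : ℂ)⁻¹) h
  rwa [smul_smul, inv_mul_cancel₀ two_ne_zero, one_smul] at this

omit hS hSG

/-- elements `x` with `S x S ⊆ V` -/
noncomputable def bimod (S : Set A) : Submodule ℂ A where
  carrier := {x | ∀ a ∈ S, ∀ b ∈ S, a * x * b ∈ lieV Λ hG}
  zero_mem' := by intro a _ b _; simp
  add_mem' := by
    intro x y hx hy a ha b hb
    rw [mul_add, add_mul]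
    exact Submodule.add_mem _ (hx a ha b hb) (hy a ha b hb)
  smul_mem' := by
    intro c x hx a ha b hb
    rw [mul_smul_comm, smul_mul_assoc]
    exact Submodule.smul_mem _ _ (hx a ha b hb)

theorem mem_bimod {x : A} : x ∈ bimod Λ hG S ↔ ∀ a ∈ S, ∀ b ∈ S, a * x * b ∈ lieV Λ hG := Iff.rfl

theorem bimod_closed {x : A} (hx : ∀ ε : ℝ, 0 < ε → ∃ y ∈ bimod Λ hG S, n2 Λ (x - y) < ε) :
    x ∈ bimod Λ hG S := by
  intro a ha b hb
  apply lieV_closed
  intro ε hε
  obtain ⟨y, hy, hy2⟩ := hx (ε / (‖a‖ * ‖b‖ + 1)) (by positivity)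
  refine ⟨a * y * b, hy a ha b hb, ?_⟩
  rw [← sub_mul, ← mul_sub]
  refine (n2_mul_right Λ _ _).trans_lt ?_
  have h1 := n2_mul_left Λ a (x - y)
  have h2 : ‖b‖ * n2 Λ (a * (x - y)) ≤ ‖b‖ * (‖a‖ * n2 Λ (x - y)) :=
    mul_le_mul_of_nonneg_left h1 (norm_nonneg _)
  refine h2.trans_lt ?_
  have h3 : ‖b‖ * (‖a‖ * n2 Λ (x - y)) ≤ (‖a‖ * ‖b‖) * (ε / (‖a‖ * ‖b‖ + 1)) := by
    have : ‖b‖ * (‖a‖ * n2 Λ (x - y)) = (‖a‖ * ‖b‖) * n2 Λ (x - y) := by ring
    rw [this]
    exact mul_le_mul_of_nonneg_left hy2.le (by positivity)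
  refine h3.trans_lt ?_
  rw [mul_div_assoc', div_lt_iff₀ (by positivity)]
  nlinarith [mul_nonneg (norm_nonneg a) (norm_nonneg b)]

include hS hSG in
theorem masa_sub_bimod {a : A} (ha : a ∈ S) : a ∈ bimod Λ hG S := by
  intro b hb c hc
  exact masa_sub_lieV Λ hG hS hSG (hS.mul_mem (hS.mul_mem hb ha) hc)

include hS in
theorem bimod_mul {x a b : A} (hx : x ∈ bimod Λ hG S) (ha : a ∈ S) (hb : b ∈ S) :
    a * x * b ∈ bimod Λ hG S := by
  intro c hc d hd
  have := hx (c * a) (hS.mul_mem hc ha) (b * d) (hS.mul_mem hb hd)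
  simpa only [mul_assoc] using this

include hS hSG in
theorem sub_conj_sub_conj_mem {u : unitary A} (hu : (u : A) ∈ S) {x : A} (hx : x ∈ lieV Λ hG) :
    (x - u * x * star (u : A)) - u * (x - u * x * star (u : A)) * star (u : A)
      ∈ bimod Λ hG S := by
  intro a ha b hb
  have hus : star (u : A) ∈ S := hS.star_mem _ hu
  set d : A := star (u : A) * star (u : A) * b with hd
  have hdS : d ∈ S := hS.mul_mem (hS.mul_mem hus hus) hb
  set Z : A := adj (u : A) (adj (u : A) x) with hZ
  have h1 : (u : A) * star (u : A) = 1 := (Unitary.mem_iff.1 u.2).2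
  have h2 : star (u : A) * (u : A) = 1 := (Unitary.mem_iff.1 u.2).1
  have e0 : (x - u * x * star (u : A)) - u * (x - u * x * star (u : A)) * star (u : A) =
      Z * (star (u : A) * star (u : A)) := by
    have h1' : ∀ y, (u : A) * (star (u : A) * y) = y := fun y => by rw [← mul_assoc, h1, one_mul]
    simp only [hZ, adj, sub_mul, mul_sub, mul_assoc, h1', h1, mul_one]
    abel
  have e1 : a * ((x - u * x * star (u : A)) - u * (x - u * x * star (u : A)) * star (u : A)) * b =
      (a * d) * Z - a * adj d Z := by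
    rw [e0, hd]
    simp only [adj, mul_sub, mul_assoc]
    abel
  rw [e1]
  apply Submodule.sub_mem
  · exact mul_adj_adj_mem Λ hG hS hSG (hS.mul_mem ha hdS) hu hu hx
  · rw [hZ]
    exact mul_adj_adj_mem Λ hG hS hSG ha hdS hu (adj_mem Λ hG hS hSG hu hx)

include hS hSG in
theorem sub_conj_mem {u : unitary A} (hu : (u : A) ∈ S) {x : A} (hx : x ∈ lieV Λ hG) :
    x - u * x * star (u : A) ∈ bimod Λ hG S := by
  set T : A → A := fun y => u * y * star (u : A) with hT
  have hus : star (u : A) ∈ S := hS.star_mem _ hu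
  set D : A := x - T x with hD
  have hTW : ∀ y ∈ bimod Λ hG S, T y ∈ bimod Λ hG S := fun y hy => bimod_mul Λ hG hS hy hu hus
  have hDW : D - T D ∈ bimod Λ hG S := sub_conj_sub_conj_mem Λ hG hS hSG hu hx
  have hTsub : ∀ y z, T (y - z) = T y - T z := fun y z => by simp only [hT, mul_sub, sub_mul]
  have hTadd : ∀ y z, T (y + z) = T y + T z := fun y z => by simp only [hT, mul_add, add_mul]
  have hTsmul : ∀ (c : ℂ) y, T (c • y) = c • T y := fun c y => by
    simp only [hT, mul_smul_comm, smul_mul_assoc]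
  have hTn2 : ∀ y, n2 Λ (T y) = n2 Λ y := fun y => by
    simp only [hT]
    rw [n2_mul_unitary Λ (Unitary.star_mem u.2), n2_unitary_mul Λ u.2]
  have hDk : ∀ k : ℕ, D - T^[k] D ∈ bimod Λ hG S := by
    intro k
    induction k with
    | zero => simp
    | succ k ih =>
      rw [Function.iterate_succ_apply']
      have h0 := hTsub D (T^[k] D)
      have : D - T (T^[k] D) = (D - T D) + T (D - T^[k] D) := by
        rw [h0]; exact (sub_add_sub_cancel _ _ _).symm
      rw [this]
      exact Submodule.add_mem _ hDW (hTW _ ih)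
  have hsum : ∀ n : ℕ, (n : ℂ) • D - (x - T^[n] x) ∈ bimod Λ hG S := by
    intro n
    induction n with
    | zero => simp
    | succ n ih =>
      have h1 : T^[n + 1] x = T^[n] x - T^[n] D := by
        have : ∀ m : ℕ, ∀ y z, T^[m] (y - z) = T^[m] y - T^[m] z := by
          intro m
          induction m with
          | zero => intro y z; rfl
          | succ m ihm => intro y z; rw [Function.iterate_succ_apply, hTsub, ihm]; rfl
        rw [Function.iterate_succ_apply, hD, this]
        abel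
      have h2 : ((n + 1 : ℕ) : ℂ) • D - (x - T^[n + 1] x) =
          ((n : ℂ) • D - (x - T^[n] x)) + (D - T^[n] D) := by
        rw [h1]
        push_cast
        rw [add_smul, one_smul]
        abel
      rw [h2]
      exact Submodule.add_mem _ ih (hDk n)
  have hn2T : ∀ n : ℕ, n2 Λ (T^[n] x) = n2 Λ x := by
    intro n
    induction n with
    | zero => rfl
    | succ n ih => rw [Function.iterate_succ_apply', hTn2, ih]
  apply bimod_closed
  intro ε hε
  obtain ⟨n, hn⟩ := exists_nat_gt (2 * n2 Λ x / ε)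
  have hn0 : 0 < (n : ℝ) := lt_of_le_of_lt (by have := n2_nonneg Λ x; positivity) hn
  have hn0' : (n : ℂ) ≠ 0 := by
    have : (n : ℝ) ≠ 0 := hn0.ne'
    exact_mod_cast this
  refine ⟨((n : ℂ)⁻¹) • ((n : ℂ) • D - (x - T^[n] x)), Submodule.smul_mem _ _ (hsum n), ?_⟩
  have e : D - ((n : ℂ)⁻¹) • ((n : ℂ) • D - (x - T^[n] x)) = ((n : ℂ)⁻¹) • (x - T^[n] x) := by
    rw [smul_sub, smul_smul, inv_mul_cancel₀ hn0', one_smul]
    abel
  rw [e, n2_smul]
  have h3 : n2 Λ (x - T^[n] x) ≤ 2 * n2 Λ x := by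
    refine (n2_sub Λ _ _).trans ?_
    rw [hn2T]; linarith
  have h4 : ‖((n : ℂ)⁻¹)‖ = (n : ℝ)⁻¹ := by simp
  rw [h4]
  have h5 : (n : ℝ)⁻¹ * n2 Λ (x - T^[n] x) ≤ (n : ℝ)⁻¹ * (2 * n2 Λ x) :=
    mul_le_mul_of_nonneg_left h3 (by positivity)
  refine h5.trans_lt ?_
  rw [inv_mul_lt_iff₀ hn0]
  rwa [div_lt_iff₀ hε] at hn

end

section CondExp

variable (Λ : GNSMap A K) {S : Set A} (hS : IsMasa S)

include hS in
/-- an element commuting with all unitaries of a masa lies in the masa -/
theorem IsMasa.mem_of_commute_unitary {y : A}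
    (hy : ∀ u : unitary A, (u : A) ∈ S → (u : A) * y = y * u) : y ∈ S := by
  have hsa : ∀ h : selfAdjoint A, (h : A) ∈ S → (h : A) * y = y * h := by
    intro h hh
    have lim := tendsto_smul_exp_sub_one (Complex.I • (h : A))
    have hc : ∀ n : ℕ, ((n : ℂ) • (exp (((n : ℂ)⁻¹) • (Complex.I • (h : A))) - 1)) * y =
        y * ((n : ℂ) • (exp (((n : ℂ)⁻¹) • (Complex.I • (h : A))) - 1)) := by
      intro n
      have hu : exp (((n : ℂ)⁻¹) • (Complex.I • (h : A))) * y =
          y * exp (((n : ℂ)⁻¹) • (Complex.I • (h : A))) :=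
        hy ⟨_, exp_inv_mem_unitary h.2 n⟩ (hS.exp_mem (hS.smul_mem _ (hS.smul_mem _ hh)))
      rw [smul_mul_assoc, mul_smul_comm, sub_mul, mul_sub, hu, one_mul, mul_one]
    have l1 := lim.mul_const y
    have l2 := lim.const_mul y
    have l3 := tendsto_nhds_unique (l1.congr hc) l2
    rw [smul_mul_assoc, mul_smul_comm] at l3
    exact smul_right_injective A Complex.I_ne_zero l3
  rw [hS.mem_iff]
  intro a ha
  have h1 := hsa _ (hS.realPart_mem ha)
  have h2 := hsa _ (hS.imaginaryPart_mem ha)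
  conv_lhs => rw [← realPart_add_I_smul_imaginaryPart a]
  conv_rhs => rw [← realPart_add_I_smul_imaginaryPart a]
  rw [add_mul, mul_add, smul_mul_assoc, mul_smul_comm, h1, h2]

include hS in
/-- the 2-norm closed convex hull of `{u x u*}` meets the masa -/
theorem exists_condExp (hinj : ∀ x, Λ.toLin x = 0 → x = 0)
    (hcomp : ∀ r : ℝ, IsComplete (Λ.toLin '' {x : A | ‖x‖ ≤ r})) (x : A) :
    ∃ y ∈ S, ∀ ε : ℝ, 0 < ε → ∃ z ∈ convexHull ℝ
      {z : A | ∃ u : unitary A, (u : A) ∈ S ∧ z = u * x * star (u : A)}, n2 Λ (y - z) < ε := by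
  let : InnerProductSpace ℝ K := InnerProductSpace.rclikeToReal ℂ K
  set O : Set A := {z : A | ∃ u : unitary A, (u : A) ∈ S ∧ z = u * x * star (u : A)} with hO
  set B : Set A := {y : A | ‖y‖ ≤ ‖x‖} with hB
  have hBconv : Convex ℝ B := by
    have : B = Metric.closedBall (0 : A) ‖x‖ := by ext y; simp [hB]
    rw [this]
    exact convex_closedBall _ _
  have hOB : convexHull ℝ O ⊆ B := by
    apply convexHull_min _ hBconv
    rintro z ⟨u, hu, rfl⟩
    simp only [hB, Set.mem_ofPred_eq]
    refine (norm_mul_le _ _).trans ?_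
    have h1 : ‖(u : A) * x‖ ≤ ‖x‖ := by
      refine (norm_mul_le _ _).trans ?_
      have := norm_unitary_le _ u.2
      nlinarith [norm_nonneg x]
    have h2 := norm_unitary_le _ (Unitary.star_mem u.2)
    nlinarith [norm_nonneg ((u : A) * x), norm_nonneg (star (u : A)), norm_nonneg x]
  let LR : A →ₗ[ℝ] K := Λ.toLin.restrictScalars ℝ
  set C : Set K := closure (Λ.toLin '' convexHull ℝ O) ∩ Λ.toLin '' B with hC
  have hCcomp : IsComplete C := by
    intro f hf hfC
    rw [le_principal_iff] at hfC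
    obtain ⟨w, hw, hfw⟩ := hcomp ‖x‖ f hf
      (le_principal_iff.2 (Filter.mem_of_superset hfC Set.inter_subset_right))
    refine ⟨w, ⟨?_, hw⟩, hfw⟩
    have : f.NeBot := hf.1
    exact isClosed_closure.mem_of_tendsto (f := id) (b := f) hfw
      (Filter.mem_of_superset hfC Set.inter_subset_left)
  have hCconv : Convex ℝ C := by
    apply Convex.inter
    · apply Convex.closure
      exact (convex_convexHull ℝ O).linear_image LR
    · exact hBconv.linear_image LR
  have hxO : x ∈ O := ⟨1, by simpa using hS.one_mem, by simp⟩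
  have hCne : C.Nonempty :=
    ⟨Λ.toLin x, subset_closure ⟨x, subset_convexHull ℝ O hxO, rfl⟩, ⟨x, le_refl ‖x‖, rfl⟩⟩
  obtain ⟨v, hvC, hvmin⟩ := exists_norm_eq_iInf_of_complete_convex hCne hCcomp hCconv 0
  have hinner := (norm_eq_iInf_iff_real_inner_le_zero hCconv hvC).1 hvmin
  obtain ⟨hv1, y, hyB, hyv⟩ := hvC
  refine ⟨y, ?_, ?_⟩
  · apply hS.mem_of_commute_unitary
    intro u hu
    -- the conjugate lies in `C`
    have hw : Λ.toLin (u * y * star (u : A)) ∈ C := by
      constructor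
      · rw [Metric.mem_closure_iff]
        intro ε hε
        rw [Metric.mem_closure_iff] at hv1
        obtain ⟨_, ⟨z, hz, rfl⟩, hz2⟩ := hv1 ε hε
        refine ⟨Λ.toLin (u * z * star (u : A)), ⟨_, ?_, rfl⟩, ?_⟩
        · -- convex hull is invariant
          let TT : A →ₗ[ℝ] A :=
            { toFun := fun y => u * y * star (u : A)
              map_add' := fun y z => by simp only [mul_add, add_mul]
              map_smul' := fun c y => by
                simp only [mul_smul_comm, smul_mul_assoc, RingHom.id_apply] }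
          have h1 : TT '' (convexHull ℝ O) = convexHull ℝ (TT '' O) := TT.image_convexHull O
          have h2 : TT '' O ⊆ O := by
            rintro _ ⟨_, ⟨w, hw, rfl⟩, rfl⟩
            refine ⟨u * w, ?_, ?_⟩
            · exact hS.mul_mem hu hw
            · simp only [TT, LinearMap.coe_mk, AddHom.coe_mk, Submonoid.coe_mul, star_mul, mul_assoc]
          have h3 : TT z ∈ TT '' (convexHull ℝ O) := ⟨z, hz, rfl⟩
          rw [h1] at h3
          exact convexHull_mono h2 h3
        · rw [dist_eq_norm, ← map_sub, ← sub_mul, ← mul_sub]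
          have := n2_mul_unitary Λ (Unitary.star_mem u.2) ((u : A) * (y - z))
          rw [n2_unitary_mul Λ u.2] at this
          simp only [n2] at this
          rw [this, map_sub, hyv, ← dist_eq_norm]
          exact hz2
      · refine ⟨_, ?_, rfl⟩
        simp only [hB, Set.mem_ofPred_eq] at hyB ⊢
        refine (norm_mul_le _ _).trans ?_
        have h1 : ‖(u : A) * y‖ ≤ ‖x‖ := by
          refine (norm_mul_le _ _).trans ?_
          have := norm_unitary_le _ u.2
          nlinarith [norm_nonneg y, norm_nonneg (u : A)]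
        have h2 := norm_unitary_le _ (Unitary.star_mem u.2)
        nlinarith [norm_nonneg ((u : A) * y), norm_nonneg (star (u : A)), norm_nonneg x]
    have h1 := hinner _ hw
    have hnorm : ‖Λ.toLin (u * y * star (u : A))‖ = ‖v‖ := by
      have := n2_mul_unitary Λ (Unitary.star_mem u.2) ((u : A) * y)
      rw [n2_unitary_mul Λ u.2] at this
      simp only [n2] at this
      rw [this, hyv]
    set w := Λ.toLin (u * y * star (u : A)) with hwdef
    have h2 : ‖w - v‖ ^ 2 ≤ 0 := by
      have e := @norm_sub_sq_real K _ _ w v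
      rw [zero_sub, inner_neg_left, inner_sub_right, real_inner_self_eq_norm_sq] at h1
      rw [e, hnorm, real_inner_comm]
      nlinarith
    have h3 : w = v := by
      have : ‖w - v‖ = 0 := by nlinarith [norm_nonneg (w - v), sq_nonneg ‖w - v‖]
      exact sub_eq_zero.1 (norm_eq_zero.1 this)
    have h4 : u * y * star (u : A) - y = 0 := by
      apply hinj
      rw [map_sub, ← hwdef, h3, hyv, sub_self]
    have h5 : (u : A) * y * star (u : A) = y := sub_eq_zero.1 h4
    calc (u : A) * y = (u : A) * y * (star (u : A) * u) := by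
          rw [(Unitary.mem_iff.1 u.2).1, mul_one]
      _ = ((u : A) * y * star (u : A)) * u := by rw [← mul_assoc]
      _ = y * u := by rw [h5]
  · intro ε hε
    rw [← hyv, Metric.mem_closure_iff] at hv1
    obtain ⟨_, ⟨z, hz, rfl⟩, hz2⟩ := hv1 ε hε
    refine ⟨z, hz, ?_⟩
    rw [dist_eq_norm, ← map_sub] at hz2
    exact hz2

end CondExp

/-- **Main lemma**: the Lie algebra of a closed subgroup containing `U(S)` is an `S`-bimodule. -/
theorem lieV_bimodule (Λ : GNSMap A K) (hinj : ∀ x, Λ.toLin x = 0 → x = 0)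
    (hcomp : ∀ r : ℝ, IsComplete (Λ.toLin '' {x : A | ‖x‖ ≤ r}))
    {G : Subgroup (unitary A)} (hG : TwoClosed Λ G)
    {S : Set A} (hS : IsMasa S) (hSG : ∀ u : unitary A, (u : A) ∈ S → u ∈ G)
    {x : A} (hx : x ∈ lieV Λ hG) : x ∈ bimod Λ hG S := by
  obtain ⟨y, hyS, hy⟩ := exists_condExp Λ hS hinj hcomp x
  have h1 : x - y ∈ bimod Λ hG S := by
    apply bimod_closed
    intro ε hε
    obtain ⟨z, hz, hz2⟩ := hy ε hε
    refine ⟨x - z, ?_, ?_⟩
    · have hconv : Convex ℝ {z : A | x - z ∈ bimod Λ hG S} := by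
        intro p hp q hq a b ha hb hab
        simp only [Set.mem_ofPred_eq] at hp hq ⊢
        have e : x - (a • p + b • q) = (a : ℂ) • (x - p) + (b : ℂ) • (x - q) := by
          rw [Complex.coe_smul, Complex.coe_smul, smul_sub, smul_sub]
          have : x = a • x + b • x := by rw [← add_smul, hab, one_smul]
          conv_lhs => rw [this]
          abel
        rw [e]
        exact Submodule.add_mem _ (Submodule.smul_mem _ _ hp) (Submodule.smul_mem _ _ hq)
      have hsub : {z : A | ∃ u : unitary A, (u : A) ∈ S ∧ z = u * x * star (u : A)} ⊆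
          {z : A | x - z ∈ bimod Λ hG S} := by
        rintro _ ⟨u, hu, rfl⟩
        exact sub_conj_mem Λ hG hS hSG hu hx
      exact convexHull_min hsub hconv hz
    · have : x - y - (x - z) = z - y := by abel
      rw [this, n2_comm]
      exact hz2
  have h2 := Submodule.add_mem _ h1 (masa_sub_bimod Λ hG hS hSG hyS)
  rwa [sub_add_cancel] at h2

theorem lieV_mul_left (Λ : GNSMap A K) (hinj : ∀ x, Λ.toLin x = 0 → x = 0)
    (hcomp : ∀ r : ℝ, IsComplete (Λ.toLin '' {x : A | ‖x‖ ≤ r}))
    {G : Subgroup (unitary A)} (hG : TwoClosed Λ G)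
    {S : Set A} (hS : IsMasa S) (hSG : ∀ u : unitary A, (u : A) ∈ S → u ∈ G)
    {x a : A} (hx : x ∈ lieV Λ hG) (ha : a ∈ S) : a * x ∈ lieV Λ hG := by
  have := lieV_bimodule Λ hinj hcomp hG hS hSG hx a ha 1 hS.one_mem
  rwa [mul_one] at this

end Pool.Agent.MPcb31e3
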