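import Pool.Agent.MPcb31e3.Ranks

/-!
Topological generation of unitary groups: McDuff algebras.
-/

namespace Pool.Agent.MPcb31e3

open NormedSpace Filter Topology ComplexStarModule
open scoped Real ENNReal Cardinal

variable {H : Type*} [NormedAddCommGroup H] [InnerProductSpace ℂ H] [CompleteSpace H]

/-- A sequence of commuting systems of `2 × 2` matrix units in `M`, encoded by the projections
`f k = e₁₁⁽ᵏ⁾` and the flips `u k = e₁₂⁽ᵏ⁾ + e₂₁⁽ᵏ⁾`. -/
structure MatrixSystem (M : VonNeumannAlgebra H) (f u : ℕ → H →L[ℂ] H) : Prop where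
  f_mem : ∀ k, f k ∈ (M : Set (H →L[ℂ] H))
  u_mem : ∀ k, u k ∈ (M : Set (H →L[ℂ] H))
  f_star : ∀ k, star (f k) = f k
  f_idem : ∀ k, f k * f k = f k
  u_star : ∀ k, star (u k) = u k
  u_sq : ∀ k, u k * u k = 1
  flip : ∀ k, u k * f k * u k = 1 - f k
  comm_ff : ∀ j k, j ≠ k → f j * f k = f k * f j
  comm_fu : ∀ j k, j ≠ k → f j * u k = u k * f j
  comm_uu : ∀ j k, j ≠ k → u j * u k = u k * u j

/-- the product of `1 - f k` for `m ≤ k < m + i` -/
noncomputable def wprod (f : ℕ → H →L[ℂ] H) : ℕ → ℕ → (H →L[ℂ] H)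
  | _, 0 => 1
  | m, i + 1 => (1 - f m) * wprod f (m + 1) i

theorem wprod_succ (f : ℕ → H →L[ℂ] H) (m i : ℕ) :
    wprod f m (i + 1) = (1 - f m) * wprod f (m + 1) i := rfl

/-- an operator commuting with `f k`, `k ≥ m`, commutes with `wprod f m i` -/
theorem commute_wprod {f : ℕ → H →L[ℂ] H} {x : H →L[ℂ] H} (i : ℕ) :
    ∀ m : ℕ, (∀ k, m ≤ k → Commute x (f k)) → Commute x (wprod f m i) := by
  induction i with
  | zero => intro m _; exact Commute.one_right x
  | succ i ih =>
    intro m hx
    rw [wprod_succ]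
    apply Commute.mul_right
    · exact (Commute.one_right x).sub_right (hx m le_rfl)
    · exact ih (m + 1) (fun k hk => hx k (by omega))

namespace MatrixSystem

variable {M : VonNeumannAlgebra H} {f u : ℕ → H →L[ℂ] H} (hs : MatrixSystem M f u)
include hs

theorem comm_ff' (j k : ℕ) : Commute (f j) (f k) := by
  by_cases h : j = k
  · rw [h]
  · exact hs.comm_ff j k h

theorem f_wprod (i : ℕ) : ∀ m j : ℕ, j < i → f (m + j) * wprod f m i = 0 := by
  induction i with
  | zero => intro m j hj; omega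
  | succ i ih =>
    intro m j hj
    rw [wprod_succ]
    rcases Nat.eq_zero_or_pos j with h | h
    · subst h
      rw [add_zero, ← mul_assoc, mul_sub, mul_one, hs.f_idem, sub_self, zero_mul]
    · obtain ⟨j', rfl⟩ : ∃ j', j = j' + 1 := ⟨j - 1, by omega⟩
      have h1 := ih (m + 1) j' (by omega)
      have h2 : m + 1 + j' = m + (j' + 1) := by omega
      rw [h2] at h1
      have h3 : Commute (f (m + (j' + 1))) (1 - f m) :=
        (Commute.one_right _).sub_right (hs.comm_ff' _ _)
      rw [← mul_assoc, h3.eq, mul_assoc, h1, mul_zero]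

/-- recovering `a f_{m+i}` -/
theorem recover {N : VonNeumannAlgebra H} (hu : ∀ k, u k ∈ (N : Set (H →L[ℂ] H)))
    {a : H →L[ℂ] H} (hau : ∀ k, Commute a (u k)) (i : ℕ) :
    ∀ m : ℕ, a * (wprod f m i * f (m + i)) ∈ (N : Set (H →L[ℂ] H)) →
      a * f (m + i) ∈ (N : Set (H →L[ℂ] H)) := by
  induction i with
  | zero => intro m hm; simpa [wprod] using hm
  | succ i ih =>
    intro m hm
    have e0 : m + (i + 1) = m + 1 + i := by omega
    rw [e0] at hm ⊢
    rw [wprod_succ] at hm
    set Y : H →L[ℂ] H := wprod f (m + 1) i * f (m + 1 + i) with hY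
    have hm' : a * ((1 - f m) * Y) ∈ (N : Set (H →L[ℂ] H)) := by
      rw [hY, ← mul_assoc (1 - f m)]; exact hm
    apply ih (m + 1)
    rw [← hY]
    have hYu : Commute (u m) Y := by
      apply Commute.mul_right
      · exact commute_wprod i (m + 1) (fun k hk => (hs.comm_fu k m (by omega)).symm)
      · exact (hs.comm_fu (m + 1 + i) m (by omega)).symm
    have e1 : u m * (1 - f m) * u m = f m := by
      rw [mul_sub, sub_mul, mul_one, hs.u_sq, hs.flip, sub_sub_cancel]
    have e2 : u m * (a * ((1 - f m) * Y)) * u m = a * (f m * Y) := by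
      calc u m * (a * ((1 - f m) * Y)) * u m
          = (u m * a) * (1 - f m) * (Y * u m) := by simp only [mul_assoc]
        _ = (a * u m) * (1 - f m) * (u m * Y) := by rw [(hau m).symm.eq, hYu.symm.eq]
        _ = a * ((u m * (1 - f m) * u m) * Y) := by simp only [mul_assoc]
        _ = a * (f m * Y) := by rw [e1]
    have e3 : a * Y = a * ((1 - f m) * Y) + u m * (a * ((1 - f m) * Y)) * u m := by
      rw [e2, ← mul_add, ← add_mul, sub_add_cancel, one_mul]
    rw [e3]
    exact add_mem (S := VonNeumannAlgebra H) (s := N) hm'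
      (mul_mem (S := VonNeumannAlgebra H) (s := N)
        (mul_mem (S := VonNeumannAlgebra H) (s := N) (hu m) hm') (hu m))

theorem recover' {N : VonNeumannAlgebra H} (hu : ∀ k, u k ∈ (N : Set (H →L[ℂ] H)))
    {a : H →L[ℂ] H} (hau : ∀ k, Commute a (u k)) (n : ℕ)
    (h : a * (wprod f 0 n * f n) ∈ (N : Set (H →L[ℂ] H))) : a ∈ (N : Set (H →L[ℂ] H)) := by
  have h1 : a * f n ∈ (N : Set (H →L[ℂ] H)) := by
    have := hs.recover hu hau n 0 (by simpa using h)
    simpa using this
  have e : a = a * f n + u n * (a * f n) * u n := by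
    have e1 : u n * (a * f n) * u n = a * (1 - f n) := by
      calc u n * (a * f n) * u n = (u n * a) * f n * u n := by simp only [mul_assoc]
        _ = (a * u n) * f n * u n := by rw [(hau n).symm.eq]
        _ = a * (u n * f n * u n) := by simp only [mul_assoc]
        _ = a * (1 - f n) := by rw [hs.flip]
    rw [e1, ← mul_add, add_sub_cancel, mul_one]
  rw [e]
  exact add_mem (S := VonNeumannAlgebra H) (s := N) h1
    (mul_mem (S := VonNeumannAlgebra H) (s := N)
      (mul_mem (S := VonNeumannAlgebra H) (s := N) (hu n) h1) (hu n))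

end MatrixSystem

/-- **McDuff algebras.**  If `M` (with a faithful normal tracial state, on a separable space) is
generated by a sequence of commuting `2 × 2` matrix unit systems and their relative commutant,
then `U(M)` is topologically generated by two unitaries. -/
theorem topGenerates_mcDuff [TopologicalSpace.SeparableSpace H] (M : VonNeumannAlgebra H)
    {ξ : ℕ → H} (hξ : IsTracialState M ξ) {f u : ℕ → H →L[ℂ] H} (hs : MatrixSystem M f u)
    (hgen : Generates M (Set.range f ∪ Set.range u ∪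
      {x | x ∈ (M : Set (H →L[ℂ] H)) ∧ ∀ k, x * f k = f k * x ∧ x * u k = u k * x})) :
    ∃ h : Bool → selfAdjoint M.toStarSubalgebra,
      TopGenerates M (Set.range fun i => phi M (selfAdjoint.expUnitary (h i))) := by
  classical
  -- a dense sequence in the unitary group of the relative commutant
  set U₀ : Set (unitary M.toStarSubalgebra) := {w | ∀ k,
    ((w : M.toStarSubalgebra) : H →L[ℂ] H) * f k = f k * (w : M.toStarSubalgebra) ∧
    ((w : M.toStarSubalgebra) : H →L[ℂ] H) * u k = u k * (w : M.toStarSubalgebra)} with hU₀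
  have hsep : TopologicalSpace.IsSeparable
      ((fun w : unitary M.toStarSubalgebra => (gns M hξ).toLin (w : M.toStarSubalgebra)) '' U₀) :=
    (gns_separable M hξ).mono (by rintro _ ⟨w, -, rfl⟩; exact ⟨_, rfl⟩)
  obtain ⟨t, htsub, htc, htd⟩ := hsep.exists_countable_dense_subset
  have h1U₀ : (1 : unitary M.toStarSubalgebra) ∈ U₀ := by
    intro k
    constructor
    · change (1 : H →L[ℂ] H) * f k = f k * 1
      rw [one_mul, mul_one]
    · change (1 : H →L[ℂ] H) * u k = u k * 1
      rw [one_mul, mul_one]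
  have htne : t.Nonempty := by
    by_contra hne
    rw [Set.not_nonempty_iff_eq_empty] at hne
    have := htd ⟨1, h1U₀, rfl⟩
    rw [hne, closure_empty] at this
    exact this
  obtain ⟨v, hv⟩ := htc.exists_eq_range htne
  have hw : ∀ n, ∃ w ∈ U₀, (gns M hξ).toLin (w : M.toStarSubalgebra) = v n := by
    intro n
    have : v n ∈ t := by rw [hv]; exact ⟨n, rfl⟩
    obtain ⟨w, hw, hw2⟩ := htsub this
    exact ⟨w, hw, hw2⟩
  choose w hwU hwv using hw
  set a : ℕ → H →L[ℂ] H := fun n => ((w n : M.toStarSubalgebra) : H →L[ℂ] H) with ha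
  have haM : ∀ n, a n ∈ (M : Set (H →L[ℂ] H)) := fun n => (w n : M.toStarSubalgebra).2
  have haf : ∀ n k, Commute (a n) (f k) := fun n k => (hwU n k).1
  have hau : ∀ n k, Commute (a n) (u k) := fun n k => (hwU n k).2
  have hasf : ∀ n k, Commute (star (a n)) (f k) := by
    intro n k
    have := congrArg star (haf n k).eq
    rw [star_mul, star_mul, hs.f_star] at this
    exact this.symm
  set p : ℕ → H →L[ℂ] H := fun n => wprod f 0 n * f n with hp
  -- `f`-words
  have hwf : ∀ n j, Commute (f j) (wprod f 0 n) := fun n j =>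
    commute_wprod n 0 (fun k _ => hs.comm_ff' j k)
  have hpf : ∀ n j, Commute (f j) (p n) := fun n j =>
    Commute.mul_right (hwf n j) (hs.comm_ff' j n)
  have hap : ∀ n m, Commute (a n) (p m) := fun n m =>
    Commute.mul_right (commute_wprod m 0 (fun k _ => haf n k)) (haf n m)
  have hasp : ∀ n m, Commute (star (a n)) (p m) := fun n m =>
    Commute.mul_right (commute_wprod m 0 (fun k _ => hasf n k)) (hasf n m)
  have hstar_w : ∀ i m, star (wprod f m i) = wprod f m i := by
    intro i
    induction i with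
    | zero => intro m; exact star_one _
    | succ i ih =>
      intro m
      rw [wprod_succ, star_mul, ih, star_sub, star_one, hs.f_star]
      have h1 : Commute (f m) (wprod f (m + 1) i) :=
        commute_wprod i (m + 1) (fun k _ => hs.comm_ff' m k)
      exact ((Commute.one_left _).sub_left h1).symm.eq
  have hpstar : ∀ n, star (p n) = p n := by
    intro n
    simp only [hp]
    rw [star_mul, hstar_w, hs.f_star]
    exact hwf n n
  have hpp : ∀ n m, n ≠ m → p n * p m = 0 := by
    have key : ∀ n m, n < m → p n * p m = 0 := by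
      intro n m hnm
      have h1 := hs.f_wprod m 0 n hnm
      rw [zero_add] at h1
      simp only [hp]
      rw [mul_assoc, ← mul_assoc (f n), h1, zero_mul, mul_zero]
    intro n m hnm
    rcases lt_or_gt_of_ne hnm with h | h
    · exact key n m h
    · have h1 := key m n h
      have h2 := congrArg star h1
      rwa [star_mul, hpstar, hpstar, star_zero] at h2
  -- the two abelian sets
  set C : Bool → Set (H →L[ℂ] H) := fun b => cond b
    (Set.range f ∪ Set.range (fun n => a n * p n) ∪ Set.range (fun n => star (a n) * p n))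
    (Set.range u) with hC
  have hpM : ∀ n, p n ∈ (M : Set (H →L[ℂ] H)) := by
    have hwM : ∀ i m, wprod f m i ∈ (M : Set (H →L[ℂ] H)) := by
      intro i
      induction i with
      | zero => intro m; exact one_mem M
      | succ i ih =>
        intro m
        rw [wprod_succ]
        exact mul_mem (S := VonNeumannAlgebra H) (s := M)
          (sub_mem (S := VonNeumannAlgebra H) (H := M) (one_mem M) (hs.f_mem m)) (ih _)
    intro n
    exact mul_mem (S := VonNeumannAlgebra H) (s := M) (hwM n 0) (hs.f_mem n)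
  have hasM : ∀ n, star (a n) ∈ (M : Set (H →L[ℂ] H)) := fun n =>
    star_mem (S := VonNeumannAlgebra H) (s := M) (haM n)
  have hunit : ∀ n, star (a n) * a n = 1 ∧ a n * star (a n) = 1 := fun n =>
    Unitary.mem_iff.1 (phi M (w n)).2
  have hnormal : ∀ n, star (a n) * a n = a n * star (a n) := fun n =>
    (hunit n).1.trans (hunit n).2.symm
  -- products of two elements of the first set
  have hcp : ∀ (x y : H →L[ℂ] H) (n m : ℕ), Commute x (p n) → Commute x (p m) →
      Commute y (p n) → Commute y (p m) → (n = m → x * y = y * x) →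
      (x * p n) * (y * p m) = (y * p m) * (x * p n) := by
    intro x y n m hxn hxm hyn hym hxy
    have e1 : (x * p n) * (y * p m) = (x * y) * (p n * p m) := by
      rw [mul_assoc, ← mul_assoc (p n), hyn.symm.eq]; simp only [mul_assoc]
    have e2 : (y * p m) * (x * p n) = (y * x) * (p m * p n) := by
      rw [mul_assoc, ← mul_assoc (p m), hxm.symm.eq]; simp only [mul_assoc]
    rw [e1, e2]
    by_cases h : n = m
    · subst h; rw [hxy rfl]
    · rw [hpp n m h, hpp m n (Ne.symm h), mul_zero, mul_zero]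
  have hcomm : ∀ i, ∀ x ∈ C i, ∀ y ∈ C i, x * y = y * x := by
    intro i
    cases i
    · rintro _ ⟨j, rfl⟩ _ ⟨k, rfl⟩
      by_cases h : j = k
      · rw [h]
      · exact hs.comm_uu j k h
    · rintro _ ((⟨j, rfl⟩ | ⟨j, rfl⟩) | ⟨j, rfl⟩) _ ((⟨k, rfl⟩ | ⟨k, rfl⟩) | ⟨k, rfl⟩)
      · exact hs.comm_ff' j k
      · exact ((haf k j).symm.mul_right (hpf k j)).eq
      · exact ((hasf k j).symm.mul_right (hpf k j)).eq
      · exact ((haf j k).mul_left (hpf j k).symm).eq
      · exact hcp _ _ _ _ (hap _ _) (hap _ _) (hap _ _) (hap _ _) (fun h => by rw [h])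
      · exact hcp _ _ _ _ (hap _ _) (hap _ _) (hasp _ _) (hasp _ _)
          (fun h => by rw [h]; exact (hnormal k).symm)
      · exact ((hasf j k).mul_left (hpf j k).symm).eq
      · exact hcp _ _ _ _ (hasp _ _) (hasp _ _) (hap _ _) (hap _ _)
          (fun h => by rw [h]; exact hnormal k)
      · exact hcp _ _ _ _ (hasp _ _) (hasp _ _) (hasp _ _) (hasp _ _) (fun h => by rw [h])
  have hstar : ∀ i, ∀ x ∈ C i, star x ∈ C i := by
    intro i
    cases i
    · rintro _ ⟨j, rfl⟩
      exact ⟨j, (hs.u_star j).symm⟩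
    · rintro _ ((⟨j, rfl⟩ | ⟨j, rfl⟩) | ⟨j, rfl⟩)
      · exact Or.inl (Or.inl ⟨j, (hs.f_star j).symm⟩)
      · refine Or.inr ⟨j, ?_⟩
        simp only
        rw [star_mul, hpstar]
        exact (hasp j j).eq
      · refine Or.inl (Or.inr ⟨j, ?_⟩)
        simp only
        rw [star_mul, star_star, hpstar]
        exact (hap j j).eq
  apply topGenerates_of_abelian M hξ C hcomm hstar
  constructor
  · rintro x hx
    obtain ⟨i, hi⟩ := Set.mem_iUnion.1 hx
    cases i
    · obtain ⟨j, rfl⟩ := hi
      exact hs.u_mem j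
    · rcases hi with (⟨j, rfl⟩ | ⟨j, rfl⟩) | ⟨j, rfl⟩
      · exact hs.f_mem j
      · exact mul_mem (S := VonNeumannAlgebra H) (s := M) (haM j) (hpM j)
      · exact mul_mem (S := VonNeumannAlgebra H) (s := M) (hasM j) (hpM j)
  · intro N hN
    have hfN : ∀ k, f k ∈ (N : Set (H →L[ℂ] H)) := fun k =>
      hN (Set.mem_iUnion.2 ⟨true, Or.inl (Or.inl ⟨k, rfl⟩)⟩)
    have huN : ∀ k, u k ∈ (N : Set (H →L[ℂ] H)) := fun k =>
      hN (Set.mem_iUnion.2 ⟨false, ⟨k, rfl⟩⟩)
    have haN : ∀ n, a n ∈ (N : Set (H →L[ℂ] H)) := fun n =>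
      hs.recover' huN (hau n) n (hN (Set.mem_iUnion.2 ⟨true, Or.inl (Or.inr ⟨n, rfl⟩)⟩))
    apply hgen.2
    rintro x ((⟨k, rfl⟩ | ⟨k, rfl⟩) | ⟨hxM, hxc⟩)
    · exact hfN k
    · exact huN k
    · -- the relative commutant
      set D : VonNeumannAlgebra H := vnCent (comm' M ∪ (Set.range f ∪ Set.range u)) with hD
      have hDmem : ∀ y : H →L[ℂ] H, y ∈ (D : Set (H →L[ℂ] H)) ↔ y ∈ (M : Set (H →L[ℂ] H)) ∧
          ∀ k, y * f k = f k * y ∧ y * u k = u k * y := by
        intro y
        rw [hD, mem_vnCent]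
        constructor
        · intro hy
          refine ⟨mem_of_commute M fun z hz => (hy z (Or.inl hz)).1, fun k => ⟨?_, ?_⟩⟩
          · exact (hy _ (Or.inr (Or.inl ⟨k, rfl⟩))).1.symm
          · exact (hy _ (Or.inr (Or.inr ⟨k, rfl⟩))).1.symm
        · rintro ⟨hyM, hyc⟩ z (hz | ⟨k, rfl⟩ | ⟨k, rfl⟩)
          · exact ⟨(hz y hyM).symm, (star_mem_comm' M hz y hyM).symm⟩
          · rw [hs.f_star]; exact ⟨(hyc k).1.symm, (hyc k).1.symm⟩
          · rw [hs.u_star]; exact ⟨(hyc k).2.symm, (hyc k).2.symm⟩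
      have hDN : UM D ⊆ UM N := by
        intro z hz
        obtain ⟨hzM, hzc⟩ := (hDmem z).1 hz
        obtain ⟨z', rfl⟩ := exists_phi M (w := z) hzM
        have hz'U : z' ∈ U₀ := hzc
        apply mem_of_strong N (G := phi M '' Set.range w)
        · rintro _ ⟨_, ⟨n, rfl⟩, rfl⟩
          exact haN n
        · apply strong_of_two M hξ
          intro ε hε
          have h1 : (gns M hξ).toLin (z' : M.toStarSubalgebra) ∈ closure t :=
            htd ⟨z', hz'U, rfl⟩
          rw [Metric.mem_closure_iff] at h1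
          obtain ⟨b, hb, hb2⟩ := h1 ε hε
          rw [hv] at hb
          obtain ⟨n, rfl⟩ := hb
          refine ⟨w n, ⟨n, rfl⟩, ?_⟩
          rw [← hwv n, dist_eq_norm, ← map_sub] at hb2
          exact hb2
      exact subset_of_unitaries D N hDN ((hDmem x).2 ⟨hxM, hxc⟩)

end Pool.Agent.MPcb31e3
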