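import Pool.Agent.MPcb31e3.Cut

/-!
Topological generation of unitary groups, abstract part, V: for a masa `S` there is a selfadjoint
`h ∈ S` with `‖h‖ ≤ 1` such that the powers of `exp (i h)` are 2-norm dense in `U(S)`.
-/

namespace Pool.Agent.MPcb31e3

open NormedSpace Filter Topology ComplexStarModule
open scoped Real

variable {A K : Type*} [CStarAlgebra A] [NormedAddCommGroup K] [InnerProductSpace ℂ K]

/-- selfadjoint elements of `S` of norm at most one -/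
def saBall (S : Set A) : Set A := {h | IsSelfAdjoint h ∧ h ∈ S ∧ ‖h‖ ≤ 1}

theorem isComplete_saBall (Λ : GNSMap A K) (hinj : ∀ x, Λ.toLin x = 0 → x = 0)
    (hcomp : ∀ r : ℝ, IsComplete (Λ.toLin '' {x : A | ‖x‖ ≤ r}))
    {S : Set A} (hS : IsMasa S) : IsComplete (Λ.toLin '' saBall S) := by
  intro f hf hfS
  rw [le_principal_iff] at hfS
  have hsub : Λ.toLin '' saBall S ⊆ Λ.toLin '' {x : A | ‖x‖ ≤ 1} := by
    rintro _ ⟨h, hh, rfl⟩
    exact ⟨h, hh.2.2, rfl⟩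
  obtain ⟨_, ⟨y, hy, rfl⟩, hfy⟩ := hcomp 1 f hf
    (le_principal_iff.2 (Filter.mem_of_superset hfS hsub))
  have hne : f.NeBot := hf.1
  have happ : ∀ ε : ℝ, 0 < ε → ∃ h ∈ saBall S, n2 Λ (y - h) < ε := by
    intro ε hε
    have h1 : Metric.ball (Λ.toLin y) ε ∈ f := hfy (Metric.ball_mem_nhds _ hε)
    obtain ⟨_, hv1, ⟨h, hh, rfl⟩⟩ := hne.nonempty_of_mem (Filter.inter_mem h1 hfS)
    refine ⟨h, hh, ?_⟩
    rw [Metric.mem_ball, dist_comm, dist_eq_norm, ← map_sub] at hv1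
    exact hv1
  have hzero : ∀ x : A, (∀ ε : ℝ, 0 < ε → n2 Λ x < ε) → x = 0 := by
    intro x hx
    apply hinj
    rw [← norm_le_zero_iff]
    exact le_of_forall_pos_le_add fun ε hε => by
      have := hx ε hε
      rw [zero_add]; exact this.le
  refine ⟨_, ⟨y, ⟨?_, ?_, hy⟩, rfl⟩, hfy⟩
  · rw [isSelfAdjoint_iff]
    apply eq_of_sub_eq_zero
    apply hzero
    intro ε hε
    obtain ⟨h, hh, hh2⟩ := happ (ε / 2) (half_pos hε)
    have e : star y - y = star (y - h) - (y - h) := by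
      rw [star_sub, hh.1.star_eq]; abel
    rw [e]
    refine (n2_sub Λ _ _).trans_lt ?_
    rw [n2_star]; linarith
  · rw [hS.mem_iff]
    intro a ha
    apply eq_of_sub_eq_zero
    apply hzero
    intro ε hε
    obtain ⟨h, hh, hh2⟩ := happ (ε / (2 * ‖a‖ + 1)) (by positivity)
    have e : a * y - y * a = a * (y - h) - (y - h) * a := by
      rw [mul_sub, sub_mul, hS.comm ha hh.2.1]; abel
    rw [e]
    refine (n2_sub Λ _ _).trans_lt ?_
    have h1 := n2_mul_left Λ a (y - h)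
    have h2 := n2_mul_right Λ (y - h) a
    have h3 : (2 * ‖a‖) * n2 Λ (y - h) ≤ (2 * ‖a‖) * (ε / (2 * ‖a‖ + 1)) :=
      mul_le_mul_of_nonneg_left hh2.le (by positivity)
    have h4 : (2 * ‖a‖) * (ε / (2 * ‖a‖ + 1)) < ε := by
      rw [mul_div_assoc', div_lt_iff₀ (by positivity)]
      nlinarith [norm_nonneg a]
    linarith

theorem exp_natSmul (h : A) (k : ℕ) : exp (Complex.I • ((k : ℝ) • h)) = exp (Complex.I • h) ^ k := by
  let +nondep : NormedAlgebra ℚ A := .restrictScalars ℚ ℂ A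
  rw [← exp_nsmul]
  congr 1
  rw [smul_comm, Nat.cast_smul_eq_nsmul]

/-- the density step -/
theorem exists_near (Λ : GNSMap A K) {S : Set A} (hS : IsMasa S) {h₀ : A} (hh : h₀ ∈ saBall S)
    {w : A} (hwU : w ∈ unitary A) (hwS : w ∈ S) {ε δ : ℝ} (hε : 0 < ε) (hδ : 0 < δ) :
    ∃ h ∈ saBall S, n2 Λ (h - h₀) < δ ∧ ∃ k : ℕ, n2 Λ (exp (Complex.I • h) ^ k - w) < ε := by
  obtain ⟨hsa, hhS, hnorm⟩ := hh
  set c : ℝ := n2 Λ 1 with hc
  have hc0 : 0 ≤ c := n2_nonneg Λ 1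
  -- choose `η`
  obtain ⟨η, hη0, hη1, hηδ⟩ : ∃ η : ℝ, 0 < η ∧ η ≤ 1 ∧ 2 * η * c < δ := by
    refine ⟨min 1 (δ / (2 * c + 1) / 2), by positivity, min_le_left _ _, ?_⟩
    have h1 : min 1 (δ / (2 * c + 1) / 2) ≤ δ / (2 * c + 1) / 2 := min_le_right _ _
    have h2 : 2 * (min 1 (δ / (2 * c + 1) / 2)) * c ≤ 2 * (δ / (2 * c + 1) / 2) * c := by
      gcongr
    refine h2.trans_lt ?_
    have h3 : 2 * (δ / (2 * c + 1) / 2) * c = δ * c / (2 * c + 1) := by field_simp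
    rw [h3, div_lt_iff₀ (by positivity)]
    nlinarith
  obtain ⟨k, hk⟩ := exists_nat_gt (2 * π / η)
  have hk0 : 0 < (k : ℝ) := lt_of_le_of_lt (by positivity) hk
  have hkη : 2 * π / k ≤ η := by
    rw [div_lt_iff₀ hη0] at hk
    rw [div_le_iff₀ hk0]
    linarith
  set h₁ : A := (1 - η) • h₀ with hh₁
  have hh₁sa : IsSelfAdjoint h₁ := IsSelfAdjoint.smul (IsSelfAdjoint.all (1 - η)) hsa
  have hh₁S : h₁ ∈ S := by
    rw [hh₁, ← Complex.coe_smul]; exact hS.smul_mem _ hhS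
  have hkh₁sa : IsSelfAdjoint ((k : ℝ) • h₁) :=
    IsSelfAdjoint.smul (IsSelfAdjoint.all (k : ℝ)) hh₁sa
  set E : A := exp (Complex.I • ((k : ℝ) • h₁)) with hE
  have hEU : E ∈ unitary A := exp_mem_unitary hkh₁sa
  have hES : E ∈ S := by
    apply hS.exp_mem
    apply hS.smul_mem
    rw [← Complex.coe_smul]; exact hS.smul_mem _ hh₁S
  set z : A := star E * w with hz
  have hzU : z ∈ unitary A := mul_mem (Unitary.star_mem hEU) hwU
  have hzS : z ∈ S := hS.mul_mem (hS.star_mem _ hES) hwS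
  obtain ⟨θ, hθnorm, hθapp, hθcomm⟩ := exists_exp_approx Λ hzU hε
  have hθS : (θ : A) ∈ S := by
    rw [hS.mem_iff]
    intro a ha
    exact (hθcomm a (hS.comm hzS ha) (hS.comm (hS.star_mem _ hzS) ha)).symm
  set h : A := h₁ + (k : ℝ)⁻¹ • (θ : A) with hh
  have hθk : ‖(k : ℝ)⁻¹ • (θ : A)‖ ≤ η := by
    rw [norm_smul, Real.norm_eq_abs, abs_of_nonneg (by positivity)]
    refine le_trans ?_ hkη
    rw [inv_mul_eq_div]
    gcongr
  refine ⟨h, ⟨?_, ?_, ?_⟩, ?_, k, ?_⟩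
  · exact hh₁sa.add (IsSelfAdjoint.smul (IsSelfAdjoint.all ((k : ℝ)⁻¹)) θ.2)
  · apply hS.add_mem hh₁S
    rw [← Complex.coe_smul]; exact hS.smul_mem _ hθS
  · refine (norm_add_le _ _).trans ?_
    have : ‖h₁‖ ≤ 1 - η := by
      rw [hh₁, norm_smul, Real.norm_eq_abs, abs_of_nonneg (by linarith)]
      nlinarith [norm_nonneg h₀]
    linarith
  · have e : h - h₀ = (k : ℝ)⁻¹ • (θ : A) - η • h₀ := by
      rw [hh, hh₁, sub_smul, one_smul]; abel
    rw [e]
    refine (n2_le Λ _).trans_lt ?_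
    have h2 : ‖(k : ℝ)⁻¹ • (θ : A) - η • h₀‖ ≤ 2 * η := by
      refine (norm_sub_le _ _).trans ?_
      have : ‖η • h₀‖ ≤ η := by
        rw [norm_smul, Real.norm_eq_abs, abs_of_nonneg hη0.le]
        nlinarith [norm_nonneg h₀]
      linarith
    have h3 : ‖(k : ℝ)⁻¹ • (θ : A) - η • h₀‖ * n2 Λ 1 ≤ 2 * η * c :=
      mul_le_mul_of_nonneg_right h2 hc0
    linarith
  · have e1 : exp (Complex.I • h) ^ k = E * exp (Complex.I • (θ : A)) := by
      have e0 : (k : ℝ) • ((k : ℝ)⁻¹ • (θ : A)) = θ := by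
        rw [smul_smul, mul_inv_cancel₀ hk0.ne', one_smul]
      rw [← exp_natSmul, hh, smul_add, e0, smul_add, hE]
      let +nondep : NormedAlgebra ℚ A := .restrictScalars ℚ ℂ A
      apply exp_add_of_commute
      apply Commute.smul_left
      apply Commute.smul_right
      apply Commute.smul_left
      exact hS.comm hh₁S hθS
    have e2 : w = E * z := by
      rw [hz, ← mul_assoc, (Unitary.mem_iff.1 hEU).2, one_mul]
    have e3 : E * exp (Complex.I • (θ : A)) - w = E * (exp (Complex.I • (θ : A)) - z) := by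
      rw [mul_sub, ← e2]
    rw [e1, e3, n2_unitary_mul Λ hEU, n2_comm]
    exact hθapp

/-- **Monotheticity** of the unitary group of a masa. -/
theorem exists_monothetic (Λ : GNSMap A K) (hinj : ∀ x, Λ.toLin x = 0 → x = 0)
    (hcomp : ∀ r : ℝ, IsComplete (Λ.toLin '' {x : A | ‖x‖ ≤ r}))
    (hsep : TopologicalSpace.IsSeparable (Set.range Λ.toLin))
    {S : Set A} (hS : IsMasa S) :
    ∃ h ∈ saBall S, ∀ u ∈ unitary A, u ∈ S → ∀ ε : ℝ, 0 < ε →
      ∃ k : ℕ, n2 Λ (u - exp (Complex.I • h) ^ k) < ε := by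
  classical
  set X : Set K := Λ.toLin '' saBall S with hX
  have hXc : CompleteSpace X := (isComplete_saBall Λ hinj hcomp hS).completeSpace_coe
  have hXne : Nonempty X := by
    refine ⟨⟨Λ.toLin 0, 0, ⟨IsSelfAdjoint.zero A, hS.zero_mem, by simp⟩, rfl⟩⟩
  have hpre : ∀ v : X, ∃ h ∈ saBall S, Λ.toLin h = v := fun v => v.2
  choose pre hpreS hpreΛ using hpre
  -- countable dense subset of `U(S)`
  have hUsep : TopologicalSpace.IsSeparable (Λ.toLin '' {u | u ∈ unitary A ∧ u ∈ S}) :=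
    hsep.mono (Set.image_subset_range _ _)
  obtain ⟨t, htsub, htc, htd⟩ := hUsep.exists_countable_dense_subset
  -- the open dense sets
  let O : K × ℕ → Set X := fun p => {v : X | ∃ k : ℕ, ∀ w : A, Λ.toLin w = p.1 →
    n2 Λ (exp (Complex.I • pre v) ^ k - w) < 1 / ((p.2 : ℝ) + 1)}
  have hinj' : ∀ x y, Λ.toLin x = Λ.toLin y → x = y := by
    intro x y hxy
    apply eq_of_sub_eq_zero
    apply hinj
    rw [map_sub, hxy, sub_self]
  have hopen : ∀ p ∈ t ×ˢ (Set.univ : Set ℕ), IsOpen (O p) := by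
    rintro ⟨v₀, n⟩ ⟨hv₀, -⟩
    obtain ⟨w, hw, hwv⟩ := htsub hv₀
    rw [Metric.isOpen_iff]
    rintro v ⟨k, hk⟩
    have hk1 := hk w hwv
    set gap : ℝ := 1 / ((n : ℝ) + 1) - n2 Λ (exp (Complex.I • pre v) ^ k - w) with hgap
    have hgap0 : 0 < gap := sub_pos.2 hk1
    refine ⟨gap / (k + 1), by positivity, ?_⟩
    intro v' hv'
    rw [Metric.mem_ball, Subtype.dist_eq, dist_eq_norm, ← hpreΛ, ← hpreΛ, ← map_sub] at hv'
    refine ⟨k, fun w' hw' => ?_⟩
    have hww : w' = w := hinj' _ _ (hw'.trans hwv.symm)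
    rw [hww]
    have e : exp (Complex.I • pre v') ^ k - w = (exp (Complex.I • pre v') ^ k -
        exp (Complex.I • pre v) ^ k) + (exp (Complex.I • pre v) ^ k - w) := by abel
    rw [e]
    refine (n2_add Λ _ _).trans_lt ?_
    have h1 := n2_pow_sub_pow Λ (exp_mem_unitary (hpreS v').1) (exp_mem_unitary (hpreS v).1) k
    have h2 := n2_exp_sub_exp Λ (hpreS v').1 (hpreS v).1
    have h3 : (k : ℝ) * n2 Λ (exp (Complex.I • pre v') - exp (Complex.I • pre v)) ≤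
        k * (gap / (k + 1)) := by
      apply mul_le_mul_of_nonneg_left _ (Nat.cast_nonneg k)
      exact h2.trans hv'.le
    have h4 : (k : ℝ) * (gap / (k + 1)) < gap := by
      rw [mul_div_assoc', div_lt_iff₀ (by positivity)]
      nlinarith
    have : gap + n2 Λ (exp (Complex.I • pre v) ^ k - w) = 1 / ((n : ℝ) + 1) := by
      rw [hgap]; ring
    linarith
  have hdense : ∀ p ∈ t ×ˢ (Set.univ : Set ℕ), Dense (O p) := by
    rintro ⟨v₀, n⟩ ⟨hv₀, -⟩
    obtain ⟨w, ⟨hwU, hwS⟩, hwv⟩ := htsub hv₀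
    rw [Metric.dense_iff]
    intro v δ hδ
    obtain ⟨h, hhB, hh1, k, hh2⟩ := exists_near Λ hS (hpreS v) hwU hwS
      (ε := 1 / ((n : ℝ) + 1)) (by positivity) hδ
    set v' : X := ⟨Λ.toLin h, h, hhB, rfl⟩ with hv'
    have hpv' : pre v' = h := hinj' _ _ (hpreΛ v')
    refine ⟨v', ?_, ?_⟩
    · rw [Metric.mem_ball, Subtype.dist_eq, dist_eq_norm, ← hpreΛ, ← hpreΛ, ← map_sub, hpv']
      exact hh1
    · refine ⟨k, fun w' hw' => ?_⟩
      have hww : w' = w := hinj' _ _ (hw'.trans hwv.symm)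
      rw [hww, hpv']
      exact hh2
  have hD := dense_biInter_of_isOpen hopen (htc.prod Set.countable_univ) hdense
  obtain ⟨v, hv⟩ := hD.nonempty
  simp only [Set.mem_iInter] at hv
  refine ⟨pre v, hpreS v, ?_⟩
  intro u hu huS ε hε
  -- approximate `u` by an element of `t`
  have hu1 : Λ.toLin u ∈ closure t := htd ⟨u, ⟨hu, huS⟩, rfl⟩
  rw [Metric.mem_closure_iff] at hu1
  obtain ⟨v₀, hv₀, hv₁⟩ := hu1 (ε / 2) (half_pos hε)
  obtain ⟨w, ⟨hwU, hwS⟩, hwv⟩ := htsub hv₀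
  obtain ⟨n, hn⟩ := exists_nat_one_div_lt (half_pos hε)
  obtain ⟨k, hk⟩ := hv (v₀, n) ⟨hv₀, Set.mem_univ n⟩
  have hk1 := hk w hwv
  refine ⟨k, ?_⟩
  have e : u - exp (Complex.I • pre v) ^ k = (u - w) - (exp (Complex.I • pre v) ^ k - w) := by abel
  rw [e]
  refine (n2_sub Λ _ _).trans_lt ?_
  rw [← hwv, dist_eq_norm, ← map_sub] at hv₁
  change n2 Λ (u - w) < ε / 2 at hv₁
  simp only at hk1
  linarith

end Pool.Agent.MPcb31e3
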