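import Pool.Agent.MPcb31e3.Final

/-!
Topological generation of unitary groups: the ranks.
-/

namespace Pool.Agent.MPcb31e3

open NormedSpace Filter Topology ComplexStarModule
open scoped Real ENNReal Cardinal

universe u

variable {H : Type u} [NormedAddCommGroup H] [InnerProductSpace ℂ H] [CompleteSpace H]

theorem topGenerates_UM (M : VonNeumannAlgebra H) : TopGenerates M (UM M) := by
  refine ⟨subset_rfl, ?_⟩
  intro u hu F ε hε
  exact ⟨u, Subgroup.subset_closure hu, fun η _ => by simpa using hε⟩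

theorem exists_topRank (M : VonNeumannAlgebra H) :
    ∃ S : Set (unitary (H →L[ℂ] H)), TopGenerates M S ∧ topRank M = #S :=
  csInf_mem (s := {c | ∃ S : Set (unitary (H →L[ℂ] H)), TopGenerates M S ∧ c = #S})
    ⟨_, UM M, topGenerates_UM M, rfl⟩

theorem topRank_le {M : VonNeumannAlgebra H} {S : Set (unitary (H →L[ℂ] H))}
    (hS : TopGenerates M S) : topRank M ≤ #S :=
  csInf_le' ⟨S, hS, rfl⟩

theorem exists_unitaryGenRank (M : VonNeumannAlgebra H) :
    ∃ S : Set (unitary (H →L[ℂ] H)),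
      S ⊆ UM M ∧ Generates M ((fun u : unitary (H →L[ℂ] H) => (u : H →L[ℂ] H)) '' S) ∧
        unitaryGenRank M = #S :=
  csInf_mem (s := {c | ∃ S : Set (unitary (H →L[ℂ] H)),
    S ⊆ UM M ∧ Generates M ((fun u : unitary (H →L[ℂ] H) => (u : H →L[ℂ] H)) '' S) ∧ c = #S})
    ⟨_, UM M, subset_rfl, generates_of_topGenerates M (topGenerates_UM M), rfl⟩

theorem unitaryGenRank_le_topRank (M : VonNeumannAlgebra H) : unitaryGenRank M ≤ topRank M := by
  obtain ⟨S, hS, hS2⟩ := exists_topRank M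
  rw [hS2]
  exact csInf_le' ⟨S, hS.1, generates_of_topGenerates M hS, rfl⟩

/-- the scalars as a von Neumann algebra -/
noncomputable def scalars (H : Type u) [NormedAddCommGroup H] [InnerProductSpace ℂ H]
    [CompleteSpace H] : VonNeumannAlgebra H := vnCent (Set.univ)

theorem mem_scalars {x : H →L[ℂ] H} (hx : x ∈ (scalars H : Set (H →L[ℂ] H))) :
    ∃ c : ℂ, x = c • (1 : H →L[ℂ] H) := by
  have hcomm : ∀ y : H →L[ℂ] H, y * x = x * y := fun y => (mem_vnCent.1 hx y (Set.mem_univ y)).1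
  rcases subsingleton_or_nontrivial H with hs | hs
  · exact ⟨0, by ext v; exact Subsingleton.elim _ _⟩
  obtain ⟨v₀, hv₀⟩ := exists_ne (0 : H)
  -- rank-one operators
  have h1 : ∀ v w : H, inner ℂ v₀ (v₀) • x w = inner ℂ v₀ (x v₀) • w := by
    intro v w
    have h2 := DFunLike.congr_fun (hcomm ((innerSL ℂ v₀).smulRight w)) v₀
    have h3 : ((innerSL ℂ v₀).smulRight w * x) v₀ = inner ℂ v₀ (x v₀) • w := by
      change (innerSL ℂ v₀).smulRight w (x v₀) = _
      simp
    have h4 : (x * (innerSL ℂ v₀).smulRight w) v₀ = inner ℂ v₀ v₀ • x w := by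
      change x ((innerSL ℂ v₀).smulRight w v₀) = _
      rw [ContinuousLinearMap.smulRight_apply, map_smul]
      simp
    rw [h3, h4] at h2
    exact h2.symm
  have h0 : inner ℂ v₀ v₀ ≠ 0 := inner_self_ne_zero.2 hv₀
  refine ⟨(inner ℂ v₀ v₀)⁻¹ * inner ℂ v₀ (x v₀), ?_⟩
  ext w
  have := h1 v₀ w
  change x w = ((inner ℂ v₀ v₀)⁻¹ * inner ℂ v₀ (x v₀)) • w
  rw [mul_smul, ← this, smul_smul, inv_mul_cancel₀ h0, one_smul]

/-- **The number of topological generators of `U(M)` is the number of unitary generators of `M`.** -/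
theorem topRank_eq [TopologicalSpace.SeparableSpace H] (M : VonNeumannAlgebra H) {ξ : ℕ → H}
    (hξ : IsTracialState M ξ)
    (hM : ∃ x ∈ (M : Set (H →L[ℂ] H)), ∀ c : ℂ, x ≠ c • (1 : H →L[ℂ] H)) :
    topRank M = unitaryGenRank M := by
  apply le_antisymm _ (unitaryGenRank_le_topRank M)
  obtain ⟨S, hSM, hSgen, hcard⟩ := exists_unitaryGenRank M
  have hne : S.Nonempty := by
    by_contra h
    rw [Set.not_nonempty_iff_eq_empty] at h
    obtain ⟨x, hx, hxc⟩ := hM
    have := hSgen.2 (scalars H) (by rw [h, Set.image_empty]; exact Set.empty_subset _) hx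
    obtain ⟨c, hc⟩ := mem_scalars this
    exact hxc c hc
  have : Nonempty S := hne.to_subtype
  have hx : ∀ i : S, ∃ u : unitary M.toStarSubalgebra, phi M u = i := fun i =>
    exists_phi M (hSM i.2)
  choose x hx using hx
  obtain ⟨h, hh⟩ := topGenerates_of_generates M hξ (fun i : S => (x i : M.toStarSubalgebra))
    (fun i => isStarNormal_unitary (x i)) (by
      convert hSgen using 1
      ext w
      simp only [Set.mem_range, Set.mem_image]
      constructor
      · rintro ⟨i, rfl⟩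
        exact ⟨i, i.2, by rw [← hx i, phi_coe]⟩
      · rintro ⟨u, hu, rfl⟩
        exact ⟨⟨u, hu⟩, by rw [← phi_coe, hx]⟩)
  rw [hcard]
  exact (topRank_le hh).trans Cardinal.mk_range_le

/-- A von Neumann algebra all of whose unitaries commute is commutative. -/
theorem comm_of_UM (M : VonNeumannAlgebra H)
    (h : ∀ u ∈ UM M, ∀ v ∈ UM M, (u : H →L[ℂ] H) * v = v * u) :
    ∀ x ∈ (M : Set (H →L[ℂ] H)), ∀ y ∈ (M : Set (H →L[ℂ] H)), x * y = y * x := by
  have h1 : ∀ v ∈ UM M, ∀ x ∈ (M : Set (H →L[ℂ] H)), (v : H →L[ℂ] H) * x = x * v := by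
    intro v hv x hx
    have h2 := subset_of_unitaries M (vnCent {(v : H →L[ℂ] H)}) (by
      intro u hu
      change (u : H →L[ℂ] H) ∈ (vnCent {(v : H →L[ℂ] H)} : Set (H →L[ℂ] H))
      rw [mem_vnCent]
      rintro _ rfl
      have hvs : v⁻¹ ∈ UM M := star_mem (S := VonNeumannAlgebra H) (s := M) hv
      exact ⟨(h u hu v hv).symm, (h u hu v⁻¹ hvs).symm⟩) hx
    exact (mem_vnCent.1 h2 _ rfl).1
  intro x hx y hy
  have h2 := subset_of_unitaries M (vnCent {x}) (by
    intro u hu
    change (u : H →L[ℂ] H) ∈ (vnCent {x} : Set (H →L[ℂ] H))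
    rw [mem_vnCent]
    rintro g (hg : g = x)
    rw [hg]
    exact ⟨(h1 u hu x hx).symm,
      (h1 u hu _ (star_mem (S := VonNeumannAlgebra H) (s := M) hx)).symm⟩) hy
  exact (mem_vnCent.1 h2 _ rfl).1

/-- If `U(M)` is topologically generated by at most one element then `M` is commutative. -/
theorem comm_of_topRank_lt_two (M : VonNeumannAlgebra H) (h : topRank M < 2) :
    ∀ x ∈ (M : Set (H →L[ℂ] H)), ∀ y ∈ (M : Set (H →L[ℂ] H)), x * y = y * x := by
  obtain ⟨S, hS, hcard⟩ := exists_topRank M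
  rw [hcard] at h
  have hsub : S.Subsingleton := by
    by_contra hns
    rw [Set.not_subsingleton_iff] at hns
    obtain ⟨x, hx, y, hy, hxy⟩ := hns
    have : (2 : Cardinal) ≤ #S :=
      Cardinal.two_le_iff.2 ⟨⟨x, hx⟩, ⟨y, hy⟩, fun e => hxy (congrArg Subtype.val e)⟩
    exact absurd h (not_lt.2 this)
  -- the closure is commutative
  have hc : ∀ a ∈ Subgroup.closure S, ∀ b ∈ Subgroup.closure S, a * b = b * a := by
    have hScomm : ∀ a ∈ S, ∀ b ∈ S, a * b = b * a := by
      intro a ha b hb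
      rw [hsub ha hb]
    have h1 : Subgroup.closure S ≤ Subgroup.centralizer S :=
      (Subgroup.closure_le _).2 fun a ha => by
        rw [SetLike.mem_coe, Subgroup.mem_centralizer_iff]
        exact fun b hb => hScomm b hb a ha
    have h2 : Subgroup.closure S ≤ Subgroup.centralizer (Subgroup.closure S) :=
      (Subgroup.closure_le _).2 fun a ha => by
        rw [SetLike.mem_coe, Subgroup.mem_centralizer_iff]
        intro b hb
        exact (Subgroup.mem_centralizer_iff.1 (h1 hb) a ha).symm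
    intro a ha b hb
    exact (Subgroup.mem_centralizer_iff.1 (h2 ha) b hb).symm
  have key : ∀ g ∈ Subgroup.closure S, ∀ v ∈ UM M, (g : H →L[ℂ] H) * v = v * g := by
    intro g hg v hv
    have h2 := mem_of_strong (vnCent {(g : H →L[ℂ] H)})
      (G := (Subgroup.closure S : Set (unitary (H →L[ℂ] H)))) (by
      intro k hk
      change (k : H →L[ℂ] H) ∈ (vnCent {(g : H →L[ℂ] H)} : Set (H →L[ℂ] H))
      rw [mem_vnCent]
      rintro _ rfl
      have e1 := congrArg (fun z : unitary (H →L[ℂ] H) => (z : H →L[ℂ] H)) (hc g hg k hk)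
      have e2 := congrArg (fun z : unitary (H →L[ℂ] H) => (z : H →L[ℂ] H))
        (hc g⁻¹ (inv_mem hg) k hk)
      exact ⟨e1, e2⟩) (fun F ε hε => hS.2 v hv F ε hε)
    exact (mem_vnCent.1 h2 _ rfl).1
  apply comm_of_UM
  intro u hu v hv
  have h2 := mem_of_strong (vnCent {(v : H →L[ℂ] H)})
    (G := (Subgroup.closure S : Set (unitary (H →L[ℂ] H)))) (by
    intro k hk
    change (k : H →L[ℂ] H) ∈ (vnCent {(v : H →L[ℂ] H)} : Set (H →L[ℂ] H))
    rw [mem_vnCent]
    rintro _ rfl
    have hvs : v⁻¹ ∈ UM M := star_mem (S := VonNeumannAlgebra H) (s := M) hv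
    exact ⟨(key k hk v hv).symm, (key k hk v⁻¹ hvs).symm⟩) (fun F ε hε => hS.2 u hu F ε hε)
  exact ((mem_vnCent.1 h2 _ rfl).1).symm

theorem II1_noncomm {M : VonNeumannAlgebra H} (hM : IsII1Factor M) :
    ∃ x ∈ (M : Set (H →L[ℂ] H)), ∀ c : ℂ, x ≠ c • (1 : H →L[ℂ] H) := by
  by_contra hcon
  push Not at hcon
  apply hM.infinite
  have hspan : (⊤ : Submodule ℂ M.toStarSubalgebra) ≤ Submodule.span ℂ {1} := by
    intro x _
    obtain ⟨c, hc⟩ := hcon x x.2
    rw [Submodule.mem_span_singleton]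
    exact ⟨c, Subtype.ext hc.symm⟩
  exact ⟨Submodule.fg_def.2 ⟨{1}, Set.finite_singleton _, le_antisymm le_top hspan⟩⟩

theorem two_le_topRank {M : VonNeumannAlgebra H} (hM : IsII1Factor M) : 2 ≤ topRank M := by
  by_contra hlt
  rw [not_le] at hlt
  have hcomm := comm_of_topRank_lt_two M hlt
  obtain ⟨x, hx, hxc⟩ := II1_noncomm hM
  obtain ⟨c, hc⟩ := hM.factor x hx (fun y hy => hcomm x hx y hy)
  exact hxc c hc

/-- **Theorem.** For a II₁ factor `M` on a separable Hilbert space, `d(M) = 2` if and only if `M`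
is singly generated. -/
theorem topRank_eq_two_iff [TopologicalSpace.SeparableSpace H] {M : VonNeumannAlgebra H}
    (hM : IsII1Factor M) : topRank M = 2 ↔ ∃ x : H →L[ℂ] H, Generates M {x} := by
  obtain ⟨ξ, hξ⟩ := hM.trace
  rw [singly_iff M hξ]
  constructor
  · intro h
    obtain ⟨S, hS, hcard⟩ := exists_topRank M
    rw [h] at hcard
    obtain ⟨u, v, -, hSuv⟩ := Cardinal.mk_eq_two_iff.1 hcard.symm
    refine ⟨u, v, ?_⟩
    convert hS using 1
    ext w
    simp only [Set.mem_insert_iff, Set.mem_singleton_iff]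
    constructor
    · rintro (rfl | rfl)
      · exact u.2
      · exact v.2
    · intro hw
      have : (⟨w, hw⟩ : S) ∈ ({u, v} : Set S) := by rw [hSuv]; exact Set.mem_univ _
      rcases this with h1 | h1
      · left; exact congrArg Subtype.val h1
      · right; exact congrArg Subtype.val h1
  · rintro ⟨u, v, huv⟩
    apply le_antisymm _ (two_le_topRank hM)
    refine (topRank_le huv).trans ?_
    refine Cardinal.mk_insert_le.trans ?_
    rw [Cardinal.mk_singleton]
    norm_num

end Pool.Agent.MPcb31e3
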