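import Pool.Agent.MPcb31e3.Mono

/-!
Topological generation of unitary groups, abstract part, VI: conclusion, and existence of masas.
-/

namespace Pool.Agent.MPcb31e3

open NormedSpace Filter Topology ComplexStarModule
open scoped Real

section
variable {A : Type*} [CStarAlgebra A]

/-- Every commuting selfadjoint set lies in a masa. -/
theorem exists_masa_of_comm {C₀ : Set A} (hcomm : ∀ a ∈ C₀, ∀ b ∈ C₀, a * b = b * a)
    (hstar : ∀ a ∈ C₀, star a ∈ C₀) : ∃ S : Set A, IsMasa S ∧ C₀ ⊆ S := by
  -- commuting star-closed sets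
  let P : Set (Set A) := {S | (∀ a ∈ S, ∀ b ∈ S, a * b = b * a) ∧ (∀ a ∈ S, star a ∈ S)}
  have hbase : C₀ ∈ P := ⟨hcomm, hstar⟩
  obtain ⟨S, hxS, hSP⟩ := zorn_subset_nonempty P (by
    intro C hCP hC hCne
    refine ⟨⋃₀ C, ⟨?_, ?_⟩, fun s hs => Set.subset_sUnion_of_mem hs⟩
    · rintro a ⟨s, hs, ha⟩ b ⟨t, ht, hb⟩
      rcases hC.total hs ht with h | h
      · exact (hCP ht).1 a (h ha) b hb
      · exact (hCP hs).1 a ha b (h hb)
    · rintro a ⟨s, hs, ha⟩
      exact ⟨s, hs, (hCP hs).2 a ha⟩) _ hbase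
  have hmax : ∀ T ∈ P, S ⊆ T → T ⊆ S := fun T hT hST => hSP.2 hT hST
  have hS1 := hSP.1.1
  have hS2 := hSP.1.2
  -- selfadjoint elements of the commutant are in `S`
  have hadd : ∀ y : A, (∀ a ∈ S, a * y = y * a) → (star y * y = y * star y) → y ∈ S := by
    intro y hy hyn
    have hy' : ∀ a ∈ S, a * star y = star y * a := by
      intro a ha
      have := congrArg star (hy (star a) (hS2 a ha))
      rw [star_mul, star_mul, star_star] at this
      exact this.symm
    have hT : S ∪ {y, star y} ∈ P := by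
      constructor
      · rintro a (ha | rfl | rfl) b (hb | rfl | rfl)
        · exact hS1 a ha b hb
        · exact hy a ha
        · exact hy' a ha
        · exact (hy b hb).symm
        · rfl
        · exact hyn.symm
        · exact (hy' b hb).symm
        · exact hyn
        · rfl
      · rintro a (ha | rfl | rfl)
        · left; exact hS2 a ha
        · right; right; rfl
        · right; left; rw [star_star]
    exact hmax _ hT Set.subset_union_left (Or.inr (Or.inl rfl))
  refine ⟨S, ⟨?_, hS2⟩, hxS⟩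
  apply Set.Subset.antisymm
  · intro y hy
    have hy1 : ∀ a ∈ S, a * y = y * a := fun a ha => hy a ha
    have hy2 : ∀ a ∈ S, a * star y = star y * a := by
      intro a ha
      have := congrArg star (hy1 (star a) (hS2 a ha))
      rw [star_mul, star_mul, star_star] at this
      exact this.symm
    have hre : (realPart y : A) ∈ S := by
      apply hadd
      · intro a ha
        rw [realPart_apply_coe, mul_smul_comm, smul_mul_assoc, mul_add, add_mul, hy1 a ha,
          hy2 a ha]
      · rw [(realPart y).2.star_eq]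
    have him : (imaginaryPart y : A) ∈ S := by
      apply hadd
      · intro a ha
        rw [imaginaryPart_apply_coe, mul_smul_comm, smul_mul_assoc, mul_smul_comm, smul_mul_assoc,
          mul_sub, sub_mul, hy1 a ha, hy2 a ha]
      · rw [(imaginaryPart y).2.star_eq]
    apply hadd y hy1
    have hc : (realPart y : A) * (imaginaryPart y : A) = (imaginaryPart y : A) * realPart y :=
      hS1 _ hre _ him
    have e := realPart_add_I_smul_imaginaryPart y
    have es : star y = (realPart y : A) - Complex.I • (imaginaryPart y : A) := by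
      conv_lhs => rw [← e]
      rw [star_add, star_smul, (realPart y).2.star_eq, (imaginaryPart y).2.star_eq]
      simp [sub_eq_add_neg]
    have gen : ∀ r i : A, r * i = i * r →
        (r - Complex.I • i) * (r + Complex.I • i) = (r + Complex.I • i) * (r - Complex.I • i) := by
      intro r i hri
      have h : Commute r (Complex.I • i) := by
        rw [commute_iff_eq, mul_smul_comm, smul_mul_assoc, hri]
      exact (((Commute.refl r).add_right h).sub_left (h.symm.add_right (Commute.refl _))).eq.trans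
        rfl
    have := gen _ _ hc
    rw [e, ← es] at this
    exact this
  · intro y hy a ha
    exact hS1 a ha y hy

/-- Every normal element lies in a masa. -/
theorem exists_masa {x : A} (hx : IsStarNormal x) : ∃ S : Set A, IsMasa S ∧ x ∈ S := by
  have hx0 : star x * x = x * star x := hx.star_comm_self
  obtain ⟨S, hS, hxS⟩ := exists_masa_of_comm (C₀ := ({x, star x} : Set A)) (by
    rintro a (rfl | rfl) b (rfl | rfl)
    · rfl
    · exact hx0.symm
    · exact hx0
    · rfl) (by
    rintro a (rfl | rfl)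
    · right; rfl
    · left; rw [star_star])
  exact ⟨S, hS, hxS (Or.inl rfl)⟩

end

section
variable {A K : Type*} [CStarAlgebra A] [NormedAddCommGroup K] [InnerProductSpace ℂ K]

/-- the 2-norm closure of a subgroup of the unitary group -/
noncomputable def twoClosure (Λ : GNSMap A K) (G₀ : Subgroup (unitary A)) :
    Subgroup (unitary A) where
  carrier := {u | ∀ ε : ℝ, 0 < ε → ∃ g ∈ G₀, n2 Λ ((u : A) - (g : A)) < ε}
  one_mem' := fun ε hε => ⟨1, one_mem _, by simpa using hε⟩
  mul_mem' := by
    intro u v hu hv ε hε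
    obtain ⟨g, hg, hg2⟩ := hu (ε / 2) (half_pos hε)
    obtain ⟨k, hk, hk2⟩ := hv (ε / 2) (half_pos hε)
    refine ⟨g * k, mul_mem hg hk, ?_⟩
    have e : ((u * v : unitary A) : A) - ((g * k : unitary A) : A) =
        ((u : A) - g) * v + g * ((v : A) - k) := by
      rw [Submonoid.coe_mul, Submonoid.coe_mul, sub_mul, mul_sub]; abel
    rw [e]
    refine (n2_add Λ _ _).trans_lt ?_
    rw [n2_mul_unitary Λ v.2, n2_unitary_mul Λ g.2]
    linarith
  inv_mem' := by
    intro u hu ε hε
    obtain ⟨g, hg, hg2⟩ := hu ε hε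
    refine ⟨g⁻¹, inv_mem hg, ?_⟩
    have e : ((u⁻¹ : unitary A) : A) - ((g⁻¹ : unitary A) : A) = star ((u : A) - g) := by
      rw [star_sub]; rfl
    rw [e, n2_star]
    exact hg2

theorem twoClosed_twoClosure (Λ : GNSMap A K) (G₀ : Subgroup (unitary A)) :
    TwoClosed Λ (twoClosure Λ G₀) := by
  intro u hu ε hε
  obtain ⟨g, hg, hg2⟩ := hu (ε / 2) (half_pos hε)
  obtain ⟨k, hk, hk2⟩ := hg (ε / 2) (half_pos hε)
  refine ⟨k, hk, ?_⟩
  have e : (u : A) - k = ((u : A) - g) + ((g : A) - k) := by abel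
  rw [e]
  refine (n2_add Λ _ _).trans_lt ?_
  linarith

/-- A 2-norm closed subgroup containing the unitary groups of masas which generate `A`
is everything. -/
theorem eq_top_of_masas (Λ : GNSMap A K) (hinj : ∀ x, Λ.toLin x = 0 → x = 0)
    (hcomp : ∀ r : ℝ, IsComplete (Λ.toLin '' {x : A | ‖x‖ ≤ r}))
    {G : Subgroup (unitary A)} (hG : TwoClosed Λ G) {ι : Type*} [Nonempty ι]
    {S : ι → Set A} (hS : ∀ i, IsMasa (S i))
    (hSG : ∀ i, ∀ u : unitary A, (u : A) ∈ S i → u ∈ G)
    (hgen : ∀ x : A, ∀ ε : ℝ, 0 < ε → ∃ y ∈ Algebra.adjoin ℂ (⋃ i, S i), n2 Λ (x - y) < ε) :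
    G = ⊤ := by
  -- the stabilizer of `V` under left multiplication
  let B : Subalgebra ℂ A :=
    { carrier := {a | ∀ x ∈ lieV Λ hG, a * x ∈ lieV Λ hG}
      mul_mem' := by
        intro a b ha hb x hx
        rw [mul_assoc]
        exact ha _ (hb x hx)
      add_mem' := by
        intro a b ha hb x hx
        rw [add_mul]
        exact Submodule.add_mem _ (ha x hx) (hb x hx)
      algebraMap_mem' := by
        intro r x hx
        rw [Algebra.algebraMap_eq_smul_one, smul_mul_assoc, one_mul]
        exact Submodule.smul_mem _ _ hx }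
  have hB : Algebra.adjoin ℂ (⋃ i, S i) ≤ B := by
    apply Algebra.adjoin_le
    intro a ha
    obtain ⟨i, hi⟩ := Set.mem_iUnion.1 ha
    intro x hx
    exact lieV_mul_left Λ hinj hcomp hG (hS i) (hSG i) hx hi
  obtain ⟨i₀⟩ := ‹Nonempty ι›
  have h1 : (1 : A) ∈ lieV Λ hG := masa_sub_lieV Λ hG (hS i₀) (hSG i₀) (hS i₀).one_mem
  have hV : ∀ x : A, x ∈ lieV Λ hG := by
    intro x
    apply lieV_closed
    intro ε hε
    obtain ⟨y, hy, hy2⟩ := hgen x ε hε
    refine ⟨y, ?_, hy2⟩
    have := hB hy 1 h1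
    rwa [mul_one] at this
  rw [eq_top_iff]
  intro u _
  apply hG
  intro ε hε
  obtain ⟨θ, -, hθ, -⟩ := exists_exp_approx Λ u.2 hε
  have h2 := (mem_lieV_of_selfAdjoint Λ hG θ).1 (hV θ) 1
  refine ⟨_, h2, ?_⟩
  rw [expU_coe, one_smul]
  exact hθ

/-- **Abstract theorem.** If masas `S i` generate `A` (in the 2-norm) and `h i ∈ S i` is such that
the powers of `exp (i h)` are dense in `U(S i)`, then the group generated by the `exp (i h)` is
2-norm dense in the unitary group. -/
theorem dense_of_masas (Λ : GNSMap A K) (hinj : ∀ x, Λ.toLin x = 0 → x = 0)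
    (hcomp : ∀ r : ℝ, IsComplete (Λ.toLin '' {x : A | ‖x‖ ≤ r}))
    {ι : Type*} [Nonempty ι] {S : ι → Set A} (hS : ∀ i, IsMasa (S i))
    (hgen : ∀ x : A, ∀ ε : ℝ, 0 < ε → ∃ y ∈ Algebra.adjoin ℂ (⋃ i, S i), n2 Λ (x - y) < ε)
    (v : ι → unitary A)
    (hv : ∀ i, ∀ u ∈ unitary A, u ∈ S i → ∀ ε : ℝ, 0 < ε → ∃ k : ℕ, n2 Λ (u - (v i : A) ^ k) < ε)
    (u : unitary A) {ε : ℝ} (hε : 0 < ε) :
    ∃ g ∈ Subgroup.closure (Set.range v), n2 Λ ((u : A) - (g : A)) < ε := by
  have htop := eq_top_of_masas Λ hinj hcomp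
    (twoClosed_twoClosure Λ (Subgroup.closure (Set.range v))) hS (by
      intro i u hu ε hε
      obtain ⟨k, hk⟩ := hv i u u.2 hu ε hε
      refine ⟨v i ^ k, pow_mem (Subgroup.subset_closure (Set.mem_range_self i)) k, ?_⟩
      rw [SubmonoidClass.coe_pow]
      exact hk) hgen
  have hu : u ∈ twoClosure Λ (Subgroup.closure (Set.range v)) := by
    rw [htop]; exact Subgroup.mem_top u
  exact hu ε hε

end

end Pool.Agent.MPcb31e3
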